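import Mathlib

/-!
# Lie algebras isomorphic to their conjugates without a form over the base field

`E` is a field with an involution `σ`, `om` an element with `σ om = -om ≠ 0`, and `2 ≠ 0`.
`G σ om` is the 14-dimensional Lie algebra `t ⊕ V`, `t = E^2`, with weights
`±(1,0), ±(0,1)` (each of multiplicity two) and `±(1+om,1), ±(-1,1-om)` on `V`.
-/

namespace Q35.Conj

/-- `g^σ ≅ g`: there is a `σ`-semilinear bijection of `g` which preserves the bracket. -/
def ConjIso {E : Type*} [Field E] (σ : E →+* E) (g : Type*) [LieRing g] [LieAlgebra E g] : Prop :=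
  ∃ φ : g ≃+ g, (∀ x y, φ ⁅x, y⁆ = ⁅φ x, φ y⁆) ∧ ∀ (c : E) (x : g), φ (c • x) = σ c • φ x

section

variable {E : Type*} [Field E]

/-- the quaternionic structure -/
def J (σ : E →+* E) (p : E × E) : E × E := (-σ p.2, σ p.1)

/-- the orbit of a weight -/
def orb (σ : E →+* E) (p : E × E) : Fin 4 → E × E := ![p, J σ p, -p, -J σ p]

/-- base weights -/
def base (om : E) : Fin 3 → E × E := ![(1, 0), (1, 0), (1 + om, 1)]

/-- all weights -/
def wt (σ : E →+* E) (om : E) (k : Fin 3) (r : Fin 4) : E × E := orb σ (base om k) r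

/-- the pairing -/
def pr (p s : E × E) : E := p.1 * s.1 + p.2 * s.2

lemma pr_add (p s t : E × E) : pr p (s + t) = pr p s + pr p t := by
  simp only [pr, Prod.fst_add, Prod.snd_add]; ring

lemma pr_smul (p : E × E) (c : E) (s : E × E) : pr p (c • s) = c * pr p s := by
  simp only [pr, Prod.smul_fst, Prod.smul_snd, smul_eq_mul]; ring

lemma pr_J {σ : E →+* E} (p s : E × E) : pr (J σ p) (J σ s) = σ (pr p s) := by
  simp only [pr, J, map_add, map_mul]; ring

lemma J_J {σ : E →+* E} (hσ : ∀ x, σ (σ x) = x) (p : E × E) : J σ (J σ p) = -p := by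
  simp only [J, map_neg, hσ]
  ext <;> simp

lemma J_neg {σ : E →+* E} (p : E × E) : J σ (-p) = -J σ p := by
  simp only [J, Prod.fst_neg, Prod.snd_neg, map_neg]
  ext <;> simp

lemma orb_succ {σ : E →+* E} (hσ : ∀ x, σ (σ x) = x) (p : E × E) (r : Fin 4) :
    orb σ p (r + 1) = J σ (orb σ p r) := by
  fin_cases r
  · rfl
  · change -p = J σ (J σ p)
    rw [J_J hσ]
  · change -J σ p = J σ (-p)
    rw [J_neg]
  · change p = J σ (-J σ p)
    rw [J_neg, J_J hσ, neg_neg]

end

/-- the underlying space -/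
def G {E : Type*} [Field E] (_σ : E →+* E) (_om : E) : Type _ := (E × E) × (Fin 3 → Fin 4 → E)

variable {E : Type*} [Field E] (σ : E →+* E) (om : E)

instance : AddCommGroup (G σ om) := inferInstanceAs (AddCommGroup ((E × E) × (Fin 3 → Fin 4 → E)))

instance : Module E (G σ om) := inferInstanceAs (Module E ((E × E) × (Fin 3 → Fin 4 → E)))

instance : Module.Finite E (G σ om) :=
  inferInstanceAs (Module.Finite E ((E × E) × (Fin 3 → Fin 4 → E)))

instance : Bracket (G σ om) (G σ om) where
  bracket x y := (0, fun k r => pr (wt σ om k r) x.1 * y.2 k r - pr (wt σ om k r) y.1 * x.2 k r)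

lemma br_fst (x y : G σ om) : ⁅x, y⁆.1 = 0 := rfl

lemma br_snd (x y : G σ om) (k : Fin 3) (r : Fin 4) : ⁅x, y⁆.2 k r =
    pr (wt σ om k r) x.1 * y.2 k r - pr (wt σ om k r) y.1 * x.2 k r := rfl

lemma G_ext {x y : G σ om} (h1 : x.1 = y.1) (h2 : ∀ k r, x.2 k r = y.2 k r) : x = y :=
  Prod.ext h1 (funext fun k => funext fun r => h2 k r)

lemma add_fst' (x y : G σ om) : (x + y).1 = x.1 + y.1 := rfl
lemma add_snd' (x y : G σ om) (k : Fin 3) (r : Fin 4) : (x + y).2 k r = x.2 k r + y.2 k r := rfl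
lemma smul_fst' (c : E) (x : G σ om) : (c • x).1 = c • x.1 := rfl
lemma smul_snd' (c : E) (x : G σ om) (k : Fin 3) (r : Fin 4) : (c • x).2 k r = c * x.2 k r := rfl
lemma zero_fst' : (0 : G σ om).1 = 0 := rfl
lemma zero_snd' (k : Fin 3) (r : Fin 4) : (0 : G σ om).2 k r = 0 := rfl

lemma pr_zero (p : E × E) : pr p 0 = 0 := by simp [pr]

instance : LieRing (G σ om) where
  add_lie x y z := by
    apply G_ext
    · simp only [br_fst, add_fst', add_zero]
    · intro k r
      simp only [br_snd, add_fst', add_snd', pr_add]; ring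
  lie_add x y z := by
    apply G_ext
    · simp only [br_fst, add_fst', add_zero]
    · intro k r
      simp only [br_snd, add_fst', add_snd', pr_add]; ring
  lie_self x := by
    apply G_ext
    · rfl
    · intro k r
      simp only [br_snd, zero_snd']; ring
  leibniz_lie x y z := by
    apply G_ext
    · simp only [br_fst, add_fst', add_zero]
    · intro k r
      simp only [br_snd, add_snd', br_fst, pr_zero]; ring

instance : LieAlgebra E (G σ om) where
  lie_smul c x y := by
    apply G_ext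
    · simp only [br_fst, smul_fst', smul_zero]
    · intro k r
      simp only [br_snd, smul_fst', smul_snd', pr_smul]; ring

/-- the algebra is isomorphic to its conjugate -/
theorem conjIso (hσ : ∀ x, σ (σ x) = x) : ConjIso σ (G σ om) := by
  let f : G σ om → G σ om := fun x => (J σ x.1, fun k r => σ (x.2 k (r - 1)))
  let g : G σ om → G σ om := fun x => (-J σ x.1, fun k r => σ (x.2 k (r + 1)))
  have hfg : ∀ x, f (g x) = x := by
    intro x
    apply G_ext
    · change J σ (-J σ x.1) = x.1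
      rw [J_neg, J_J hσ, neg_neg]
    · intro k r
      change σ (σ (x.2 k (r - 1 + 1))) = x.2 k r
      rw [hσ, sub_add_cancel]
  have hgf : ∀ x, g (f x) = x := by
    intro x
    apply G_ext
    · change -J σ (J σ x.1) = x.1
      rw [J_J hσ, neg_neg]
    · intro k r
      change σ (σ (x.2 k (r + 1 - 1))) = x.2 k r
      rw [hσ, add_sub_cancel_right]
  have hadd : ∀ x y, f (x + y) = f x + f y := by
    intro x y
    apply G_ext
    · change J σ (x.1 + y.1) = J σ x.1 + J σ y.1
      simp only [J, Prod.fst_add, Prod.snd_add, map_add]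
      ext
      · simp only [Prod.fst_add]; ring
      · simp only [Prod.snd_add]
    · intro k r
      change σ (x.2 k (r - 1) + y.2 k (r - 1)) = _
      rw [map_add]; rfl
  refine ⟨⟨⟨f, g, hgf, hfg⟩, hadd⟩, ?_, ?_⟩
  · intro x y
    change f ⁅x, y⁆ = ⁅f x, f y⁆
    apply G_ext
    · change J σ 0 = 0
      simp [J]
    · intro k r
      change σ (pr (wt σ om k (r - 1)) x.1 * y.2 k (r - 1) -
        pr (wt σ om k (r - 1)) y.1 * x.2 k (r - 1)) =
        pr (wt σ om k r) (J σ x.1) * σ (y.2 k (r - 1)) -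
          pr (wt σ om k r) (J σ y.1) * σ (x.2 k (r - 1))
      have hw : wt σ om k r = J σ (wt σ om k (r - 1)) := by
        have := orb_succ hσ (base om k) (r - 1)
        rw [sub_add_cancel] at this
        exact this
      rw [hw, pr_J, pr_J, map_sub, map_mul, map_mul]
  · intro c x
    change f (c • x) = σ c • f x
    apply G_ext
    · change J σ (c • x.1) = σ c • J σ x.1
      simp only [J, Prod.smul_fst, Prod.smul_snd, smul_eq_mul, map_mul]
      ext
      · simp only [Prod.smul_fst, smul_eq_mul]; ring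
      · simp only [Prod.smul_snd, smul_eq_mul]
    · intro k r
      change σ (c * x.2 k (r - 1)) = σ c * σ (x.2 k (r - 1))
      rw [map_mul]

/-! ### Rigidity -/

section rigid

variable {σ om}

/-- first weights -/
def A0 (E : Type*) [Field E] : Fin 4 → E × E := ![(1, 0), (0, 1), (-1, 0), (0, -1)]

/-- second weights -/
def A2 {E : Type*} [Field E] (om : E) : Fin 4 → E × E :=
  ![(1 + om, 1), (-1, 1 - om), (-1 - om, -1), (1, -1 + om)]

lemma wt0 (r : Fin 4) : wt σ om 0 r = A0 E r := by
  change orb σ (1, 0) r = _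
  unfold orb J A0
  fin_cases r <;> simp

lemma wt1 (r : Fin 4) : wt σ om 1 r = A0 E r := wt0 (σ := σ) (om := om) r

lemma wt2 (hom : σ om = -om) (r : Fin 4) : wt σ om 2 r = A2 om r := by
  change orb σ (1 + om, 1) r = _
  unfold orb J A2
  fin_cases r
  · simp
  · simp [hom, sub_eq_add_neg]
  · simp [sub_eq_add_neg, add_comm]
  · simp [hom, add_comm]

lemma A0_cases (r : Fin 4) : A0 E r = (1, 0) ∨ A0 E r = (0, 1) ∨ A0 E r = (-1, 0) ∨
    A0 E r = (0, -1) := by
  fin_cases r
  · exact Or.inl rfl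
  · exact Or.inr (Or.inl rfl)
  · exact Or.inr (Or.inr (Or.inl rfl))
  · exact Or.inr (Or.inr (Or.inr rfl))

lemma A2_cases (r : Fin 4) : A2 om r = (1 + om, 1) ∨ A2 om r = (-1, 1 - om) ∨
    A2 om r = (-1 - om, -1) ∨ A2 om r = (1, -1 + om) := by
  fin_cases r
  · exact Or.inl rfl
  · exact Or.inr (Or.inl rfl)
  · exact Or.inr (Or.inr (Or.inl rfl))
  · exact Or.inr (Or.inr (Or.inr rfl))

/-- nondegeneracy facts about `om` -/
lemma om_facts (hom : σ om = -om) (hne : om ≠ 0) (h2 : (2 : E) ≠ 0) :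
    om ≠ 1 ∧ om ≠ -1 ∧ om ≠ 2 ∧ om ≠ -2 := by
  have key : ∀ c : E, σ c = c → om ≠ c := by
    intro c hc h
    rw [h, hc] at hom
    have h1 : (2 : E) * om = 0 := by
      rw [h]
      have : (2 : E) * c = c + c := by ring
      rw [this]
      nth_rewrite 2 [hom]
      ring
    exact hne ((mul_eq_zero.1 h1).resolve_left h2)
  refine ⟨key 1 (map_one σ), key (-1) (by simp), key 2 (map_ofNat σ 2), key (-2) (by rw [map_neg, map_ofNat])⟩

/-- vectors of `V` -/
def vec (σ : E →+* E) (om : E) (v : Fin 3 → Fin 4 → E) : G σ om := (0, v)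

/-- vectors of `t` -/
def tor (σ : E →+* E) (om : E) (s : E × E) : G σ om := (s, 0)

/-- basis vectors of `V` -/
def del (σ : E →+* E) (om : E) (k : Fin 3) (r : Fin 4) : G σ om :=
  vec σ om (fun k' r' => if k' = k ∧ r' = r then 1 else 0)

lemma split (x : G σ om) : x = tor σ om x.1 + vec σ om x.2 := by
  apply G_ext
  · change x.1 = x.1 + 0
    rw [add_zero]
  · intro k r
    change x.2 k r = 0 + x.2 k r
    rw [zero_add]

set_option maxHeartbeats 4000000 in
/-- **Rigidity**: there is no semilinear involution preserving the bracket. -/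
theorem no_involution (hσ : ∀ x, σ (σ x) = x) (hom : σ om = -om) (hne : om ≠ 0)
    (h2 : (2 : E) ≠ 0) (τ : G σ om → G σ om) (hadd : ∀ x y, τ (x + y) = τ x + τ y)
    (hbr : ∀ x y, τ ⁅x, y⁆ = ⁅τ x, τ y⁆) (hsm : ∀ (c : E) x, τ (c • x) = σ c • τ x)
    (hinv : ∀ x, τ (τ x) = x) : False := by
  obtain ⟨o1, o2, o3, o4⟩ := om_facts hom hne h2
  have hτ0 : τ 0 = 0 := by
    have := hadd 0 0
    rw [add_zero] at this
    exact left_eq_add.1 this
  have hτne : ∀ x, x ≠ 0 → τ x ≠ 0 := by
    intro x hx h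
    apply hx
    rw [← hinv x, h, hτ0]
  -- (V)
  have hV : ∀ v, (τ (vec σ om v)).1 = 0 := by
    intro v
    have hpr : ∀ k r, pr (wt σ om k r) (1, 1) ≠ 0 := by
      intro k r
      have h0 : ∀ r, pr (A0 E r) (1, 1) ≠ 0 := by
        intro r
        rcases A0_cases (E := E) r with h | h | h | h <;> rw [h] <;> simp [pr]
      have h3 : ∀ r, pr (A2 om r) (1, 1) ≠ 0 := by
        intro r
        rcases A2_cases (om := om) r with h | h | h | h <;> rw [h] <;> simp only [pr, mul_one]
        · intro h5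
          exact o4 (by linear_combination h5)
        · intro h5
          exact hne (by linear_combination -h5)
        · intro h5
          exact o4 (by linear_combination -h5)
        · intro h5
          exact hne (by linear_combination h5)
      fin_cases k
      · change pr (wt σ om 0 r) (1, 1) ≠ 0
        rw [wt0]; exact h0 r
      · change pr (wt σ om 1 r) (1, 1) ≠ 0
        rw [wt1]; exact h0 r
      · change pr (wt σ om 2 r) (1, 1) ≠ 0
        rw [wt2 hom]; exact h3 r
    have he : vec σ om v = ⁅tor σ om (1, 1),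
        vec σ om (fun k r => v k r / pr (wt σ om k r) (1, 1))⁆ := by
      apply G_ext
      · rfl
      · intro k r
        change v k r = pr (wt σ om k r) (1, 1) * (v k r / pr (wt σ om k r) (1, 1)) -
          pr (wt σ om k r) 0 * (0 : E)
        rw [mul_div_cancel₀ _ (hpr k r), mul_zero, sub_zero]
    rw [he, hbr]
    rfl
  -- the induced map on t
  set A : E × E → E × E := fun s => (τ (tor σ om s)).1 with hA
  have hfst : ∀ x, (τ x).1 = A x.1 := by
    intro x
    conv_lhs => rw [split x, hadd]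
    rw [add_fst', hV, add_zero]
  have hAA : ∀ s, A (A s) = s := by
    intro s
    rw [← hfst (τ (tor σ om s)), hinv]
    rfl
  -- weight relation
  have hW : ∀ k r k' r', (τ (del σ om k r)).2 k' r' ≠ 0 → ∀ s,
      pr (wt σ om k' r') (A s) = σ (pr (wt σ om k r) s) := by
    intro k r k' r' hne' s
    have h1 : ⁅tor σ om s, del σ om k r⁆ = pr (wt σ om k r) s • del σ om k r := by
      apply G_ext
      · change (0 : E × E) = pr (wt σ om k r) s • (0 : E × E)
        rw [smul_zero]
      · intro k1 r1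
        change pr (wt σ om k1 r1) s * (if k1 = k ∧ r1 = r then (1 : E) else 0) -
          pr (wt σ om k1 r1) 0 * (0 : E) =
          pr (wt σ om k r) s * (if k1 = k ∧ r1 = r then (1 : E) else 0)
        by_cases h : k1 = k ∧ r1 = r
        · rw [h.1, h.2]; ring
        · rw [if_neg h]; ring
    have h3 := congrArg τ h1
    rw [hbr, hsm] at h3
    have h4 := congrFun (congrFun (congrArg Prod.snd h3) k') r'
    have h5 : pr (wt σ om k' r') (A s) * (τ (del σ om k r)).2 k' r' -
        pr (wt σ om k' r') (τ (del σ om k r)).1 * (τ (tor σ om s)).2 k' r' =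
        σ (pr (wt σ om k r) s) * (τ (del σ om k r)).2 k' r' := h4
    have h6 : (τ (del σ om k r)).1 = 0 := hV _
    rw [h6, pr_zero, zero_mul, sub_zero] at h5
    exact mul_right_cancel₀ hne' h5
  -- equality of weights
  have hEq : ∀ p q : E × E, (∀ s, pr p (A s) = pr q (A s)) → p = q := by
    intro p q h
    have h3 := h (A (1, 0))
    have h4 := h (A (0, 1))
    rw [hAA] at h3 h4
    simp only [pr, mul_one, mul_zero, add_zero, zero_add] at h3 h4
    exact Prod.ext h3 h4
  have hdel : ∀ k r, del σ om k r ≠ 0 := by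
    intro k r h
    have := congrFun (congrFun (congrArg Prod.snd h) k) r
    change (if k = k ∧ r = r then (1 : E) else 0) = 0 at this
    rw [if_pos ⟨rfl, rfl⟩] at this
    exact one_ne_zero this
  have hsupp : ∀ k r, ∃ k' r', (τ (del σ om k r)).2 k' r' ≠ 0 := by
    intro k r
    by_contra hcon
    push Not at hcon
    apply hτne _ (hdel k r)
    apply G_ext
    · exact hV _
    · intro k' r'
      exact hcon k' r'
  -- distinctness of weights
  have hd1 : ∀ r r', A0 E r ≠ A2 om r' := by
    intro r r'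
    rcases A0_cases (E := E) r with h | h | h | h <;>
    rcases A2_cases (om := om) r' with h' | h' | h' | h' <;> rw [h, h'] <;>
    intro h5 <;> rw [Prod.mk.injEq] at h5 <;> obtain ⟨h6, h7⟩ := h5 <;> grind
  have hd2 : ∀ r r', A2 om r = A2 om r' → r = r' := by
    intro r r' h
    fin_cases r <;> fin_cases r' <;> first | rfl | (exfalso; simp [A2] at h; grind)
  -- the weights of multiplicity two are preserved
  have hmult : ∀ r, ∃ r', ∀ s, pr (A0 E r') (A s) = σ (pr (A0 E r) s) := by
    intro r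
    by_contra hcon
    push Not at hcon
    have hno : ∀ k, (k = 0 ∨ k = 1) → ∀ k' r', (τ (del σ om k r)).2 k' r' ≠ 0 →
        k' = 2 ∧ ∀ s, pr (A2 om r') (A s) = σ (pr (A0 E r) s) := by
      intro k hk k' r' hne'
      have h1 := hW k r k' r' hne'
      have hk0 : wt σ om k r = A0 E r := by
        rcases hk with rfl | rfl
        · exact wt0 r
        · exact wt1 r
      rw [hk0] at h1
      have hk2 : k' = 2 := by
        by_contra hk2
        have h3 : wt σ om k' r' = A0 E r' := by
          fin_cases k'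
          · exact wt0 r'
          · exact wt1 r'
          · exact absurd rfl hk2
        rw [h3] at h1
        obtain ⟨s, hs⟩ := hcon r'
        exact hs (h1 s)
      subst hk2
      rw [wt2 hom] at h1
      exact ⟨rfl, h1⟩
    obtain ⟨k0, r0, h0⟩ := hsupp 0 r
    obtain ⟨rfl, hr0⟩ := hno 0 (Or.inl rfl) k0 r0 h0
    -- everything is supported at (2, r0)
    have hsup : ∀ k, (k = 0 ∨ k = 1) → ∀ k' r', ¬ (k' = 2 ∧ r' = r0) →
        (τ (del σ om k r)).2 k' r' = 0 := by
      intro k hk k' r' hne'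
      by_contra h
      obtain ⟨h3, h4⟩ := hno k hk k' r' h
      apply hne'
      refine ⟨h3, hd2 _ _ (hEq _ _ ?_)⟩
      intro s
      rw [h4, hr0]
    set c := (τ (del σ om 0 r)).2 2 r0 with hc
    set c' := (τ (del σ om 1 r)).2 2 r0 with hc'
    have hx : τ (σ c' • del σ om 0 r + (-σ c) • del σ om 1 r) = 0 := by
      rw [hadd, hsm, hsm, map_neg, hσ, hσ]
      apply G_ext
      · rw [add_fst', smul_fst', smul_fst']
        have e1 : (τ (del σ om 0 r)).1 = 0 := hV _
        have e2 : (τ (del σ om 1 r)).1 = 0 := hV _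
        rw [e1, e2, smul_zero, smul_zero, add_zero]
        rfl
      · intro k' r'
        rw [add_snd', smul_snd', smul_snd', zero_snd']
        by_cases h : k' = 2 ∧ r' = r0
        · rw [h.1, h.2, ← hc, ← hc']; ring
        · rw [hsup 0 (Or.inl rfl) k' r' h, hsup 1 (Or.inr rfl) k' r' h]; ring
    have hx0 : σ c' • del σ om 0 r + (-σ c) • del σ om 1 r = 0 := by
      by_contra h
      exact hτne _ h hx
    have h1 := congrFun (congrFun (congrArg Prod.snd hx0) 1) r
    have h3 : σ c' * (if (1 : Fin 3) = 0 ∧ r = r then (1 : E) else 0) +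
      (-σ c) * (if (1 : Fin 3) = 1 ∧ r = r then (1 : E) else 0) = 0 := h1
    simp at h3
    exact h0 h3
  -- the other weights
  obtain ⟨k3, r3, h3⟩ := hsupp 2 0
  have hμ := hW 2 0 k3 r3 h3
  have hμ2 : wt σ om k3 r3 = A0 E r3 ∨ wt σ om k3 r3 = A2 om r3 := by
    fin_cases k3
    · left; exact wt0 r3
    · left; exact wt1 r3
    · right; exact wt2 hom r3
  rw [wt2 hom 0] at hμ
  have hw0 : A2 om 0 = (1 + om, 1) := rfl
  rw [hw0] at hμ
  obtain ⟨ra, ha⟩ := hmult 0
  obtain ⟨rb, hb⟩ := hmult 1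
  have ha0 : A0 E 0 = (1, 0) := rfl
  have hb0 : A0 E 1 = (0, 1) := rfl
  rw [ha0] at ha
  rw [hb0] at hb
  -- evaluate at the two basis vectors
  have a1 := ha (1, 0)
  have a2 := ha (0, 1)
  have b1 := hb (1, 0)
  have b2 := hb (0, 1)
  have m1 := hμ (1, 0)
  have m2 := hμ (0, 1)
  have q1 := hAA (1, 0)
  simp only [pr, mul_one, mul_zero, add_zero, zero_add, map_one, map_zero, map_add] at a1 a2 b1 b2 m1 m2
  rw [hom] at m1
  have q2 := ha (A (1, 0))
  have q3 := hb (A (1, 0))
  rw [q1] at q2 q3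
  simp only [pr, mul_one, mul_zero, add_zero, zero_add, zero_mul, one_mul] at q2 q3
  set u := (A (1, 0)).1
  set v := (A (1, 0)).2
  set x := (A (0, 1)).1
  set y := (A (0, 1)).2
  have hz : ∀ z : E, (z = 0 → σ z = 0) ∧ (z = 1 → σ z = 1) ∧ (-z = 1 → -σ z = 1) := by
    intro z
    refine ⟨?_, ?_, ?_⟩
    · intro h; rw [h, map_zero]
    · intro h; rw [h, map_one]
    · intro h; rw [← map_neg, h, map_one]
  obtain ⟨hu1, hu2, hu3⟩ := hz u
  obtain ⟨hv1, hv2, hv3⟩ := hz v
  have hw : ∃ w1 w2 : E, w1 * u + w2 * v = 1 + -om ∧ w1 * x + w2 * y = 1 ∧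
      ((w1 = 1 ∧ w2 = 0) ∨ (w1 = 0 ∧ w2 = 1) ∨ (w1 = -1 ∧ w2 = 0) ∨ (w1 = 0 ∧ w2 = -1) ∨
       (w1 = 1 + om ∧ w2 = 1) ∨ (w1 = -1 ∧ w2 = 1 - om) ∨ (w1 = -1 - om ∧ w2 = -1) ∨
       (w1 = 1 ∧ w2 = -1 + om)) := by
    refine ⟨(wt σ om k3 r3).1, (wt σ om k3 r3).2, m1, m2, ?_⟩
    rcases hμ2 with h | h
    · rcases A0_cases (E := E) r3 with h' | h' | h' | h' <;> rw [h, h'] <;> simp
    · rcases A2_cases (om := om) r3 with h' | h' | h' | h' <;> rw [h, h'] <;> simp
  obtain ⟨w1, w2, n1, n2, hcase⟩ := hw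
  clear hmult hsupp hW hV hfst hAA hEq hd1 hd2 hdel hμ hμ2 ha hb m1 m2 q1 hz h3 hadd hbr hsm hinv hτ0 hτne
  rcases A0_cases (E := E) ra with h | h | h | h <;> rw [h] at a1 a2 q2 <;>
  rcases A0_cases (E := E) rb with h' | h' | h' | h' <;> rw [h'] at b1 b2 q3 <;>
  simp only [zero_mul, one_mul, zero_add, add_zero, neg_mul] at a1 a2 b1 b2 q2 q3 <;>
  clear h h' <;>
  rcases hcase with ⟨rfl, rfl⟩ | ⟨rfl, rfl⟩ | ⟨rfl, rfl⟩ | ⟨rfl, rfl⟩ | ⟨rfl, rfl⟩ |
    ⟨rfl, rfl⟩ | ⟨rfl, rfl⟩ | ⟨rfl, rfl⟩ <;>
  grind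

end rigid

/-! ### Forms over the base field -/

section forms

open TensorProduct

variable {F : Type*} [Field F] [Algebra F E]

/-- the algebra has no form over the fixed field of the involution -/
theorem no_form (s : E ≃ₐ[F] E) (hs : ∀ x, s (s x) = x) (om : E) (hom : s om = -om)
    (hne : om ≠ 0) (h2 : (2 : E) ≠ 0) (h : Type*) [LieRing h] [LieAlgebra F h] :
    IsEmpty (E ⊗[F] h ≃ₗ⁅E⁆ G (s : E →+* E) om) := by
  refine ⟨fun e => ?_⟩
  set τ0 : E ⊗[F] h →ₗ[F] E ⊗[F] h := LinearMap.rTensor h s.toLinearMap with hτ0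
  have htm : ∀ (a : E) (x : h), τ0 (a ⊗ₜ[F] x) = s a ⊗ₜ[F] x := fun a x => rfl
  have hinv : ∀ z, τ0 (τ0 z) = z := by
    intro z
    induction z using TensorProduct.induction_on with
    | zero => rw [map_zero, map_zero]
    | tmul a x => rw [htm, htm, hs]
    | add x y hx hy => rw [map_add, map_add, hx, hy]
  have hsm : ∀ (c : E) (z : E ⊗[F] h), τ0 (c • z) = s c • τ0 z := by
    intro c z
    induction z using TensorProduct.induction_on with
    | zero => rw [smul_zero, map_zero, smul_zero]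
    | tmul a x => rw [TensorProduct.smul_tmul', htm, htm, TensorProduct.smul_tmul', smul_eq_mul,
        smul_eq_mul, map_mul]
    | add x y hx hy => rw [smul_add, map_add, hx, hy, map_add, smul_add]
  have hbr : ∀ z w, τ0 ⁅z, w⁆ = ⁅τ0 z, τ0 w⁆ := by
    intro z w
    induction z using TensorProduct.induction_on with
    | zero => rw [zero_lie, map_zero, zero_lie]
    | tmul a x =>
      induction w using TensorProduct.induction_on with
      | zero => rw [lie_zero, map_zero, lie_zero]
      | tmul b y =>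
        rw [LieAlgebra.ExtendScalars.bracket_tmul, htm, htm, htm,
          LieAlgebra.ExtendScalars.bracket_tmul, map_mul]
      | add x' y' hx hy => rw [lie_add, map_add, hx, hy, map_add, lie_add]
    | add x' y' hx hy => rw [add_lie, map_add, hx, hy, map_add, add_lie]
  refine no_involution (σ := (s : E →+* E)) (om := om) hs hom hne h2
    (fun x => e (τ0 (e.symm x))) ?_ ?_ ?_ ?_
  · intro x y
    simp only [map_add]
  · intro x y
    rw [LieEquiv.map_lie, hbr, LieEquiv.map_lie]
  · intro c x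
    have e1 : e.symm (c • x) = c • e.symm x := e.symm.toLinearEquiv.map_smul c x
    have e2 : e (s c • τ0 (e.symm x)) = s c • e (τ0 (e.symm x)) :=
      e.toLinearEquiv.map_smul _ _
    change e (τ0 (e.symm (c • x))) = _
    rw [e1, hsm, e2]
    rfl
  · intro x
    simp only [LieEquiv.symm_apply_apply, hinv, LieEquiv.apply_symm_apply]

/-- **Main theorem.** Over every quadratic Galois extension in characteristic not two. -/
theorem main.{u, v, w} (F : Type u) (E : Type v) [Field F] [Field E] [Algebra F E] [IsGalois F E]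
    (hfr : Module.finrank F E = 2) (h2 : (2 : F) ≠ 0) :
    ∃ (g : Type v) (_ : LieRing g) (_ : LieAlgebra E g), Module.Finite E g ∧
      (∀ s : E ≃ₐ[F] E, ConjIso (s : E →+* E) g) ∧
      ¬ ∃ (h : Type w) (_ : LieRing h) (_ : LieAlgebra F h), Nonempty (E ⊗[F] h ≃ₗ⁅E⁆ g) := by
  have : FiniteDimensional F E := Module.finite_of_finrank_pos (by rw [hfr]; norm_num)
  have hcard : Nat.card (E ≃ₐ[F] E) = 2 := by
    rw [IsGalois.card_aut_eq_finrank, hfr]
  obtain ⟨s, hs1⟩ : ∃ s : E ≃ₐ[F] E, s ≠ 1 := by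
    by_contra hcon
    push Not at hcon
    have : Subsingleton (E ≃ₐ[F] E) := ⟨fun a b => by rw [hcon a, hcon b]⟩
    rw [Nat.card_of_subsingleton (1 : E ≃ₐ[F] E)] at hcard
    norm_num at hcard
  have hall : ∀ t : E ≃ₐ[F] E, t = 1 ∨ t = s := by
    intro t
    obtain ⟨a, b, hab, huniv⟩ := Nat.card_eq_two_iff.1 hcard
    have h1 : (1 : E ≃ₐ[F] E) ∈ ({a, b} : Set _) := by rw [huniv]; trivial
    have h3 : s ∈ ({a, b} : Set _) := by rw [huniv]; trivial
    have h4 : t ∈ ({a, b} : Set _) := by rw [huniv]; trivial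
    simp only [Set.mem_insert_iff, Set.mem_singleton_iff] at h1 h3 h4
    rcases h1 with h1 | h1 <;> rcases h3 with h3 | h3 <;> rcases h4 with h4 | h4
    · exact absurd (h3.trans h1.symm) hs1
    · exact absurd (h3.trans h1.symm) hs1
    · left; rw [h4, h1]
    · right; rw [h4, h3]
    · right; rw [h4, h3]
    · left; rw [h4, h1]
    · exact absurd (h3.trans h1.symm) hs1
    · exact absurd (h3.trans h1.symm) hs1
  have hss : ∀ x, s (s x) = x := by
    have : s * s = 1 := by
      rcases hall (s * s) with h | h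
      · exact h
      · exact absurd (mul_eq_left.1 h) hs1
    intro x
    have h3 := congrArg (fun t : E ≃ₐ[F] E => t x) this
    exact h3
  obtain ⟨x, hx⟩ : ∃ x, s x ≠ x := by
    by_contra hcon
    push Not at hcon
    exact hs1 (AlgEquiv.ext hcon)
  have h2' : (2 : E) ≠ 0 := by
    intro h
    apply h2
    have : algebraMap F E 2 = 0 := by rw [map_ofNat, h]
    exact (map_eq_zero_iff _ (algebraMap F E).injective).1 this
  refine ⟨G (s : E →+* E) (x - s x), inferInstance, inferInstance, inferInstance, ?_, ?_⟩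
  · intro t
    rcases hall t with rfl | rfl
    · exact ⟨AddEquiv.refl _, fun _ _ => rfl, fun _ _ => rfl⟩
    · exact conjIso _ _ hss
  · rintro ⟨h, i1, i2, ⟨e⟩⟩
    refine (no_form s hss (x - s x) ?_ ?_ h2' h).false e
    · rw [map_sub, hss]; ring
    · intro h0
      exact hx (sub_eq_zero.1 h0).symm

end forms

end Q35.Conj
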