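import Mathlib

/-!
# Algebra for a planar field with a limit cycle

In coordinates `u, v` the field is `(Re G, b(v) Im G)`, `w = u + i v`,
`G(w) = i (1 - g w^2) (w + ε w^2 + conj ε)`, `ε = (1 - i)/4`.  The unit circle is invariant.
-/

namespace Q35.LC

/-- the small parameter -/
noncomputable def g : ℝ := 1 / 10003

lemma g_val : g = 1 / 10003 := rfl

/-- real part of `w + ε w^2 + conj ε` -/
noncomputable def K1 (u v : ℝ) : ℝ := u + (u ^ 2 - v ^ 2 + 2 * u * v) / 4 + 1 / 4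

/-- imaginary part of `w + ε w^2 + conj ε` -/
noncomputable def K2 (u v : ℝ) : ℝ := v + (v ^ 2 - u ^ 2 + 2 * u * v) / 4 + 1 / 4

/-- real part of `G` -/
noncomputable def Gr (u v : ℝ) : ℝ :=
  -((1 - g * (u ^ 2 - v ^ 2)) * K2 u v + (-2 * g * u * v) * K1 u v)

/-- imaginary part of `G` -/
noncomputable def Gi (u v : ℝ) : ℝ :=
  (1 - g * (u ^ 2 - v ^ 2)) * K1 u v - (-2 * g * u * v) * K2 u v

noncomputable def At (v : ℝ) : ℝ := 1 - g + 4 * g * v ^ 2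

noncomputable def Bt (v : ℝ) : ℝ := 1 - 3 * g + 4 * g * v ^ 2

noncomputable def b (v : ℝ) : ℝ := Bt v / At v

lemma At_pos (v : ℝ) : 0 < At v := by
  unfold At; rw [g_val]; nlinarith [sq_nonneg v]

lemma Bt_pos (v : ℝ) : 0 < Bt v := by
  unfold Bt; rw [g_val]; nlinarith [sq_nonneg v]

lemma b_mul (v : ℝ) : b v * At v = Bt v := div_mul_cancel₀ _ (At_pos v).ne'

noncomputable def H (u v : ℝ) : ℝ :=
  (1/2)*v + (-1/2)*u + (-3/2)*g*v + (1/2)*g*u + (-4)*g*u*v + (5/2)*g*v^3 + (-7/2)*g*u*v^2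
   + (-3/2)*g*u^2*v + (1/2)*g*u^3 + (-3/2)*g^2*v^3 + (-5/2)*g^2*u*v^2 + (1/2)*g^2*u^2*v
   + (-1/2)*g^2*u^3 + (-16)*g^2*u*v^3 + (2)*g^2*v^5 + (-6)*g^2*u*v^4 + (-6)*g^2*u^2*v^3
   + (2)*g^2*u^3*v^2

lemma keyPoly (u v : ℝ) : 2 * (u * At v * Gr u v + v * Bt v * Gi u v) =
    (1 - (u ^ 2 + v ^ 2)) * H u v := by
  unfold At Bt Gr Gi K1 K2 H
  ring

lemma key (u v : ℝ) : 2 * (u * Gr u v + v * (b v * Gi u v)) =
    (1 - (u ^ 2 + v ^ 2)) * (H u v / At v) := by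
  have h := keyPoly u v
  have hA := (At_pos v).ne'
  have hb := b_mul v
  rw [← hb] at h
  rw [mul_div_assoc', eq_div_iff hA, ← h]
  ring

noncomputable def R (u v : ℝ) : ℝ := 1 + (u + v) / 2

noncomputable def P (s : ℝ) : ℝ := -3/4 - 7/8 * s + 3/8 * s ^ 2 - 1/6 * s ^ 3

noncomputable def P' (s : ℝ) : ℝ := -7/8 + 3/4 * s - 1/2 * s ^ 2

noncomputable def T (u v : ℝ) : ℝ := (v - u) * P (u + v)

noncomputable def Tu (u v : ℝ) : ℝ := -P (u + v) + (v - u) * P' (u + v)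

noncomputable def Tv (u v : ℝ) : ℝ := P (u + v) + (v - u) * P' (u + v)

/-- derivative of `R` along the flow -/
noncomputable def Rd (u v : ℝ) : ℝ := (Gr u v + b v * Gi u v) / 2

/-- derivative of `T` along the flow -/
noncomputable def Td (u v : ℝ) : ℝ := Tu u v * Gr u v + Tv u v * (b v * Gi u v)

noncomputable def Psi (u v : ℝ) : ℝ :=
  (H u v / At v + Rd u v / R u v) * (1 + g * T u v) - g * Td u v

lemma Gr_circle {u v : ℝ} (h : u ^ 2 + v ^ 2 = 1) : Gr u v = -v * R u v * Bt v := by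
  have hu : u ^ 2 = 1 - v ^ 2 := by linarith
  have h3 : u ^ 3 = u * (1 - v ^ 2) := by rw [← hu]; ring
  have h4 : u ^ 4 = (1 - v ^ 2) ^ 2 := by rw [← hu]; ring
  unfold Gr K1 K2 R Bt
  ring_nf
  rw [hu, h3, h4]
  ring

lemma Gi_circle {u v : ℝ} (h : u ^ 2 + v ^ 2 = 1) : Gi u v = u * R u v * At v := by
  have hu : u ^ 2 = 1 - v ^ 2 := by linarith
  have h3 : u ^ 3 = u * (1 - v ^ 2) := by rw [← hu]; ring
  have h4 : u ^ 4 = (1 - v ^ 2) ^ 2 := by rw [← hu]; ring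
  unfold Gi K1 K2 R At
  ring_nf
  rw [hu, h3, h4]
  ring

lemma H_circle {u v : ℝ} (h : u ^ 2 + v ^ 2 = 1) : H u v =
    2 * (R u v * u * v * g * (Bt v - 3 * At v) +
      (v - u) / 4 * (u ^ 2 * At v ^ 2 + v ^ 2 * Bt v ^ 2)) := by
  have hu : u ^ 2 = 1 - v ^ 2 := by linarith
  have h3 : u ^ 3 = u * (1 - v ^ 2) := by rw [← hu]; ring
  have h4 : u ^ 4 = (1 - v ^ 2) ^ 2 := by rw [← hu]; ring
  unfold H R At Bt
  ring_nf
  simp only [hu, h3, h4]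
  ring

lemma R_pos_circle {u v : ℝ} (h : u ^ 2 + v ^ 2 = 1) : 0 < R u v := by
  unfold R
  nlinarith [sq_nonneg (u - v), sq_nonneg (u + v + 2), sq_nonneg (u + v)]

end Q35.LC
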