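import Mathlib

/-!
# Solutions of `φ' = ω(φ)` for a positive periodic `ω`
-/

open Real Filter Topology

namespace Q35.LC

/-- For a continuous positive `2π`-periodic `ω` there is a surjective solution `φ` of
`φ' = ω(φ)` with `φ(t + T) = φ(t) + 2π`. -/
theorem exists_phi (ω : ℝ → ℝ) (hω : Continuous ω) (hpos : ∀ x, 0 < ω x)
    (hper : Function.Periodic ω (2 * π)) :
    ∃ φ : ℝ → ℝ, ∃ T > 0, Function.Surjective φ ∧ (∀ t, HasDerivAt φ (ω (φ t)) t) ∧
      ∀ t, φ (t + T) = φ t + 2 * π := by
  set f : ℝ → ℝ := fun x => (ω x)⁻¹ with hf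
  have hfc : Continuous f := hω.inv₀ fun x => (hpos x).ne'
  have hfpos : ∀ x, 0 < f x := fun x => inv_pos.2 (hpos x)
  have hfper : Function.Periodic f (2 * π) := fun x => by
    simp only [hf]; rw [hper x]
  -- lower bound
  obtain ⟨m, hm, hmf⟩ : ∃ m > 0, ∀ x, m ≤ f x := by
    obtain ⟨x0, _, hx0⟩ := (isCompact_Icc (a := (0 : ℝ)) (b := 2 * π)).exists_isMinOn
      ⟨0, by constructor <;> positivity⟩ hfc.continuousOn
    refine ⟨f x0, hfpos x0, fun x => ?_⟩
    obtain ⟨y, hy, hxy⟩ := hfper.exists_mem_Ico₀ two_pi_pos x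
    rw [hxy]
    exact hx0 ⟨hy.1, hy.2.le⟩
  set Φ : ℝ → ℝ := fun x => ∫ y in (0 : ℝ)..x, f y with hΦ
  have hint : ∀ a b, IntervalIntegrable f MeasureTheory.volume a b := fun a b =>
    hfc.intervalIntegrable a b
  have hder : ∀ x, HasDerivAt Φ (f x) x := fun x =>
    intervalIntegral.integral_hasDerivAt_right (hint 0 x)
      (hfc.stronglyMeasurableAtFilter _ _) hfc.continuousAt
  have hcont : Continuous Φ := continuous_iff_continuousAt.2 fun x => (hder x).continuousAt
  have hmono : StrictMono Φ := strictMono_of_deriv_pos fun x => by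
    rw [(hder x).deriv]; exact hfpos x
  -- growth
  have hd : ∀ x, HasDerivAt (fun x => Φ x - m * x) (f x - m) x := fun x => by
    have h1 : HasDerivAt (fun x : ℝ => m * x) m x := by
      simpa using (hasDerivAt_id x).const_mul m
    exact (hder x).sub h1
  have hgrow : Monotone fun x => Φ x - m * x := by
    apply monotone_of_deriv_nonneg
    · intro x
      exact (hd x).differentiableAt
    · intro x
      rw [(hd x).deriv]
      have := hmf x
      linarith
  have hΦ0 : Φ 0 = 0 := by simp [hΦ]
  have htop : Tendsto Φ atTop atTop := by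
    apply tendsto_atTop_mono' _ _ (tendsto_id.const_mul_atTop hm)
    filter_upwards [eventually_ge_atTop (0 : ℝ)] with x hx
    have := hgrow hx
    simp only [hΦ0, mul_zero, sub_zero] at this
    simp only [id]
    linarith
  have hbot : Tendsto Φ atBot atBot := by
    apply tendsto_atBot_mono' _ _ (tendsto_id.const_mul_atBot hm)
    filter_upwards [eventually_le_atBot (0 : ℝ)] with x hx
    have := hgrow hx
    simp only [hΦ0, mul_zero, sub_zero] at this
    simp only [id]
    linarith
  have hsurj : Function.Surjective Φ := hcont.surjective htop hbot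
  let e := hmono.orderIsoOfSurjective Φ hsurj
  have heΦ : ∀ x, e x = Φ x := fun x => rfl
  have hc : Continuous e.symm := e.symm.continuous
  have hΦe : ∀ t, Φ (e.symm t) = t := fun t => e.apply_symm_apply t
  refine ⟨e.symm, Φ (2 * π), ?_, e.symm.surjective, ?_, ?_⟩
  · rw [← hΦ0]
    exact hmono two_pi_pos
  · intro t
    have h := HasDerivAt.of_local_left_inverse (f := Φ) (g := e.symm) (f' := f (e.symm t))
      (a := t) hc.continuousAt (hder _) (hfpos _).ne' (Eventually.of_forall hΦe)
    simpa [hf] using h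
  · intro t
    apply e.injective
    rw [e.apply_symm_apply, heΦ]
    have h1 : Φ (e.symm t + 2 * π) = Φ (e.symm t) + ∫ y in (e.symm t)..(e.symm t + 2 * π), f y := by
      simp only [hΦ]
      rw [intervalIntegral.integral_add_adjacent_intervals (hint _ _) (hint _ _)]
    rw [h1, hΦe, hfper.intervalIntegral_add_eq (e.symm t) 0, zero_add]

end Q35.LC
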