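import Pool.Agent.Q35.LCPos
import Pool.Agent.Q35.LCPhi

/-!
# A real-analytic planar field with orthogonal Jacobian columns and a limit cycle
-/

open Real Filter Topology Set

namespace Q35.LC

/-! ### Definitions -/

/-- `γ` is a periodic solution (possibly constant) of `x' = P(x,y)`, `y' = Q(x,y)`. -/
def IsPeriodicSolution (P Q : ℝ → ℝ → ℝ) (γ : ℝ → ℝ × ℝ) : Prop :=
  (∀ t, HasDerivAt γ (P (γ t).1 (γ t).2, Q (γ t).1 (γ t).2) t) ∧
    ∃ T > 0, Function.Periodic γ T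

/-- `γ` is a limit cycle: a non-constant periodic solution whose orbit has a neighbourhood that
contains no other periodic orbit. -/
def IsLimitCycle (P Q : ℝ → ℝ → ℝ) (γ : ℝ → ℝ × ℝ) : Prop :=
  IsPeriodicSolution P Q γ ∧ (∃ s t, γ s ≠ γ t) ∧
    ∃ U : Set (ℝ × ℝ), IsOpen U ∧ range γ ⊆ U ∧
      ∀ δ, IsPeriodicSolution P Q δ → range δ ⊆ U → range δ = range γ

/-! ### The coordinate change -/

/-- `Y' = 1/b` -/
noncomputable def Yf (v : ℝ) : ℝ := v + arctan (v / 50) / 100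

lemma Yf_deriv (v : ℝ) : HasDerivAt Yf (At v / Bt v) v := by
  have h1 : HasDerivAt (fun v : ℝ => v / 50) (1 / 50) v := (hasDerivAt_id v).div_const 50
  have h2 := (hasDerivAt_id v).add ((h1.arctan).div_const 100)
  have h3 : HasDerivAt Yf (1 + 1 / (1 + (v / 50) ^ 2) * (1 / 50) / 100) v := h2
  convert h3 using 1
  unfold At Bt
  rw [g_val]
  have : (0:ℝ) < 2500 + v ^ 2 := by positivity
  field_simp
  ring

lemma Yf_smooth {n : WithTop ℕ∞} : ContDiff ℝ n Yf := by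
  unfold Yf
  have : ContDiff ℝ n (fun v : ℝ => v / 50) := contDiff_id.div_const 50
  exact contDiff_id.add ((contDiff_arctan.comp this).div_const 100)

lemma Yf_cont : Continuous Yf := continuous_iff_continuousAt.2 fun x => (Yf_deriv x).continuousAt

lemma Yf_mono : StrictMono Yf := strictMono_of_deriv_pos fun x => by
  rw [(Yf_deriv x).deriv]; exact div_pos (At_pos x) (Bt_pos x)

lemma Yf_surj : Function.Surjective Yf := by
  apply Yf_cont.surjective
  · apply tendsto_atTop_mono (f := fun x => x - 1)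
    · intro x
      unfold Yf
      have := neg_pi_div_two_lt_arctan (x / 50)
      have := pi_lt_four
      linarith
    · exact tendsto_atTop_add_const_right _ _ tendsto_id
  · have hle : ∀ x, Yf x ≤ x + 1 := by
      intro x
      unfold Yf
      have := arctan_lt_pi_div_two (x / 50)
      have := pi_lt_four
      linarith
    exact tendsto_atBot_mono hle (tendsto_atBot_add_const_right _ _ tendsto_id)

/-- `Y` as a homeomorphism of the line -/
noncomputable def Yh : ℝ ≃ₜ ℝ := (Yf_mono.orderIsoOfSurjective Yf Yf_surj).toHomeomorph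

lemma Yh_apply (v : ℝ) : Yh v = Yf v := rfl

/-- the inverse of `Y` -/
noncomputable def β (y : ℝ) : ℝ := Yh.symm y

lemma Yf_β (y : ℝ) : Yf (β y) = y := Yh.apply_symm_apply y

lemma β_Yf (v : ℝ) : β (Yf v) = v := Yh.symm_apply_apply v

lemma β_smooth {n : WithTop ℕ∞} : ContDiff ℝ n β :=
  Yh.contDiff_symm_deriv (f' := fun v => At v / Bt v)
    (fun v => (div_pos (At_pos v) (Bt_pos v)).ne') Yf_deriv Yf_smooth

lemma β_cont : Continuous β := Yh.symm.continuous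

lemma β_deriv (y : ℝ) : HasDerivAt β (b (β y)) y := by
  have h := HasDerivAt.of_local_left_inverse (f := Yf) (g := β) (f' := At (β y) / Bt (β y))
    (a := y) β_cont.continuousAt (Yf_deriv _) (div_pos (At_pos _) (Bt_pos _)).ne'
    (Eventually.of_forall Yf_β)
  rwa [inv_div] at h

/-! ### The field -/

noncomputable def Pf (x y : ℝ) : ℝ := Gr x (β y)

noncomputable def Qf (x y : ℝ) : ℝ := Gi x (β y)

lemma Gr_smooth {n : WithTop ℕ∞} : ContDiff ℝ n (fun z : ℝ × ℝ => Gr z.1 z.2) := by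
  unfold Gr K1 K2
  fun_prop

lemma Gi_smooth {n : WithTop ℕ∞} : ContDiff ℝ n (fun z : ℝ × ℝ => Gi z.1 z.2) := by
  unfold Gi K1 K2
  fun_prop

lemma Pf_smooth {n : WithTop ℕ∞} : ContDiff ℝ n (fun z : ℝ × ℝ => Pf z.1 z.2) :=
  Gr_smooth.comp (contDiff_fst.prodMk (β_smooth.comp contDiff_snd))

lemma Qf_smooth {n : WithTop ℕ∞} : ContDiff ℝ n (fun z : ℝ × ℝ => Qf z.1 z.2) :=
  Gi_smooth.comp (contDiff_fst.prodMk (β_smooth.comp contDiff_snd))

lemma quartic_deriv (c0 c1 c2 c3 c4 x : ℝ) :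
    HasDerivAt (fun u : ℝ => c0 + c1 * u + c2 * u ^ 2 + c3 * u ^ 3 + c4 * u ^ 4)
      (c1 + 2 * c2 * x + 3 * c3 * x ^ 2 + 4 * c4 * x ^ 3) x := by
  have h1 := (hasDerivAt_id x).const_mul c1
  have h2 := ((hasDerivAt_id x).pow 2).const_mul c2
  have h3 := ((hasDerivAt_id x).pow 3).const_mul c3
  have h4 := ((hasDerivAt_id x).pow 4).const_mul c4
  have h : HasDerivAt (fun u : ℝ => c0 + c1 * u + c2 * u ^ 2 + c3 * u ^ 3 + c4 * u ^ 4) _ x :=
    (((h1.const_add c0).add h2).add h3).add h4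
  refine h.congr_deriv ?_
  norm_num
  ring

lemma Gr_u (u v : ℝ) : HasDerivAt (fun u => Gr u v)
    ((-1/2*v + 1/2*v*g - v^3*g) + 2*(1/4 + 1/4*g + 3*v*g + 3/2*v^2*g)*u + 3*(v*g)*u^2
      + 4*(-1/4*g)*u^3) u := by
  have h := quartic_deriv (-1/4 - v - 1/4*v^2 - 1/4*v^2*g - v^3*g - 1/4*v^4*g)
    (-1/2*v + 1/2*v*g - v^3*g) (1/4 + 1/4*g + 3*v*g + 3/2*v^2*g) (v*g) (-1/4*g) u
  convert h using 1
  funext u
  unfold Gr K1 K2
  ring

lemma Gr_v (u v : ℝ) : HasDerivAt (fun v => Gr u v)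
    ((-1 - 1/2*u + 1/2*u*g + 3*u^2*g + u^3*g) + 2*(-1/4 - 1/4*g + 3/2*u^2*g)*v
      + 3*(-g - u*g)*v^2 + 4*(-1/4*g)*v^3) v := by
  have h := quartic_deriv (-1/4 + 1/4*u^2 + 1/4*u^2*g - 1/4*u^4*g)
    (-1 - 1/2*u + 1/2*u*g + 3*u^2*g + u^3*g) (-1/4 - 1/4*g + 3/2*u^2*g) (-g - u*g) (-1/4*g) v
  convert h using 1
  funext v
  unfold Gr K1 K2
  ring

lemma Gi_u (u v : ℝ) : HasDerivAt (fun u => Gi u v)
    ((1 + 1/2*v + 1/2*v*g + 3*v^2*g + v^3*g) + 2*(1/4 - 1/4*g + 3/2*v^2*g)*u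
      + 3*(-g - v*g)*u^2 + 4*(-1/4*g)*u^3) u := by
  have h := quartic_deriv (1/4 - 1/4*v^2 + 1/4*v^2*g - 1/4*v^4*g)
    (1 + 1/2*v + 1/2*v*g + 3*v^2*g + v^3*g) (1/4 - 1/4*g + 3/2*v^2*g) (-g - v*g) (-1/4*g) u
  convert h using 1
  funext u
  unfold Gi K1 K2
  ring

lemma Gi_v (u v : ℝ) : HasDerivAt (fun v => Gi u v)
    ((1/2*u + 1/2*u*g - u^3*g) + 2*(-1/4 + 1/4*g + 3*u*g + 3/2*u^2*g)*v + 3*(u*g)*v^2
      + 4*(-1/4*g)*v^3) v := by
  have h := quartic_deriv (1/4 + u + 1/4*u^2 - 1/4*u^2*g - u^3*g - 1/4*u^4*g)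
    (1/2*u + 1/2*u*g - u^3*g) (-1/4 + 1/4*g + 3*u*g + 3/2*u^2*g) (u*g) (-1/4*g) v
  convert h using 1
  funext v
  unfold Gi K1 K2
  ring

lemma orth (x y : ℝ) : deriv (fun s => Pf s y) x * deriv (fun s => Pf x s) y +
    deriv (fun s => Qf s y) x * deriv (fun s => Qf x s) y = 0 := by
  have h1 : deriv (fun s => Pf s y) x = _ := (Gr_u x (β y)).deriv
  have h2 : deriv (fun s => Pf x s) y = _ := ((Gr_v x (β y)).comp y (β_deriv y)).deriv
  have h3 : deriv (fun s => Qf s y) x = _ := (Gi_u x (β y)).deriv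
  have h4 : deriv (fun s => Qf x s) y = _ := ((Gi_v x (β y)).comp y (β_deriv y)).deriv
  rw [h1, h2, h3, h4]
  ring

/-! ### The Lyapunov function -/

/-- `Psi R`, without division by `R` -/
noncomputable def Psi2 (u v : ℝ) : ℝ :=
  (H u v / At v * R u v + Rd u v) * (1 + g * T u v) - g * Td u v * R u v

lemma Psi2_eq {u v : ℝ} (hR : 0 < R u v) : Psi2 u v = Psi u v * R u v := by
  unfold Psi2 Psi
  have := hR.ne'
  field_simp

lemma P_deriv (s : ℝ) : HasDerivAt P (P' s) s := by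
  have h := quartic_deriv (-3/4) (-7/8) (3/8) (-1/6) 0 s
  convert h using 1
  · funext s; unfold P; ring
  · unfold P'; ring

lemma lyap {x v : ℝ → ℝ} {t : ℝ} (hx : HasDerivAt x (Gr (x t) (v t)) t)
    (hv : HasDerivAt v (b (v t) * Gi (x t) (v t)) t) (hR : R (x t) (v t) ≠ 0) :
    HasDerivAt (fun t => ((x t ^ 2 + v t ^ 2 - 1) * (1 + g * T (x t) (v t)) / R (x t) (v t)))
      (-((x t ^ 2 + v t ^ 2 - 1) * Psi2 (x t) (v t) / R (x t) (v t) ^ 2)) t := by
  have hkey := key (x t) (v t)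
  have hR1 : HasDerivAt (fun t => R (x t) (v t)) (Rd (x t) (v t)) t := by
    have := ((hx.add hv).div_const 2).const_add 1
    exact this
  have hs : HasDerivAt (fun t => x t + v t) (Gr (x t) (v t) + b (v t) * Gi (x t) (v t)) t :=
    hx.add hv
  have hd : HasDerivAt (fun t => v t - x t) (b (v t) * Gi (x t) (v t) - Gr (x t) (v t)) t :=
    hv.sub hx
  have hT : HasDerivAt (fun t => T (x t) (v t)) (Td (x t) (v t)) t := by
    have hP : HasDerivAt (fun t => P (x t + v t))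
        (P' (x t + v t) * (Gr (x t) (v t) + b (v t) * Gi (x t) (v t))) t :=
      HasDerivAt.comp (h := fun t => x t + v t) (h₂ := P) t (P_deriv (x t + v t)) hs
    have h : HasDerivAt (fun t => T (x t) (v t)) _ t := hd.mul hP
    refine h.congr_deriv ?_
    unfold Td Tu Tv
    ring
  have hV : HasDerivAt (fun t => x t ^ 2 + v t ^ 2 - 1)
      ((1 - (x t ^ 2 + v t ^ 2)) * (H (x t) (v t) / At (v t))) t := by
    have h : HasDerivAt (fun t => x t ^ 2 + v t ^ 2 - 1) _ t :=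
      ((hx.pow 2).add (hv.pow 2)).sub_const 1
    refine h.congr_deriv ?_
    rw [← hkey]
    norm_num
    ring
  have h : HasDerivAt
      (fun t => ((x t ^ 2 + v t ^ 2 - 1) * (1 + g * T (x t) (v t)) / R (x t) (v t))) _ t :=
    (hV.mul ((hT.const_mul g).const_add 1)).div hR1 hR
  refine h.congr_deriv ?_
  unfold Psi2
  have hA := (At_pos (v t)).ne'
  simp only [Pi.mul_apply]
  field_simp
  ring

/-! ### The orbit and the neighbourhood -/

lemma T_circle_bound {u v : ℝ} (h : u ^ 2 + v ^ 2 = 1) : 0 < 1 + g * T u v := by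
  have hu : |u| ≤ 1 := by
    rw [← sq_le_one_iff_abs_le_one]; nlinarith [sq_nonneg v]
  have hv : |v| ≤ 1 := by
    rw [← sq_le_one_iff_abs_le_one]; nlinarith [sq_nonneg u]
  have hs : |u + v| ≤ 2 := (abs_add_le _ _).trans (by linarith)
  have hd : |v - u| ≤ 2 := (abs_sub _ _).trans (by linarith)
  have hP : |P (u + v)| ≤ 10 := by
    rw [abs_le] at hs ⊢
    unfold P
    generalize u + v = s at hs
    constructor <;> nlinarith [hs.1, hs.2, mul_nonneg (sub_nonneg.2 hs.1) (sub_nonneg.2 hs.2),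
      mul_nonneg (mul_nonneg (sub_nonneg.2 hs.1) (sub_nonneg.2 hs.2)) (sub_nonneg.2 hs.1),
      mul_nonneg (mul_nonneg (sub_nonneg.2 hs.1) (sub_nonneg.2 hs.2)) (sub_nonneg.2 hs.2)]
  have hT : |T u v| ≤ 20 := by
    unfold T
    rw [abs_mul]
    calc |v - u| * |P (u + v)| ≤ 2 * 10 := mul_le_mul hd hP (abs_nonneg _) (by norm_num)
      _ = 20 := by norm_num
  have := (abs_le.1 hT).1
  rw [g_val]
  linarith

noncomputable def om (s : ℝ) : ℝ := R (cos s) (sin s) * Bt (sin s)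

lemma cs (s : ℝ) : cos s ^ 2 + sin s ^ 2 = 1 := cos_sq_add_sin_sq s

lemma om_cont : Continuous om := by
  unfold om R Bt
  fun_prop

lemma om_pos (s : ℝ) : 0 < om s := mul_pos (R_pos_circle (cs s)) (Bt_pos _)

lemma om_per : Function.Periodic om (2 * π) := fun s => by
  unfold om
  rw [cos_periodic s, sin_periodic s]

/-- the set of points close to the orbit where the Lyapunov function works -/
def Un : Set (ℝ × ℝ) :=
  {z | 0 < R z.1 (β z.2)} ∩ ({z | 0 < 1 + g * T z.1 (β z.2)} ∩ {z | 0 < Psi2 z.1 (β z.2)})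

lemma Un_open : IsOpen Un := by
  have hβ : Continuous fun z : ℝ × ℝ => β z.2 := β_cont.comp continuous_snd
  have hA : ∀ z : ℝ × ℝ, At (β z.2) ≠ 0 := fun z => (At_pos _).ne'
  have hAc : Continuous fun z : ℝ × ℝ => At (β z.2) := by unfold At; fun_prop
  have hBc : Continuous fun z : ℝ × ℝ => Bt (β z.2) := by unfold Bt; fun_prop
  have hbc : Continuous fun z : ℝ × ℝ => b (β z.2) := by
    unfold b
    exact hBc.div hAc hA
  have hGr : Continuous fun z : ℝ × ℝ => Gr z.1 (β z.2) := by unfold Gr K1 K2; fun_prop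
  have hGi : Continuous fun z : ℝ × ℝ => Gi z.1 (β z.2) := by unfold Gi K1 K2; fun_prop
  have hH : Continuous fun z : ℝ × ℝ => H z.1 (β z.2) := by unfold H; fun_prop
  have hR : Continuous fun z : ℝ × ℝ => R z.1 (β z.2) := by unfold R; fun_prop
  have hP : Continuous fun z : ℝ × ℝ => P (z.1 + β z.2) := by unfold P; fun_prop
  have hP' : Continuous fun z : ℝ × ℝ => P' (z.1 + β z.2) := by unfold P'; fun_prop
  have hT : Continuous fun z : ℝ × ℝ => T z.1 (β z.2) := by unfold T; fun_prop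
  have hTu : Continuous fun z : ℝ × ℝ => Tu z.1 (β z.2) := by unfold Tu; fun_prop
  have hTv : Continuous fun z : ℝ × ℝ => Tv z.1 (β z.2) := by unfold Tv; fun_prop
  have hRd : Continuous fun z : ℝ × ℝ => Rd z.1 (β z.2) := by unfold Rd; fun_prop
  have hTd : Continuous fun z : ℝ × ℝ => Td z.1 (β z.2) := by unfold Td; fun_prop
  have hHA : Continuous fun z : ℝ × ℝ => H z.1 (β z.2) / At (β z.2) := hH.div hAc hA
  have hPs : Continuous fun z : ℝ × ℝ => Psi2 z.1 (β z.2) := by unfold Psi2; fun_prop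
  refine (isOpen_lt continuous_const hR).inter ((isOpen_lt continuous_const ?_).inter
    (isOpen_lt continuous_const hPs))
  fun_prop

lemma circle_mem_Un {x y : ℝ} (h : x ^ 2 + β y ^ 2 = 1) : (x, y) ∈ Un := by
  refine ⟨R_pos_circle h, T_circle_bound h, ?_⟩
  show 0 < Psi2 x (β y)
  rw [Psi2_eq (R_pos_circle h)]
  exact mul_pos (Psi_pos h) (R_pos_circle h)

/-- the orbit -/
noncomputable def orb (φ : ℝ → ℝ) (t : ℝ) : ℝ × ℝ := (cos (φ t), Yf (sin (φ t)))

lemma orb_deriv {φ : ℝ → ℝ} {t : ℝ} (hφ : HasDerivAt φ (om (φ t)) t) :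
    HasDerivAt (orb φ) (Pf (orb φ t).1 (orb φ t).2, Qf (orb φ t).1 (orb φ t).2) t := by
  have h1 := hφ.cos
  have h2 : HasDerivAt (fun t => Yf (sin (φ t))) _ t :=
    HasDerivAt.comp (h := fun t => sin (φ t)) (h₂ := Yf) t (Yf_deriv _) hφ.sin
  have h3 : HasDerivAt (orb φ) _ t := h1.prodMk h2
  refine h3.congr_deriv ?_
  simp only [orb, Pf, Qf, β_Yf]
  rw [Gr_circle (cs _), Gi_circle (cs _)]
  unfold om
  ext
  · simp only
    ring
  · simp only
    have := (Bt_pos (sin (φ t))).ne'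
    field_simp

/-- A periodic solution in `Un` stays on the curve `x ^ 2 + β y ^ 2 = 1`. -/
lemma on_circle {δ : ℝ → ℝ × ℝ} (h : IsPeriodicSolution Pf Qf δ) (hU : range δ ⊆ Un) (t : ℝ) :
    (δ t).1 ^ 2 + β (δ t).2 ^ 2 = 1 := by
  obtain ⟨hδ, T0, hT0, hper⟩ := h
  set x : ℝ → ℝ := fun t => (δ t).1 with hxdef
  set v : ℝ → ℝ := fun t => β (δ t).2 with hvdef
  have hx : ∀ t, HasDerivAt x (Gr (x t) (v t)) t := fun t => (hδ t).fst
  have hv : ∀ t, HasDerivAt v (b (v t) * Gi (x t) (v t)) t := fun t =>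
    HasDerivAt.comp (h := fun t => (δ t).2) (h₂ := β) t (β_deriv _) (hδ t).snd
  have hmem : ∀ t, δ t ∈ Un := fun t => hU ⟨t, rfl⟩
  have hR : ∀ t, 0 < R (x t) (v t) := fun t => (hmem t).1
  have h1T : ∀ t, 0 < 1 + g * T (x t) (v t) := fun t => (hmem t).2.1
  have hPsi : ∀ t, 0 < Psi2 (x t) (v t) := fun t => (hmem t).2.2
  set f : ℝ → ℝ := fun t => (x t ^ 2 + v t ^ 2 - 1) * (1 + g * T (x t) (v t)) / R (x t) (v t)
    with hf
  have hfd : ∀ t, HasDerivAt f
      (-((x t ^ 2 + v t ^ 2 - 1) * Psi2 (x t) (v t) / R (x t) (v t) ^ 2)) t := fun t =>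
    lyap (hx t) (hv t) (hR t).ne'
  have hFd : ∀ t, HasDerivAt (fun t => f t ^ 2)
      (-(2 * ((x t ^ 2 + v t ^ 2 - 1) ^ 2 *
        ((1 + g * T (x t) (v t)) * Psi2 (x t) (v t) / R (x t) (v t) ^ 3)))) t := fun t => by
    refine ((hfd t).pow 2).congr_deriv ?_
    have := (hR t).ne'
    simp only [hf]
    norm_num
    field_simp
  have hanti : Antitone fun t => f t ^ 2 := by
    apply antitone_of_deriv_nonpos
    · intro t; exact (hFd t).differentiableAt
    · intro t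
      rw [(hFd t).deriv]
      have := div_pos (mul_pos (h1T t) (hPsi t)) (pow_pos (hR t) 3)
      have := mul_nonneg (sq_nonneg (x t ^ 2 + v t ^ 2 - 1)) this.le
      linarith
  have hfper : Function.Periodic (fun t => f t ^ 2) T0 := fun t => by
    simp only [hf, hxdef, hvdef, hper t]
  have hconst : ∀ s t, s ≤ t → f s ^ 2 ≤ f t ^ 2 := by
    intro s t hst
    obtain ⟨n, hn⟩ := exists_nat_ge ((t - s) / T0)
    have h1 : t ≤ s + n * T0 := by
      have := (div_le_iff₀ hT0).1 hn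
      linarith
    have h2 := hanti h1
    have h3 := hfper.nat_mul n s
    simp only at h2 h3
    rw [← h3]
    exact h2
  have hconst2 : ∀ s, f s ^ 2 = f 0 ^ 2 := fun s => by
    rcases le_total s 0 with hs | hs
    · exact le_antisymm (hconst _ _ hs) (hanti hs)
    · exact le_antisymm (hanti hs) (hconst _ _ hs)
  have hzero : (x t ^ 2 + v t ^ 2 - 1) ^ 2 *
        ((1 + g * T (x t) (v t)) * Psi2 (x t) (v t) / R (x t) (v t) ^ 3) = 0 := by
    have h4 : HasDerivAt (fun t => f t ^ 2) 0 t := by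
      have : (fun t => f t ^ 2) = fun _ => f 0 ^ 2 := funext hconst2
      rw [this]
      exact hasDerivAt_const _ _
    have := (hFd t).unique h4
    linarith
  have hp := div_pos (mul_pos (h1T t) (hPsi t)) (pow_pos (hR t) 3)
  have h5 : (x t ^ 2 + v t ^ 2 - 1) ^ 2 = 0 := (mul_eq_zero.1 hzero).resolve_right hp.ne'
  have h6 : x t ^ 2 + v t ^ 2 - 1 = 0 := by
    exact pow_eq_zero_iff (two_ne_zero) |>.1 h5
  exact sub_eq_zero.1 h6

/-- the field as a map of the plane -/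
noncomputable def field (z : ℝ × ℝ) : ℝ × ℝ := (Pf z.1 z.2, Qf z.1 z.2)

lemma field_smooth {n : WithTop ℕ∞} : ContDiff ℝ n field := Pf_smooth.prodMk Qf_smooth

/-- the curve `x ^ 2 + β y ^ 2 = 1` -/
def Cv : Set (ℝ × ℝ) := {z | z.1 ^ 2 + β z.2 ^ 2 = 1}

lemma Cv_mem {z : ℝ × ℝ} (h : z ∈ Cv) : z ∈ Icc (-1 : ℝ) 1 ×ˢ Icc (-2 : ℝ) 2 := by
  have h : z.1 ^ 2 + β z.2 ^ 2 = 1 := h
  have h1 : |z.1| ≤ 1 := by
    rw [← sq_le_one_iff_abs_le_one]; nlinarith [sq_nonneg (β z.2)]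
  have h2 : |β z.2| ≤ 1 := by
    rw [← sq_le_one_iff_abs_le_one]; nlinarith [sq_nonneg z.1]
  rw [abs_le] at h1 h2
  have h3 := Yf_β z.2
  have h4 := neg_pi_div_two_lt_arctan (β z.2 / 50)
  have h5 := arctan_lt_pi_div_two (β z.2 / 50)
  have h6 := pi_lt_four
  unfold Yf at h3
  refine ⟨⟨h1.1, h1.2⟩, ⟨?_, ?_⟩⟩ <;> linarith

lemma field_lip : ∃ K, LipschitzOnWith K field Cv := by
  have hc : IsCompact (Icc (-1 : ℝ) 1 ×ˢ Icc (-2 : ℝ) 2) := isCompact_Icc.prod isCompact_Icc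
  obtain ⟨K, hK⟩ := LocallyLipschitzOn.exists_lipschitzOnWith_of_compact hc
    ((field_smooth (n := 1)).locallyLipschitz.locallyLipschitzOn)
  exact ⟨K, hK.mono fun z hz => Cv_mem hz⟩

lemma orb_mem (φ : ℝ → ℝ) (t : ℝ) : orb φ t ∈ Cv := by
  show cos (φ t) ^ 2 + β (Yf (sin (φ t))) ^ 2 = 1
  rw [β_Yf]
  exact cs _

theorem exists_limitCycle : ∃ γ, IsLimitCycle Pf Qf γ := by
  obtain ⟨φ, T0, hT0, hsurj, hφ, hφT⟩ := exists_phi om om_cont om_pos om_per
  have horb : ∀ t, HasDerivAt (orb φ) (field (orb φ t)) t := fun t => orb_deriv (hφ t)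
  refine ⟨orb φ, ⟨horb, T0, hT0, ?_⟩, ?_, Un, Un_open, ?_, ?_⟩
  · intro t
    simp only [orb, hφT, cos_add_two_pi, sin_add_two_pi]
  · obtain ⟨s, hs⟩ := hsurj 0
    obtain ⟨t, ht⟩ := hsurj π
    refine ⟨s, t, fun h => ?_⟩
    have h1 := congrArg Prod.fst h
    simp only [orb, hs, ht, cos_zero, cos_pi] at h1
    norm_num at h1
  · rintro _ ⟨t, rfl⟩
    exact circle_mem_Un (orb_mem φ t)
  · intro δ hδ hU
    have hC : ∀ t, δ t ∈ Cv := fun t => on_circle hδ hU t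
    obtain ⟨K, hK⟩ := field_lip
    obtain ⟨θ, hθ⟩ : ∃ θ, (δ 0).1 = cos θ ∧ β (δ 0).2 = sin θ := by
      have h0 : (δ 0).1 ^ 2 + β (δ 0).2 ^ 2 = 1 := hC 0
      have hz : ‖(⟨(δ 0).1, β (δ 0).2⟩ : ℂ)‖ = 1 := by
        rw [← sq_eq_sq₀ (norm_nonneg _) zero_le_one, ← Complex.normSq_eq_norm_sq,
          Complex.normSq_apply]
        simp only
        linarith
      refine ⟨Complex.arg ⟨(δ 0).1, β (δ 0).2⟩, ?_, ?_⟩
      · rw [Complex.cos_arg (by intro h; rw [h] at hz; simp at hz), hz, div_one]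
      · rw [Complex.sin_arg, hz, div_one]
    obtain ⟨t0, ht0⟩ := hsurj θ
    have hstart : δ 0 = (fun t => orb φ (t + t0)) 0 := by
      have h1 : (δ 0).2 = Yf (sin θ) := by rw [← hθ.2, Yf_β]
      simp only [zero_add, orb, ht0]
      exact Prod.ext hθ.1 h1
    have heq : δ = fun t => orb φ (t + t0) := by
      refine ODE_solution_unique_univ (v := fun _ => field) (s := fun _ => Cv) (K := K)
        (fun _ => hK) (fun t => ⟨hδ.1 t, hC t⟩) (fun t => ⟨?_, orb_mem φ _⟩) hstart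
      exact (horb (t + t0)).comp_add_const t t0
    rw [heq]
    apply Set.Subset.antisymm
    · rintro _ ⟨t, rfl⟩
      exact ⟨t + t0, rfl⟩
    · rintro _ ⟨t, rfl⟩
      exact ⟨t - t0, by simp⟩

end Q35.LC
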