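import Pool.Agent.Q35.LCAlg

/-!
# Positivity of `Psi` on the unit circle
-/

namespace Q35.LC

noncomputable def D (u v : ℝ) : ℝ :=
  2 * (R u v * (u * v) * (b v - 3) + (v - u) / 2 * (u ^ 2 - b v * v ^ 2))

noncomputable def Tphi (u v : ℝ) : ℝ := (u + v) * P (u + v) - (v - u) ^ 2 * P' (u + v)

lemma At_sub_Bt (v : ℝ) : At v = Bt v + 2 * g := by unfold At Bt; ring

lemma HA_circle {u v : ℝ} (h : u ^ 2 + v ^ 2 = 1) :
    H u v / At v + Rd u v / R u v = g * D u v := by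
  have hA := (At_pos v).ne'
  have hR := (R_pos_circle h).ne'
  have hb := b_mul v
  have e1 : H u v / At v = 2 * (R u v * u * v * g * (b v - 3) +
      (v - u) / 4 * (u ^ 2 * At v + v ^ 2 * b v * Bt v)) := by
    rw [div_eq_iff hA, H_circle h]
    linear_combination (-(2 * R u v * u * v * g) -
      (v - u) / 2 * v ^ 2 * Bt v) * hb
  have e2 : Rd u v / R u v = (u - v) * Bt v / 2 := by
    rw [div_eq_iff hR]
    unfold Rd
    rw [Gr_circle h, Gi_circle h]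
    linear_combination (R u v * u / 2) * hb
  rw [e1, e2]
  unfold D
  have hAB := At_sub_Bt v
  have hb2 : Bt v * (b v - 1) = - 2 * g * b v := by
    linear_combination hb - b v * hAB
  linear_combination (v - u) / 2 * (u ^ 2 * hAB + Bt v * h + v ^ 2 * hb2)

lemma Td_circle {u v : ℝ} (h : u ^ 2 + v ^ 2 = 1) : Td u v = R u v * Bt v * Tphi u v := by
  have hb := b_mul v
  unfold Td Tu Tv Tphi
  rw [Gr_circle h, Gi_circle h]
  linear_combination (P (u + v) + (v - u) * P' (u + v)) * u * R u v * hb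

lemma Psi_circle {u v : ℝ} (h : u ^ 2 + v ^ 2 = 1) :
    Psi u v = g * (D u v * (1 + g * T u v) - R u v * Bt v * Tphi u v) := by
  unfold Psi
  rw [HA_circle h, Td_circle h]
  ring

lemma b_bounds (v : ℝ) : b v ≤ 1 ∧ 1 - 1 / 5000 ≤ b v := by
  have hA := At_pos v
  unfold b
  constructor
  · rw [div_le_one hA]
    unfold At Bt
    rw [g_val]
    linarith
  · rw [le_div_iff₀ hA]
    unfold At Bt
    rw [g_val]
    nlinarith [sq_nonneg v]

lemma Q_pos {s : ℝ} (h : s ^ 2 ≤ 2) :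
    1 / 10 ≤ 1/4 + (3/8)*s - (1/8)*s^2 - (3/4)*s^3 + (5/48)*s^4 + (1/3)*s^5 := by
  have h1 : -(283/200) ≤ s := by nlinarith
  have h2 : s ≤ 283/200 := by nlinarith
  rcases le_total s (-1) with h3 | h3
  · obtain ⟨x, hx⟩ : ∃ x, x = s - (-283/200) := ⟨_, rfl⟩
    obtain ⟨y, hy⟩ : ∃ y, y = (-1) - s := ⟨_, rfl⟩
    have hx0 : 0 ≤ x := by rw [hx]; linarith
    have hy0 : 0 ≤ y := by rw [hy]; linarith
    have e : 1/4 + (3/8)*s - (1/8)*s^2 - (3/4)*s^3 + (5/48)*s^4 + (1/3)*s^5 - 1/10 =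
      (13238775613/7878081286)*x^0*y^5 + (1572881168125/23634243858)*x^1*y^4 + (2098397380000/11817121929)*x^2*y^3 + (713718000000/3939040643)*x^3*y^2 + (969400000000/11817121929)*x^4*y^1 + (164000000000/11817121929)*x^5*y^0 := by
      rw [hx, hy]; ring
    have : 0 ≤ (13238775613/7878081286)*x^0*y^5 + (1572881168125/23634243858)*x^1*y^4 + (2098397380000/11817121929)*x^2*y^3 + (713718000000/3939040643)*x^3*y^2 + (969400000000/11817121929)*x^4*y^1 + (164000000000/11817121929)*x^5*y^0 := by positivity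
    linarith
  rcases le_total s (-1/2) with h4 | h4
  · obtain ⟨x, hx⟩ : ∃ x, x = s - (-1) := ⟨_, rfl⟩
    obtain ⟨y, hy⟩ : ∃ y, y = (-1/2) - s := ⟨_, rfl⟩
    have hx0 : 0 ≤ x := by rw [hx]; linarith
    have hy0 : 0 ≤ y := by rw [hy]; linarith
    have e : 1/4 + (3/8)*s - (1/8)*s^2 - (3/4)*s^3 + (5/48)*s^4 + (1/3)*s^5 - 1/10 =
      (82/15)*x^0*y^5 + (64/3)*x^1*y^4 + (26)*x^2*y^3 + (40/3)*x^3*y^2 + (85/24)*x^4*y^1 + (27/40)*x^5*y^0 := by
      rw [hx, hy]; ring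
    have : 0 ≤ (82/15)*x^0*y^5 + (64/3)*x^1*y^4 + (26)*x^2*y^3 + (40/3)*x^3*y^2 + (85/24)*x^4*y^1 + (27/40)*x^5*y^0 := by positivity
    linarith
  rcases le_total s (0) with h5 | h5
  · obtain ⟨x, hx⟩ : ∃ x, x = s - (-1/2) := ⟨_, rfl⟩
    obtain ⟨y, hy⟩ : ∃ y, y = (0) - s := ⟨_, rfl⟩
    have hx0 : 0 ≤ x := by rw [hx]; linarith
    have hy0 : 0 ≤ y := by rw [hy]; linarith
    have e : 1/4 + (3/8)*s - (1/8)*s^2 - (3/4)*s^3 + (5/48)*s^4 + (1/3)*s^5 - 1/10 =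
      (27/40)*x^0*y^5 + (77/24)*x^1*y^4 + (12)*x^2*y^3 + (23)*x^3*y^2 + (18)*x^4*y^1 + (24/5)*x^5*y^0 := by
      rw [hx, hy]; ring
    have : 0 ≤ (27/40)*x^0*y^5 + (77/24)*x^1*y^4 + (12)*x^2*y^3 + (23)*x^3*y^2 + (18)*x^4*y^1 + (24/5)*x^5*y^0 := by positivity
    linarith
  rcases le_total s (1) with h6 | h6
  · obtain ⟨x, hx⟩ : ∃ x, x = s - (0) := ⟨_, rfl⟩
    obtain ⟨y, hy⟩ : ∃ y, y = (1) - s := ⟨_, rfl⟩
    have hx0 : 0 ≤ x := by rw [hx]; linarith
    have hy0 : 0 ≤ y := by rw [hy]; linarith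
    have e : 1/4 + (3/8)*s - (1/8)*s^2 - (3/4)*s^3 + (5/48)*s^4 + (1/3)*s^5 - 1/10 =
      (3/20)*x^0*y^5 + (9/8)*x^1*y^4 + (23/8)*x^2*y^3 + (21/8)*x^3*y^2 + (23/48)*x^4*y^1 + (7/80)*x^5*y^0 := by
      rw [hx, hy]; ring
    have : 0 ≤ (3/20)*x^0*y^5 + (9/8)*x^1*y^4 + (23/8)*x^2*y^3 + (21/8)*x^3*y^2 + (23/48)*x^4*y^1 + (7/80)*x^5*y^0 := by positivity
    linarith
  · obtain ⟨x, hx⟩ : ∃ x, x = s - (1) := ⟨_, rfl⟩
    obtain ⟨y, hy⟩ : ∃ y, y = (283/200) - s := ⟨_, rfl⟩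
    have hx0 : 0 ≤ x := by rw [hx]; linarith
    have hy0 : 0 ≤ y := by rw [hy]; linarith
    have e : 1/4 + (3/8)*s - (1/8)*s^2 - (3/4)*s^3 + (5/48)*s^4 + (1/3)*s^5 - 1/10 =
      (28000000000/3939040643)*x^0*y^5 + (403400000000/11817121929)*x^1*y^4 + (1035382000000/11817121929)*x^2*y^3 + (577196440000/3939040643)*x^3*y^2 + (3202114212125/23634243858)*x^4*y^1 + (1178777653411/23634243858)*x^5*y^0 := by
      rw [hx, hy]; ring
    have : 0 ≤ (28000000000/3939040643)*x^0*y^5 + (403400000000/11817121929)*x^1*y^4 + (1035382000000/11817121929)*x^2*y^3 + (577196440000/3939040643)*x^3*y^2 + (3202114212125/23634243858)*x^4*y^1 + (1178777653411/23634243858)*x^5*y^0 := by positivity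
    linarith

lemma Psi_pos {u v : ℝ} (h : u ^ 2 + v ^ 2 = 1) : 0 < Psi u v := by
  rw [Psi_circle h]
  have hg : 0 < g := by rw [g_val]; norm_num
  apply mul_pos hg
  obtain ⟨hb1, hb2⟩ := b_bounds v
  set s := u + v with hs
  set d := v - u with hd
  have hsd : s ^ 2 + d ^ 2 = 2 := by rw [hs, hd]; linear_combination 2 * h
  have huv : u * v = (s ^ 2 - 1) / 2 := by rw [hs]; linear_combination -(1 / 2) * h
  have hs2 : s ^ 2 ≤ 2 := by nlinarith [sq_nonneg d]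
  have hd2 : d ^ 2 ≤ 2 := by nlinarith [sq_nonneg s]
  have hv2 : v ^ 2 ≤ 1 := by nlinarith [sq_nonneg u]
  have hs3 : |s| ≤ 3 / 2 := abs_le_of_sq_le_sq (by nlinarith) (by norm_num)
  have hd3 : |d| ≤ 3 / 2 := abs_le_of_sq_le_sq (by nlinarith) (by norm_num)
  obtain ⟨hs4, hs5⟩ := abs_le.1 hs3
  have hP : |P s| ≤ 4 := by
    unfold P
    rw [abs_le]
    constructor <;> nlinarith [sq_nonneg s, mul_nonneg (sub_nonneg.2 hs5) (sq_nonneg s),
      mul_nonneg (sub_nonneg.2 hs4) (sq_nonneg s)]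
  have hP' : |P' s| ≤ 4 := by
    unfold P'
    rw [abs_le]
    constructor <;> nlinarith [sq_nonneg s]
  have hT : |T u v| ≤ 6 := by
    unfold T
    rw [← hs, ← hd, abs_mul]
    calc |d| * |P s| ≤ 3 / 2 * 4 := mul_le_mul hd3 hP (abs_nonneg _) (by norm_num)
      _ = 6 := by norm_num
  have hTp : |Tphi u v| ≤ 16 := by
    unfold Tphi
    rw [← hs, ← hd]
    calc |s * P s - d ^ 2 * P' s| ≤ |s * P s| + |d ^ 2 * P' s| := abs_sub _ _
      _ = |s| * |P s| + d ^ 2 * |P' s| := by rw [abs_mul, abs_mul, abs_of_nonneg (sq_nonneg d)]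
      _ ≤ 3 / 2 * 4 + 2 * 4 := add_le_add (mul_le_mul hs3 hP (abs_nonneg _) (by norm_num))
          (mul_le_mul hd2 hP' (abs_nonneg _) (by norm_num))
      _ ≤ 16 := by norm_num
  have hR0 : 0 < R u v := R_pos_circle h
  have hR : R u v = 1 + s / 2 := rfl
  have hR2 : R u v ≤ 2 := by rw [hR]; linarith
  -- decomposition
  have hTphi : Tphi u v = s * P s - (2 - s ^ 2) * P' s := by
    unfold Tphi
    rw [← hs, ← hd]
    linear_combination -(P' s) * hsd
  have hD : D u v = (2 - 2 * s ^ 2 - s) + 2 * (b v - 1) * (R u v * (u * v) - d / 2 * v ^ 2) := by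
    unfold D
    have e1 : u ^ 2 - v ^ 2 = - (d * s) := by rw [hs, hd]; ring
    have e2 : u ^ 2 - b v * v ^ 2 = -(d * s) - (b v - 1) * v ^ 2 := by rw [← e1]; ring
    rw [← hd, e2, huv, hR]
    linear_combination (-s) * hsd
  have hB : Bt v = 1 - g * (3 - 4 * v ^ 2) := by unfold Bt; ring
  have hQ := Q_pos hs2
  have hmain : (2 - 2 * s ^ 2 - s) - R u v * (s * P s - (2 - s ^ 2) * P' s) =
      1/4 + (3/8)*s - (1/8)*s^2 - (3/4)*s^3 + (5/48)*s^4 + (1/3)*s^5 := by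
    rw [hR]
    unfold P P'
    ring
  set D0 := 2 - 2 * s ^ 2 - s with hD0
  have hD0b : |D0| ≤ 8 := by
    rw [abs_le]
    constructor <;> nlinarith
  set e := 2 * (b v - 1) * (R u v * (u * v) - d / 2 * v ^ 2) with he
  have heb : |e| ≤ 1 / 500 := by
    have h1 : |b v - 1| ≤ 1 / 5000 := by
      rw [abs_le]
      constructor <;> linarith
    have h2 : |R u v * (u * v) - d / 2 * v ^ 2| ≤ 4 := by
      have h3 : |u * v| ≤ 1 := by
        rw [huv, abs_le]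
        constructor <;> nlinarith [sq_nonneg s]
      calc |R u v * (u * v) - d / 2 * v ^ 2| ≤ |R u v * (u * v)| + |d / 2 * v ^ 2| := abs_sub _ _
        _ = R u v * |u * v| + |d| / 2 * v ^ 2 := by
          rw [abs_mul (R u v), abs_mul (d / 2), abs_of_pos hR0, abs_of_nonneg (sq_nonneg v),
            abs_div, abs_two]
        _ ≤ 2 * 1 + (3 / 2) / 2 * 1 := add_le_add
            (mul_le_mul hR2 h3 (abs_nonneg _) (by norm_num))
            (mul_le_mul (by linarith) hv2 (sq_nonneg _) (by norm_num))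
        _ ≤ 4 := by norm_num
    rw [he, abs_mul, abs_mul, abs_two]
    calc 2 * |b v - 1| * |R u v * (u * v) - d / 2 * v ^ 2| ≤ 2 * (1 / 5000) * 4 :=
          mul_le_mul (by linarith) h2 (abs_nonneg _) (by norm_num)
      _ ≤ 1 / 500 := by norm_num
  have hgT : |g * T u v| ≤ 1 / 1000 := by
    rw [abs_mul, abs_of_pos hg]
    calc g * |T u v| ≤ g * 6 := mul_le_mul_of_nonneg_left hT hg.le
      _ ≤ 1 / 1000 := by rw [g_val]; norm_num
  have hlast : |R u v * (g * (3 - 4 * v ^ 2)) * Tphi u v| ≤ 1 / 100 := by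
    have h1 : |3 - 4 * v ^ 2| ≤ 3 := by
      rw [abs_le]
      constructor <;> nlinarith [sq_nonneg v]
    rw [abs_mul, abs_mul, abs_mul, abs_of_pos hg, abs_of_pos hR0]
    calc R u v * (g * |3 - 4 * v ^ 2|) * |Tphi u v| ≤ 2 * (g * 3) * 16 := by
          apply mul_le_mul _ hTp (abs_nonneg _) (by positivity)
          exact mul_le_mul hR2 (mul_le_mul_of_nonneg_left h1 hg.le) (by positivity) (by norm_num)
      _ ≤ 1 / 100 := by rw [g_val]; norm_num
  have hprod : |(D0 + e) * (g * T u v)| ≤ 1 / 100 := by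
    rw [abs_mul]
    calc |D0 + e| * |g * T u v| ≤ (8 + 1 / 500) * (1 / 1000) := by
          apply mul_le_mul _ hgT (abs_nonneg _) (by norm_num)
          exact (abs_add_le _ _).trans (add_le_add hD0b heb)
      _ ≤ 1 / 100 := by norm_num
  have hfin : D u v * (1 + g * T u v) - R u v * Bt v * Tphi u v =
      (D0 - R u v * (s * P s - (2 - s ^ 2) * P' s)) + e + (D0 + e) * (g * T u v) +
        R u v * (g * (3 - 4 * v ^ 2)) * Tphi u v := by
    rw [hD, hB]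
    linear_combination (-(R u v)) * hTphi
  rw [hfin, hmain]
  have a1 := (abs_le.1 heb).1
  have a2 := (abs_le.1 hprod).1
  have a3 := (abs_le.1 hlast).1
  linarith

end Q35.LC
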