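import Mathlib

/-!
# A two-dimensional regular local ring of residue characteristic 2

If `A` is a discrete valuation ring with uniformizer `1 + i`, `i^2 = -1`, then in `A[[t]]` the
element `2 + 2i` is a sum of three squares but not of two, although every element of the
fraction field is a sum of two squares.
-/

namespace Q35.Pyth

open IsLocalRing

section general

variable {A : Type} [CommRing A] [IsDomain A] [IsLocalRing A] [IsNoetherianRing A]

/-- divisibility by a constant is coefficientwise -/
lemma C_dvd_iff {a : A} {x : PowerSeries A} (h : ∀ n, a ∣ PowerSeries.coeff n x) :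
    PowerSeries.C a ∣ x := by
  choose c hc using h
  refine ⟨PowerSeries.mk c, ?_⟩
  ext n
  rw [PowerSeries.coeff_C_mul, PowerSeries.coeff_mk]
  exact hc n

lemma C_prime {a : A} (ha : Prime a) : Prime (PowerSeries.C a) := by
  have hI : (Ideal.span {a}).IsPrime := (Ideal.span_singleton_prime ha.ne_zero).2 ha
  let f : PowerSeries A →+* PowerSeries (A ⧸ Ideal.span {a}) :=
    PowerSeries.map (Ideal.Quotient.mk _)
  have hker : ∀ x : PowerSeries A, PowerSeries.C a ∣ x ↔ f x = 0 := by
    intro x
    constructor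
    · rintro ⟨y, rfl⟩
      have : f (PowerSeries.C a) = 0 := by
        change PowerSeries.map _ (PowerSeries.C a) = 0
        rw [PowerSeries.map_C, Ideal.Quotient.eq_zero_iff_mem.2 (Ideal.mem_span_singleton_self a),
          map_zero]
      rw [map_mul, this, zero_mul]
    · intro h
      apply C_dvd_iff
      intro n
      have h1 : PowerSeries.coeff n (f x) = 0 := by rw [h, map_zero]
      change PowerSeries.coeff n (PowerSeries.map _ x) = 0 at h1
      rw [PowerSeries.coeff_map, Ideal.Quotient.eq_zero_iff_mem] at h1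
      exact Ideal.mem_span_singleton.1 h1
  refine ⟨?_, ?_, ?_⟩
  · intro h
    exact ha.ne_zero (PowerSeries.C_injective (by rw [h, map_zero]))
  · intro h
    have := (hker 1).1 (h.dvd)
    rw [map_one] at this
    exact one_ne_zero this
  · intro x y hxy
    rw [hker, map_mul] at hxy
    rw [hker, hker]
    exact mul_eq_zero.1 hxy

lemma maximalIdeal_eq {a : A} (ha : maximalIdeal A = Ideal.span {a}) :
    maximalIdeal (PowerSeries A) = Ideal.span {PowerSeries.C a, PowerSeries.X} := by
  apply le_antisymm
  · intro x hx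
    have h1 : ¬ IsUnit x := hx
    rw [PowerSeries.isUnit_iff_constantCoeff] at h1
    have h2 : PowerSeries.constantCoeff x ∈ maximalIdeal A := h1
    rw [ha, Ideal.mem_span_singleton] at h2
    obtain ⟨c, hc⟩ := h2
    have h3 : PowerSeries.X ∣ x - PowerSeries.C (PowerSeries.constantCoeff x) := by
      rw [PowerSeries.X_dvd_iff, map_sub, PowerSeries.constantCoeff_C, sub_self]
    obtain ⟨y, hy⟩ := h3
    rw [Ideal.mem_span_pair]
    refine ⟨PowerSeries.C c, y, ?_⟩
    rw [mul_comm y, ← hy, ← map_mul, mul_comm c, ← hc]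
    ring
  · rw [Ideal.span_le]
    rintro x (rfl | rfl)
    · change ¬ IsUnit _
      rw [PowerSeries.isUnit_iff_constantCoeff, PowerSeries.constantCoeff_C]
      have : a ∈ maximalIdeal A := by rw [ha]; exact Ideal.mem_span_singleton_self a
      exact this
    · change ¬ IsUnit _
      rw [PowerSeries.isUnit_iff_constantCoeff, PowerSeries.constantCoeff_X]
      exact not_isUnit_zero

lemma krullDim_eq {a : A} (ha : maximalIdeal A = Ideal.span {a}) (hne : a ≠ 0) :
    ringKrullDim (PowerSeries A) = 2 := by
  apply le_antisymm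
  · refine (ringKrullDim_le_spanFinrank_maximalIdeal (PowerSeries A)).trans ?_
    rw [maximalIdeal_eq ha]
    have h1 : (Ideal.span {PowerSeries.C a, (PowerSeries.X : PowerSeries A)}).spanFinrank ≤
        ({PowerSeries.C a, PowerSeries.X} : Set (PowerSeries A)).ncard :=
      Submodule.spanFinrank_span_le_ncard_of_finite (Set.toFinite _)
    have h2 : ({PowerSeries.C a, PowerSeries.X} : Set (PowerSeries A)).ncard ≤ 2 :=
      Set.ncard_insert_le _ _ |>.trans (by rw [Set.ncard_singleton])
    exact_mod_cast h1.trans h2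
  · have h1 : ringKrullDim (ResidueField A) + 1 ≤ ringKrullDim A := by
      refine ringKrullDim_succ_le_of_surjective (residue A) residue_surjective (r := a)
        (mem_nonZeroDivisors_of_ne_zero hne) ?_
      rw [residue_eq_zero_iff, ha]
      exact Ideal.mem_span_singleton_self a
    have h2 : ringKrullDim A + 1 ≤ ringKrullDim (PowerSeries A) := by
      refine ringKrullDim_succ_le_of_surjective PowerSeries.constantCoeff
        (fun x => ⟨PowerSeries.C x, PowerSeries.constantCoeff_C x⟩) (r := PowerSeries.X)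
        (mem_nonZeroDivisors_of_ne_zero PowerSeries.X_ne_zero) ?_
      exact PowerSeries.constantCoeff_X
    rw [ringKrullDim_eq_zero_of_field, zero_add] at h1
    calc (2 : WithBot ℕ∞) = 1 + 1 := by norm_num
      _ ≤ ringKrullDim A + 1 := by gcongr
      _ ≤ _ := h2

/-- `2 + 2i` is not a sum of two squares -/
lemma not_two_squares {i : A} (hi : i * i = -1) (hp : Prime (1 + i)) (a b : PowerSeries A) :
    PowerSeries.C (2 + 2 * i) ≠ a ^ 2 + b ^ 2 := by
  intro h
  set j : PowerSeries A := PowerSeries.C i with hj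
  set p : PowerSeries A := PowerSeries.C (1 + i) with hp'
  have hjj : j * j = -1 := by rw [hj, ← map_mul, hi, map_neg, map_one]
  have hpj : p = 1 + j := by rw [hp', map_add, map_one]
  have hpp : Prime p := C_prime hp
  set u := a + j * b with hu
  set v := a - j * b with hv
  have h2 : (2 : PowerSeries A) = -j * p ^ 2 := by
    rw [hpj]
    have : -j * (1 + j) ^ 2 = -j - 2 * (j * j) - (j * j) * j := by ring
    rw [this, hjj]; ring
  have huv : u * v = -j * p ^ 3 := by
    have e1 : u * v = a ^ 2 + b ^ 2 := by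
      rw [hu, hv]
      have : (a + j * b) * (a - j * b) = a ^ 2 - (j * j) * b ^ 2 := by ring
      rw [this, hjj]; ring
    have e2 : (PowerSeries.C (2 + 2 * i) : PowerSeries A) = 2 * p := by
      rw [hpj, map_add, map_mul, hj]
      have : (PowerSeries.C (2 : A) : PowerSeries A) = 2 := map_ofNat _ 2
      rw [this]; ring
    rw [e1, ← h, e2, h2]; ring
  have hdiff : u - v = p ^ 2 * b := by
    have : u - v = 2 * (j * b) := by rw [hu, hv]; ring
    rw [this, h2]
    have : -j * p ^ 2 * (j * b) = -(j * j) * p ^ 2 * b := by ring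
    rw [this, hjj]; ring
  have hp0 := hpp.ne_zero
  -- first step
  have hboth : p ∣ u ∧ p ∣ v := by
    have h3 : p ∣ u * v := by rw [huv]; exact Dvd.intro_left (-j * p ^ 2) (by ring)
    have h4 : p ∣ u - v := by rw [hdiff]; exact Dvd.intro (p * b) (by ring)
    rcases hpp.dvd_or_dvd h3 with h5 | h5
    · exact ⟨h5, (dvd_sub_right h5).1 h4⟩
    · exact ⟨(dvd_sub_left h5).1 h4, h5⟩
  obtain ⟨⟨u', hu'⟩, ⟨v', hv'⟩⟩ := hboth
  have huv' : u' * v' = -j * p := by
    have : p ^ 2 * (u' * v') = p ^ 2 * (-j * p) := by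
      have e : p ^ 2 * (u' * v') = (p * u') * (p * v') := by ring
      rw [e, ← hu', ← hv', huv]; ring
    exact mul_left_cancel₀ (pow_ne_zero 2 hp0) this
  have hdiff' : u' - v' = p * b := by
    have : p * (u' - v') = p * (p * b) := by
      rw [mul_sub, ← hu', ← hv', hdiff]; ring
    exact mul_left_cancel₀ hp0 this
  have hboth' : p ∣ u' ∧ p ∣ v' := by
    have h3 : p ∣ u' * v' := by rw [huv']; exact Dvd.intro_left (-j) rfl
    have h4 : p ∣ u' - v' := by rw [hdiff']; exact Dvd.intro b rfl
    rcases hpp.dvd_or_dvd h3 with h5 | h5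
    · exact ⟨h5, (dvd_sub_right h5).1 h4⟩
    · exact ⟨(dvd_sub_left h5).1 h4, h5⟩
  obtain ⟨⟨u'', hu''⟩, ⟨v'', hv''⟩⟩ := hboth'
  have h6 : p * (u'' * v'') = -j := by
    have : p * (p * (u'' * v'')) = p * (-j) := by
      have e : p * (p * (u'' * v'')) = (p * u'') * (p * v'') := by ring
      rw [e, ← hu'', ← hv'', huv']; ring
    exact mul_left_cancel₀ hp0 this
  have h7 : IsUnit (p * (u'' * v'')) := by
    rw [h6]
    exact IsUnit.of_mul_eq_one j (by rw [neg_mul, hjj]; ring)
  exact hpp.not_isUnit (isUnit_of_mul_isUnit_left h7)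

lemma two_squares {K : Type} [Field K] {j : K} (hjj : j * j = -1) (h1j : 1 + j ≠ 0) (x : K) :
    ∃ f : Fin 2 → K, x = ∑ i, f i ^ 2 := by
  have h2 : (2 : K) ≠ 0 := by
    have e : (2 : K) = -j * (1 + j) ^ 2 := by
      have : -j * (1 + j) ^ 2 = -j - 2 * (j * j) - (j * j) * j := by ring
      rw [this, hjj]; ring
    rw [e]
    have hj0 : j ≠ 0 := by
      intro h0
      rw [h0] at hjj
      simp at hjj
    exact mul_ne_zero (neg_ne_zero.2 hj0) (pow_ne_zero 2 h1j)
  refine ⟨![(x + 1) / 2, j * (x - 1) / 2], ?_⟩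
  rw [Fin.sum_univ_two]
  simp only [Matrix.cons_val_zero, Matrix.cons_val_one]
  have e : (j * (x - 1) / 2) ^ 2 = (j * j) * (x - 1) ^ 2 / (2 * 2) := by
    rw [div_pow, mul_pow, pow_two j, pow_two (2 : K)]
  have e' : ((x + 1) / 2) ^ 2 = (x + 1) ^ 2 / (2 * 2) := by
    rw [div_pow, pow_two (2 : K)]
  rw [e, e', hjj, ← add_div, eq_div_iff (mul_ne_zero h2 h2)]
  ring

theorem main {i : A} (hi : i * i = -1) (hm : maximalIdeal A = Ideal.span {1 + i})
    (hne : (1 : A) + i ≠ 0) :
    ¬ (∀ (R : Type) [CommRing R] [IsDomain R] [IsLocalRing R] [IsNoetherianRing R],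
      ringKrullDim R = 2 →
      (∃ a b : R, IsLocalRing.maximalIdeal R = Ideal.span {a, b}) →
      ∀ (K : Type) [Field K] [Algebra R K] [IsFractionRing R K],
      ∀ n : ℕ,
        ((∀ x : R, IsSumSq x → ∃ f : Fin n → R, x = ∑ i, f i ^ 2) ↔
          (∀ x : K, IsSumSq x → ∃ f : Fin n → K, x = ∑ i, f i ^ 2))) := by
  intro H
  have hp : Prime (1 + i) := by
    rw [← Ideal.span_singleton_prime hne, ← hm]
    infer_instance
  have h := (H (PowerSeries A) (krullDim_eq hm hne) ⟨_, _, maximalIdeal_eq hm⟩
    (FractionRing (PowerSeries A)) 2).2 ?_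
  · have hs : IsSumSq (PowerSeries.C (2 + 2 * i) : PowerSeries A) := by
      have e : (PowerSeries.C (2 + 2 * i) : PowerSeries A) =
          PowerSeries.C (1 + i) * PowerSeries.C (1 + i) + (1 * 1 + 1 * 1) := by
        rw [← map_mul]
        have : (1 + i) * (1 + i) = 2 * i := by
          have : (1 + i) * (1 + i) = 1 + 2 * i + i * i := by ring
          rw [this, hi]; ring
        rw [this, map_add]
        have : (PowerSeries.C (2 : A) : PowerSeries A) = 2 := map_ofNat _ 2
        rw [this]; ring
      rw [e]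
      exact (IsSumSq.mul_self _).add ((IsSumSq.mul_self _).add (IsSumSq.mul_self _))
    obtain ⟨f, hf⟩ := h _ hs
    rw [Fin.sum_univ_two] at hf
    exact not_two_squares hi hp _ _ hf
  · intro x _
    refine two_squares (j := algebraMap (PowerSeries A) (FractionRing (PowerSeries A))
      (PowerSeries.C i)) ?_ ?_ x
    · rw [← map_mul, ← map_mul, hi, map_neg, map_neg, map_one, map_one]
    · intro h0
      have : algebraMap (PowerSeries A) (FractionRing (PowerSeries A))
          (PowerSeries.C (1 + i)) = 0 := by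
        rw [map_add, map_add, map_one, map_one]; exact h0
      rw [map_eq_zero_iff _ (IsFractionRing.injective (PowerSeries A)
        (FractionRing (PowerSeries A)))] at this
      exact hne (PowerSeries.C_injective (by rw [this, map_zero]))

end general

/-! ### The Gaussian integers localized at `1 + i` -/

/-- `1 + i` -/
def g : GaussianInt := ⟨1, 1⟩

lemma g_prime : Prime g := by
  have hirr : Irreducible g := by
    refine ⟨?_, ?_⟩
    · intro h
      have := Zsqrtd.norm_eq_one_iff.2 h
      simp [g, Zsqrtd.norm_def] at this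
    · intro a b hab
      have h1 : g.norm = 2 := by simp [g, Zsqrtd.norm_def]
      have h2 : a.norm.natAbs * b.norm.natAbs = 2 := by
        rw [← Int.natAbs_mul, ← Zsqrtd.norm_mul, ← hab, h1]; rfl
      have h3 : a.norm.natAbs ∣ 2 := Dvd.intro _ h2
      rcases (Nat.dvd_prime Nat.prime_two).1 h3 with h4 | h4
      · left; exact Zsqrtd.norm_eq_one_iff.1 h4
      · right
        apply Zsqrtd.norm_eq_one_iff.1
        rw [h4] at h2
        omega
  exact hirr.prime

/-- the prime ideal -/
def P : Ideal GaussianInt := Ideal.span {g}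

instance : P.IsPrime := (Ideal.span_singleton_prime g_prime.ne_zero).2 g_prime

/-- the discrete valuation ring -/
abbrev A := Localization.AtPrime P

instance : IsDomain A :=
  IsLocalization.isDomain_localization P.primeCompl_le_nonZeroDivisors

instance : IsNoetherianRing A := IsLocalization.isNoetherianRing P.primeCompl A inferInstance

theorem final :
    ¬ (∀ (R : Type) [CommRing R] [IsDomain R] [IsLocalRing R] [IsNoetherianRing R],
      ringKrullDim R = 2 →
      (∃ a b : R, IsLocalRing.maximalIdeal R = Ideal.span {a, b}) →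
      ∀ (K : Type) [Field K] [Algebra R K] [IsFractionRing R K],
      ∀ n : ℕ,
        ((∀ x : R, IsSumSq x → ∃ f : Fin n → R, x = ∑ i, f i ^ 2) ↔
          (∀ x : K, IsSumSq x → ∃ f : Fin n → K, x = ∑ i, f i ^ 2))) := by
  have hg : algebraMap GaussianInt A g = 1 + algebraMap GaussianInt A ⟨0, 1⟩ := by
    have : g = 1 + ⟨0, 1⟩ := by
      apply Zsqrtd.ext <;> simp [g]
    rw [this, map_add, map_one]
  refine main (A := A) (i := algebraMap GaussianInt A ⟨0, 1⟩) ?_ ?_ ?_
  · rw [← map_mul]
    have : (⟨0, 1⟩ : GaussianInt) * ⟨0, 1⟩ = -1 := by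
      apply Zsqrtd.ext <;> simp
    rw [this, map_neg, map_one]
  · rw [← hg, ← Localization.AtPrime.map_eq_maximalIdeal]
    change Ideal.map (algebraMap GaussianInt A) (Ideal.span {g}) = _
    rw [Ideal.map_span, Set.image_singleton]
  · rw [← hg]
    intro h
    rw [map_eq_zero_iff _ (IsLocalization.injective A P.primeCompl_le_nonZeroDivisors)] at h
    exact g_prime.ne_zero h

end Q35.Pyth
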