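import Mathlib

open MvPolynomial

namespace Q35.SqFree

noncomputable section

/-- The ideal `(x_1^2, …, x_n^2)` of the polynomial ring. -/
def sqIdeal (K : Type*) [Field K] (n : ℕ) : Ideal (MvPolynomial (Fin n) K) :=
  Ideal.span (Set.range fun i : Fin n => (X i : MvPolynomial (Fin n) K) ^ 2)

/-- The square-free algebra `𝔖(V_n) = K[x_1,…,x_n]/(x_1^2,…,x_n^2)`. -/
abbrev SqAlg (K : Type*) [Field K] (n : ℕ) := MvPolynomial (Fin n) K ⧸ sqIdeal K n

/-- The square-free monomials of degree `d`, as the `d`-element subsets of the variables. -/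
abbrev Mon (n d : ℕ) := {s : Finset (Fin n) // s.card = d}

/-- The form of degree `d` of the square-free algebra with coefficient vector `c`. -/
def form {K : Type*} [Field K] {n : ℕ} (d : ℕ) (c : Mon n d → K) : SqAlg K n :=
  Ideal.Quotient.mk (sqIdeal K n) (∑ s : Mon n d, C (c s) * ∏ i ∈ s.1, X i)

/-- The ideal `(f_1,…,f_r)` of the square-free algebra whose generators, of degrees
`d_1,…,d_r`, have the coefficient vector `c`. -/
def genIdeal {K : Type*} [Field K] {n r : ℕ} (d : Fin r → ℕ)
    (c : (Σ j : Fin r, Mon n (d j)) → K) : Ideal (SqAlg K n) :=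
  Ideal.span (Set.range fun j : Fin r => form (d j) (fun s => c ⟨j, s⟩))

/-- The degree `i` component of `𝔖(V_n)/I`: the image of the forms of degree `i`. -/
def gradedPart {K : Type*} [Field K] {n : ℕ} (I : Ideal (SqAlg K n)) (i : ℕ) :
    Submodule K (SqAlg K n ⧸ I) :=
  ((homogeneousSubmodule (Fin n) K i).map
    (Ideal.Quotient.mkₐ K (sqIdeal K n)).toLinearMap).map (Ideal.Quotient.mkₐ K I).toLinearMap

/-- The Hilbert function of `𝔖(V_n)/I`. -/
def hilb {K : Type*} [Field K] {n : ℕ} (I : Ideal (SqAlg K n)) (i : ℕ) : ℕ :=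
  Module.finrank K (gradedPart I i)

/-- The truncation `⟨∑ a_i t^i⟩` just before the first non-positive coefficient. -/
def trunc (a : ℕ → ℤ) (i : ℕ) : ℤ := if ∀ j ≤ i, 0 < a j then a i else 0

/-- The polynomial `(1+t)^n ∏ (1-t^{d_i})`. -/
def series (n : ℕ) {r : ℕ} (d : Fin r → ℕ) : Polynomial ℤ :=
  (1 + Polynomial.X) ^ n * ∏ j : Fin r, (1 - Polynomial.X ^ (d j))

/-- For all coefficient vectors in a nonempty Zariski-open set (the complement of the zero
set of a nonzero polynomial `P`; such sets form a base) the Hilbert function of the quotient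
by the ideal is `h`. -/
def GenericHilbert (K : Type*) [Field K] (n : ℕ) {r : ℕ} (d : Fin r → ℕ) (h : ℕ → ℤ) : Prop :=
  ∃ P : MvPolynomial (Σ j : Fin r, Mon n (d j)) K, P ≠ 0 ∧
    ∀ c : (Σ j : Fin r, Mon n (d j)) → K, eval c P ≠ 0 →
      ∀ i : ℕ, (hilb (genIdeal d c) i : ℤ) = h i

/-- Question Q1 over the field `K`. -/
def Q1 (K : Type*) [Field K] : Prop :=
  ∀ (n r : ℕ) (d : Fin r → ℕ), 1 ≤ n → 1 ≤ r → (∀ j, 0 < d j) →
    GenericHilbert K n d (trunc fun i => (series n d).coeff i)

/-! ### The functional -/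

section functional

variable {K : Type*} [Field K] {n : ℕ}

/-- exponent vector of a square-free monomial -/
def ind (s : Finset (Fin n)) : Fin n →₀ ℕ := ∑ i ∈ s, Finsupp.single i 1

lemma ind_apply (s : Finset (Fin n)) (i : Fin n) : ind s i = if i ∈ s then 1 else 0 := by
  classical
  unfold ind
  rw [Finsupp.finsetSum_apply]
  simp only [Finsupp.single_apply]
  rw [Finset.sum_ite_eq' s i]

/-- weight of a square-free monomial -/
def W (a t : Fin n → K) (s : Finset (Fin n)) : K :=
  ∏ i ∈ s, (1 / (a i * ∏ j ∈ Finset.univ.erase i, (t i - t j)) * ∏ j ∈ s.erase i, (t i - t j))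

/-- value of the functional on a monomial -/
def phi (k : ℕ) (a t : Fin n → K) (m : Fin n →₀ ℕ) : K :=
  if (∀ i, m i ≤ 1) ∧ m.support.card = k then W a t m.support else 0

/-- the functional on polynomials -/
def Phi (k : ℕ) (a t : Fin n → K) : MvPolynomial (Fin n) K →ₗ[K] K :=
  (MvPolynomial.basisMonomials (Fin n) K).constr K (phi k a t)

lemma Phi_monomial (k : ℕ) (a t : Fin n → K) (m : Fin n →₀ ℕ) :
    Phi k a t (monomial m 1) = phi k a t m := by
  have h := (MvPolynomial.basisMonomials (Fin n) K).constr_basis K (phi k a t) m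
  rw [MvPolynomial.coe_basisMonomials] at h
  exact h

lemma W_insert (a t : Fin n → K) (u : Finset (Fin n)) (i : Fin n) (hi : i ∉ u) :
    W a t (insert i u) =
      (1 / (a i * ∏ j ∈ Finset.univ.erase i, (t i - t j)) *
        ∏ j ∈ u, ((t i - t j) * (t j - t i))) * W a t u := by
  unfold W
  rw [Finset.prod_insert hi, Finset.erase_insert hi]
  have h1 : ∀ l ∈ u, (1 / (a l * ∏ j ∈ Finset.univ.erase l, (t l - t j)) *
      ∏ j ∈ (insert i u).erase l, (t l - t j)) =
      (t l - t i) * (1 / (a l * ∏ j ∈ Finset.univ.erase l, (t l - t j)) *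
      ∏ j ∈ u.erase l, (t l - t j)) := by
    intro l hl
    have hne : i ≠ l := fun h => hi (h ▸ hl)
    rw [Finset.erase_insert_of_ne hne, Finset.prod_insert (fun h => hi (Finset.mem_of_mem_erase h))]
    ring
  rw [Finset.prod_congr rfl h1, Finset.prod_mul_distrib,
    Finset.prod_mul_distrib (f := fun j => t i - t j) (g := fun j => t j - t i)]
  ring

lemma W_ne_zero {a t : Fin n → K} (ha : ∀ i, a i ≠ 0) (ht : Function.Injective t)
    (s : Finset (Fin n)) : W a t s ≠ 0 := by
  unfold W
  rw [Finset.prod_ne_zero_iff]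
  intro i _
  have h : ∀ (q : Finset (Fin n)), i ∉ q → ∏ j ∈ q, (t i - t j) ≠ 0 := by
    intro q hq
    rw [Finset.prod_ne_zero_iff]
    intro j hj hz
    exact hq (ht (sub_eq_zero.1 hz) ▸ hj)
  exact mul_ne_zero (one_div_ne_zero (mul_ne_zero (ha i) (h _ (by simp)))) (h _ (by simp))

open Polynomial in
/-- Lagrange interpolation: sums of values of a polynomial of small degree. -/
lemma lagrange_sum {t : Fin n → K} (ht : Function.Injective t) (P : Polynomial K)
    (hP : P.natDegree + 1 < n) :
    ∑ i, P.eval (t i) / ∏ j ∈ Finset.univ.erase i, (t i - t j) = 0 := by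
  have h := Lagrange.coeff_eq_sum (s := (Finset.univ : Finset (Fin n))) (v := t)
    (ht.injOn) (P := P) (by
      refine lt_of_le_of_lt Polynomial.degree_le_natDegree ?_
      simp only [Finset.card_univ, Fintype.card_fin]
      exact_mod_cast (by omega : P.natDegree < n))
  rw [← h]
  apply Polynomial.coeff_eq_zero_of_natDegree_lt
  simp only [Finset.card_univ, Fintype.card_fin]
  omega

/-- The functional kills the multiples of a linear form whose coefficient vector is
`a_i t_i^e`, `e ≤ 1`. -/
lemma phi_linear {k : ℕ} (hk : 2 * k + 1 ≤ n) {a t : Fin n → K} (ha : ∀ i, a i ≠ 0)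
    (ht : Function.Injective t) (e : ℕ) (he : e ≤ 1) (m : Fin n →₀ ℕ) :
    ∑ i, (a i * t i ^ e) * phi k a t (m + Finsupp.single i 1) = 0 := by
  classical
  by_cases h1 : ∀ i, m i ≤ 1
  · by_cases h2 : m.support.card + 1 = k
    · set u := m.support with hu
      have hterm : ∀ i, (a i * t i ^ e) * phi k a t (m + Finsupp.single i 1) =
          W a t u * ((t i ^ e * ∏ j ∈ u, ((t i - t j) * (t j - t i))) /
            ∏ j ∈ Finset.univ.erase i, (t i - t j)) := by
        intro i
        by_cases hi : i ∈ u
        · have hz : ∏ j ∈ u, ((t i - t j) * (t j - t i)) = 0 :=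
            Finset.prod_eq_zero hi (by simp)
          rw [hz]
          have hph : phi k a t (m + Finsupp.single i 1) = 0 := by
            unfold phi
            rw [if_neg]
            rintro ⟨hc, -⟩
            have := hc i
            simp only [Finsupp.add_apply, Finsupp.single_eq_same] at this
            have h3 : m i ≠ 0 := Finsupp.mem_support_iff.1 hi
            omega
          rw [hph]
          simp
        · have hsup : (m + Finsupp.single i 1).support = insert i u := by
            ext j
            simp only [Finsupp.mem_support_iff, Finsupp.add_apply, Finset.mem_insert, hu,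
              Finsupp.single_apply]
            by_cases hij : i = j
            · subst hij; simp
            · simp [hij, Ne.symm hij]
          have hmi : m i = 0 := by
            by_contra h
            exact hi (Finsupp.mem_support_iff.2 h)
          have hph : phi k a t (m + Finsupp.single i 1) = W a t (insert i u) := by
            unfold phi
            rw [hsup, if_pos]
            refine ⟨?_, ?_⟩
            · intro j
              simp only [Finsupp.add_apply, Finsupp.single_apply]
              by_cases hij : i = j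
              · subst hij; simp [hmi]
              · simp [hij, h1 j]
            · rw [Finset.card_insert_of_notMem hi]; exact h2
          rw [hph, W_insert a t u i hi]
          have hai := ha i
          field_simp
      rw [Finset.sum_congr rfl (fun i _ => hterm i), ← Finset.mul_sum]
      have hL := lagrange_sum ht
        (Polynomial.X ^ e * ∏ j ∈ u, ((Polynomial.X - Polynomial.C (t j)) *
          (Polynomial.C (t j) - Polynomial.X))) (by
        have hd : (Polynomial.X ^ e * ∏ j ∈ u, ((Polynomial.X - Polynomial.C (t j)) *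
          (Polynomial.C (t j) - Polynomial.X)) : Polynomial K).natDegree ≤ e + ∑ j ∈ u, 2 := by
          refine le_trans Polynomial.natDegree_mul_le ?_
          refine add_le_add (by simp) ?_
          refine le_trans (Polynomial.natDegree_prod_le _ _) ?_
          refine Finset.sum_le_sum ?_
          intro j _
          refine le_trans Polynomial.natDegree_mul_le ?_
          have e1 : (Polynomial.X - Polynomial.C (t j) : Polynomial K).natDegree ≤ 1 :=
            Polynomial.natDegree_X_sub_C_le _
          have e2 : (Polynomial.C (t j) - Polynomial.X : Polynomial K).natDegree ≤ 1 := by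
            rw [Polynomial.natDegree_sub]
            exact Polynomial.natDegree_X_sub_C_le _
          omega
        simp only [Finset.sum_const, smul_eq_mul] at hd
        omega)
      simp only [Polynomial.eval_mul, Polynomial.eval_pow, Polynomial.eval_X,
        Polynomial.eval_prod, Polynomial.eval_sub, Polynomial.eval_C] at hL
      rw [hL, mul_zero]
    · apply Finset.sum_eq_zero
      intro i _
      have hph : phi k a t (m + Finsupp.single i 1) = 0 := by
        unfold phi
        rw [if_neg]
        rintro ⟨hc, hcard⟩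
        have hmi : m i = 0 := by
          have := hc i
          simp only [Finsupp.add_apply, Finsupp.single_eq_same] at this
          omega
        have hi : i ∉ m.support := by
          simp [hmi]
        have hsup : (m + Finsupp.single i 1).support = insert i m.support := by
          ext j
          simp only [Finsupp.mem_support_iff, Finsupp.add_apply, Finset.mem_insert,
            Finsupp.single_apply]
          by_cases hij : i = j
          · subst hij; simp
          · simp [hij, Ne.symm hij]
        rw [hsup, Finset.card_insert_of_notMem hi] at hcard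
        exact h2 hcard
      rw [hph, mul_zero]
  · apply Finset.sum_eq_zero
    intro i _
    have hph : phi k a t (m + Finsupp.single i 1) = 0 := by
      unfold phi
      rw [if_neg]
      rintro ⟨hc, -⟩
      apply h1
      intro j
      have := hc j
      simp only [Finsupp.add_apply] at this
      omega
    rw [hph, mul_zero]

/-- a form of large degree is killed -/
lemma Phi_form_high {k : ℕ} (a t : Fin n → K) (s : Finset (Fin n)) (hs : k < s.card)
    (m : Fin n →₀ ℕ) : phi k a t (m + ind s) = 0 := by
  unfold phi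
  rw [if_neg]
  rintro ⟨-, hcard⟩
  have hsub : s ⊆ (m + ind s).support := by
    intro i hi
    rw [Finsupp.mem_support_iff, Finsupp.add_apply, ind_apply, if_pos hi]
    omega
  have := Finset.card_le_card hsub
  omega

lemma prod_X_eq (s : Finset (Fin n)) :
    (∏ i ∈ s, (X i : MvPolynomial (Fin n) K)) = monomial (ind s) 1 := by
  unfold ind
  rw [MvPolynomial.monomial_sum_one]
  rfl

lemma Phi_eq_zero_of_monomial {k : ℕ} {a t : Fin n → K} (F : MvPolynomial (Fin n) K)
    (h : ∀ m : Fin n →₀ ℕ, Phi k a t (monomial m 1 * F) = 0) (G : MvPolynomial (Fin n) K) :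
    Phi k a t (G * F) = 0 := by
  induction G using MvPolynomial.induction_on' with
  | monomial m c =>
    have : (monomial m c : MvPolynomial (Fin n) K) = c • monomial m 1 := by
      rw [MvPolynomial.smul_monomial, smul_eq_mul, mul_one]
    rw [this, smul_mul_assoc, map_smul, h m, smul_zero]
  | add p q hp hq => rw [add_mul, map_add, hp, hq, add_zero]

lemma Phi_sq (k : ℕ) (a t : Fin n → K) (i : Fin n) (G : MvPolynomial (Fin n) K) :
    Phi k a t (G * X i ^ 2) = 0 := by
  apply Phi_eq_zero_of_monomial
  intro m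
  have : (monomial m 1 * X i ^ 2 : MvPolynomial (Fin n) K) =
      monomial (m + Finsupp.single i 2) 1 := by
    rw [MvPolynomial.X_pow_eq_monomial, MvPolynomial.monomial_mul, one_mul]
  rw [this, Phi_monomial]
  unfold phi
  rw [if_neg]
  rintro ⟨hc, -⟩
  have := hc i
  simp only [Finsupp.add_apply, Finsupp.single_eq_same] at this
  omega

lemma Phi_sqIdeal (k : ℕ) (a t : Fin n → K) (G : MvPolynomial (Fin n) K)
    (hG : G ∈ sqIdeal K n) : Phi k a t G = 0 := by
  unfold sqIdeal at hG
  rw [Ideal.span, Submodule.mem_span_range_iff_exists_fun] at hG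
  obtain ⟨g, rfl⟩ := hG
  rw [map_sum]
  apply Finset.sum_eq_zero
  intro i _
  rw [smul_eq_mul]
  exact Phi_sq k a t i (g i)

/-- the functional on the square-free algebra -/
def PhiQ (k : ℕ) (a t : Fin n → K) : SqAlg K n →ₗ[K] K :=
  Submodule.liftQ ((sqIdeal K n).restrictScalars K) (Phi k a t) (by
    intro G hG
    rw [LinearMap.mem_ker]
    exact Phi_sqIdeal k a t G hG)

lemma PhiQ_mk (k : ℕ) (a t : Fin n → K) (G : MvPolynomial (Fin n) K) :
    PhiQ k a t (Ideal.Quotient.mk (sqIdeal K n) G) = Phi k a t G := rfl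

/-- bijection between variables and square-free monomials of degree one -/
def sing {d : ℕ} (hd : d = 1) (i : Fin n) : Mon n d := ⟨{i}, by rw [Finset.card_singleton, hd]⟩

lemma sing_bij {d : ℕ} (hd : d = 1) : Function.Bijective (sing (n := n) hd) := by
  constructor
  · intro i j h
    have := congrArg Subtype.val h
    simpa [sing] using this
  · rintro ⟨s, hs⟩
    obtain ⟨i, rfl⟩ := Finset.card_eq_one.1 (hs.trans hd)
    exact ⟨i, rfl⟩

lemma Phi_form_one {k : ℕ} (hk : 2 * k + 1 ≤ n) {a t : Fin n → K} (ha : ∀ i, a i ≠ 0)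
    (ht : Function.Injective t) (e : ℕ) (he : e ≤ 1) {d : ℕ} (hd : d = 1) (c : Mon n d → K)
    (hc : ∀ i, c (sing hd i) = a i * t i ^ e) (G : MvPolynomial (Fin n) K) :
    Phi k a t (G * ∑ s : Mon n d, C (c s) * ∏ i ∈ s.1, X i) = 0 := by
  apply Phi_eq_zero_of_monomial
  intro m
  rw [← (Equiv.ofBijective _ (sing_bij (n := n) hd)).sum_comp, Finset.mul_sum, map_sum]
  rw [← phi_linear hk ha ht e he m]
  apply Finset.sum_congr rfl
  intro i _
  have h1 : (Equiv.ofBijective (sing (n := n) hd) (sing_bij hd)) i = sing hd i := rfl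
  rw [h1, hc i]
  have h2 : (monomial m 1 * (C (a i * t i ^ e) * ∏ l ∈ (sing (n := n) hd i).1, X l) :
      MvPolynomial (Fin n) K) = (a i * t i ^ e) • monomial (m + Finsupp.single i 1) 1 := by
    have h3 : (∏ l ∈ (sing (n := n) hd i).1, X l : MvPolynomial (Fin n) K) = X i := by
      simp [sing]
    rw [h3, MvPolynomial.smul_eq_C_mul, MvPolynomial.monomial_add_single, pow_one]
    ring
  rw [h2, map_smul, Phi_monomial, smul_eq_mul]

lemma Phi_form_big {k : ℕ} {a t : Fin n → K} {d : ℕ} (hd : k < d) (c : Mon n d → K)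
    (G : MvPolynomial (Fin n) K) :
    Phi k a t (G * ∑ s : Mon n d, C (c s) * ∏ i ∈ s.1, X i) = 0 := by
  apply Phi_eq_zero_of_monomial
  intro m
  rw [Finset.mul_sum, map_sum]
  apply Finset.sum_eq_zero
  intro s _
  have h2 : (monomial m 1 * (C (c s) * ∏ l ∈ s.1, X l) : MvPolynomial (Fin n) K) =
      (c s) • monomial (m + ind s.1) 1 := by
    rw [prod_X_eq, MvPolynomial.smul_eq_C_mul]
    have : (monomial (m + ind s.1) 1 : MvPolynomial (Fin n) K) =
      monomial m 1 * monomial (ind s.1) 1 := by rw [MvPolynomial.monomial_mul, one_mul]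
    rw [this]
    ring
  rw [h2, map_smul, Phi_monomial, Phi_form_high a t s.1 (by rw [s.2]; exact hd), smul_zero]

end functional

/-! ### Nonvanishing of the degree `k` component -/

lemma finrank_ne_zero_aux {K V : Type*} [Field K] [AddCommGroup V] [Module K V]
    (S : Submodule K V) [Module.Finite K S] (z : V) (hz : z ∈ S) (h : z ≠ 0) :
    Module.finrank K S ≠ 0 := by
  intro h0
  have h1 : S = ⊥ := Submodule.finrank_eq_zero.1 h0
  rw [h1, Submodule.mem_bot] at hz
  exact h hz

section nonvanishing

variable {K : Type*} [Field K] {n : ℕ}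

lemma hilb_ne_zero {r k : ℕ} (hk : 2 * k + 1 ≤ n) (d : Fin r → ℕ) (j0 j1 : Fin r)
    (hd0 : d j0 = 1) (hd1 : d j1 = 1) (hbig : ∀ j, j ≠ j0 → j ≠ j1 → k < d j)
    (c : (Σ j : Fin r, Mon n (d j)) → K)
    (hc0 : ∀ i, c ⟨j0, sing hd0 i⟩ ≠ 0)
    (hc1 : Function.Injective fun i => c ⟨j1, sing hd1 i⟩ / c ⟨j0, sing hd0 i⟩) :
    hilb (genIdeal d c) k ≠ 0 := by
  classical
  set a : Fin n → K := fun i => c ⟨j0, sing hd0 i⟩ with ha
  set t : Fin n → K := fun i => c ⟨j1, sing hd1 i⟩ / c ⟨j0, sing hd0 i⟩ with ht
  -- the functional kills the ideal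
  have hkill : ∀ y ∈ genIdeal d c, PhiQ k a t y = 0 := by
    intro y hy
    unfold genIdeal at hy
    rw [Ideal.span, Submodule.mem_span_range_iff_exists_fun] at hy
    obtain ⟨g, rfl⟩ := hy
    rw [map_sum]
    apply Finset.sum_eq_zero
    intro j _
    obtain ⟨G, hG⟩ := Ideal.Quotient.mk_surjective (g j)
    rw [← hG, smul_eq_mul]
    unfold form
    rw [← map_mul, PhiQ_mk]
    by_cases h0 : j = j0
    · subst h0
      exact Phi_form_one hk hc0 hc1 0 (by norm_num) hd0 _ (by intro i; simp) G
    · by_cases h1 : j = j1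
      · subst h1
        refine Phi_form_one hk hc0 hc1 1 (by norm_num) hd1 _ ?_ G
        intro i
        have := hc0 i
        simp only [pow_one, ht]
        field_simp
      · exact Phi_form_big (hbig j h0 h1) _ G
  -- a square-free monomial of degree k
  obtain ⟨s, hs⟩ : ∃ s : Finset (Fin n), s.card = k := by
    obtain ⟨s, -, hs⟩ := Finset.exists_subset_card_eq (s := (Finset.univ : Finset (Fin n)))
      (n := k) (by simp; omega)
    exact ⟨s, hs⟩
  set M : MvPolynomial (Fin n) K := monomial (ind s) 1 with hM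
  have hMval : Phi k a t M ≠ 0 := by
    rw [hM, Phi_monomial]
    unfold phi
    have hsup : (ind s).support = s := by
      ext i
      rw [Finsupp.mem_support_iff, ind_apply]
      by_cases hi : i ∈ s <;> simp [hi]
    rw [if_pos]
    · rw [hsup]; exact W_ne_zero hc0 hc1 s
    · refine ⟨?_, by rw [hsup]; exact hs⟩
      intro i
      rw [ind_apply]
      split_ifs <;> omega
  set z : SqAlg K n ⧸ genIdeal d c :=
    Ideal.Quotient.mk (genIdeal d c) (Ideal.Quotient.mk (sqIdeal K n) M) with hz
  have hzne : z ≠ 0 := by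
    intro h0
    rw [hz, Ideal.Quotient.eq_zero_iff_mem] at h0
    have := hkill _ h0
    rw [PhiQ_mk] at this
    exact hMval this
  have hMhom : M ∈ homogeneousSubmodule (Fin n) K k := by
    rw [mem_homogeneousSubmodule]
    apply MvPolynomial.isHomogeneous_monomial
    rw [← hs]
    unfold ind
    simp
  have hzmem : z ∈ gradedPart (genIdeal d c) k := by
    unfold gradedPart
    exact Submodule.mem_map.2 ⟨_, Submodule.mem_map.2 ⟨M, hMhom, rfl⟩, rfl⟩
  have hfin : Module.Finite K (gradedPart (genIdeal d c) k) := by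
    unfold gradedPart
    rw [Module.Finite.iff_fg]
    exact ((homogeneousSubmodule_fg (Fin n) K k).map _).map _
  unfold hilb
  exact finrank_ne_zero_aux _ z hzmem hzne

end nonvanishing

/-! ### The predicted coefficient -/

section predicted

lemma coeff_mul_prod_one_sub (P : Polynomial ℤ) (k : ℕ) {ι : Type*} (S : Finset ι) (d : ι → ℕ)
    (hd : ∀ j ∈ S, k < d j) :
    (P * ∏ j ∈ S, (1 - Polynomial.X ^ (d j))).coeff k = P.coeff k := by
  classical
  induction S using Finset.induction_on with
  | empty => simp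
  | insert j S hj ih =>
    rw [Finset.prod_insert hj]
    have h1 : P * ((1 - Polynomial.X ^ (d j)) * ∏ j ∈ S, (1 - Polynomial.X ^ (d j))) =
        P * ∏ j ∈ S, (1 - Polynomial.X ^ (d j)) - (P * ∏ j ∈ S, (1 - Polynomial.X ^ (d j))) * Polynomial.X ^ (d j) := by ring
    rw [h1, Polynomial.coeff_sub, Polynomial.coeff_mul_X_pow', if_neg, sub_zero]
    · exact ih (fun l hl => hd l (Finset.mem_insert_of_mem hl))
    · have := hd j (Finset.mem_insert_self _ _)
      omega

lemma coeff_one_sub_sq (n k : ℕ) :
    (((1 + Polynomial.X) ^ n * ((1 - Polynomial.X) * (1 - Polynomial.X)) : Polynomial ℤ)).coeff (k + 2) =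
      (n.choose (k + 2) : ℤ) - 2 * n.choose (k + 1) + n.choose k := by
  have h1 : ((1 + Polynomial.X) ^ n * ((1 - Polynomial.X) * (1 - Polynomial.X)) : Polynomial ℤ) =
      (1 + Polynomial.X) ^ n - 2 * ((1 + Polynomial.X) ^ n * Polynomial.X ^ 1) + (1 + Polynomial.X) ^ n * Polynomial.X ^ 2 := by ring
  rw [h1, Polynomial.coeff_add, Polynomial.coeff_sub, Polynomial.coeff_mul_X_pow',
    Polynomial.coeff_ofNat_mul, Polynomial.coeff_mul_X_pow', if_pos (by omega),
    if_pos (by omega)]
  simp only [Polynomial.coeff_one_add_X_pow]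
  norm_num

/-- the binomial inequality, `N = 2k+1`, `k ≥ 3` or `N = 2k+2`, `k ≥ 6` -/
lemma binom_le (N k : ℕ) (h : (N = 2 * k + 1 ∧ 3 ≤ k) ∨ (N = 2 * k + 2 ∧ 6 ≤ k)) :
    (N.choose k : ℤ) - 2 * N.choose (k - 1) + N.choose (k - 2) ≤ 0 := by
  obtain ⟨l, rfl⟩ : ∃ l, k = l + 2 := ⟨k - 2, by omega⟩
  have e1 : l + 2 - 1 = l + 1 := by omega
  have e2 : l + 2 - 2 = l := by omega
  rw [e1, e2]
  have h1 := Nat.choose_succ_right_eq N (l + 1)
  have h2 := Nat.choose_succ_right_eq N l
  set A := N.choose (l + 2) with hA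
  set B := N.choose (l + 1) with hB
  set D := N.choose l with hD
  rcases h with ⟨hN, hk⟩ | ⟨hN, hk⟩
  · have n1 : N - (l + 1) = l + 4 := by omega
    have n2 : N - l = l + 5 := by omega
    rw [n1] at h1
    rw [n2] at h2
    have g1 : (A : ℤ) * (l + 2) = B * (l + 4) := by exact_mod_cast h1
    have g2 : (B : ℤ) * (l + 1) = D * (l + 5) := by exact_mod_cast h2
    have hl : (1 : ℤ) ≤ l := by exact_mod_cast (by omega : 1 ≤ l)
    have hD0 : (0 : ℤ) ≤ D := by positivity
    have key : ((A : ℤ) - 2 * B + D) * ((l + 1) * (l + 2)) = D * (2 - 2 * l) := by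
      have : ((A : ℤ) - 2 * B + D) * ((l + 1) * (l + 2)) =
        (A * (l + 2)) * (l + 1) - 2 * (B * (l + 1)) * (l + 2) + D * ((l + 1) * (l + 2)) := by
        ring
      rw [this, g1]
      have : (B : ℤ) * (l + 4) * (l + 1) = (B * (l + 1)) * (l + 4) := by ring
      rw [this, g2]
      ring
    have hneg : (D : ℤ) * (2 - 2 * l) ≤ 0 :=
      mul_nonpos_of_nonneg_of_nonpos hD0 (by linarith)
    rw [← key] at hneg
    by_contra hpos
    push Not at hpos
    have : (0 : ℤ) < ((A : ℤ) - 2 * B + D) * ((l + 1) * (l + 2)) := by positivity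
    omega
  · have n1 : N - (l + 1) = l + 5 := by omega
    have n2 : N - l = l + 6 := by omega
    rw [n1] at h1
    rw [n2] at h2
    have g1 : (A : ℤ) * (l + 2) = B * (l + 5) := by exact_mod_cast h1
    have g2 : (B : ℤ) * (l + 1) = D * (l + 6) := by exact_mod_cast h2
    have hl : (4 : ℤ) ≤ l := by exact_mod_cast (by omega : 4 ≤ l)
    have hD0 : (0 : ℤ) ≤ D := by positivity
    have key : ((A : ℤ) - 2 * B + D) * ((l + 1) * (l + 2)) = D * (8 - 2 * l) := by
      have : ((A : ℤ) - 2 * B + D) * ((l + 1) * (l + 2)) =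
        (A * (l + 2)) * (l + 1) - 2 * (B * (l + 1)) * (l + 2) + D * ((l + 1) * (l + 2)) := by
        ring
      rw [this, g1]
      have : (B : ℤ) * (l + 5) * (l + 1) = (B * (l + 1)) * (l + 5) := by ring
      rw [this, g2]
      ring
    have hneg : (D : ℤ) * (8 - 2 * l) ≤ 0 :=
      mul_nonpos_of_nonneg_of_nonpos hD0 (by linarith)
    rw [← key] at hneg
    by_contra hpos
    push Not at hpos
    have : (0 : ℤ) < ((A : ℤ) - 2 * B + D) * ((l + 1) * (l + 2)) := by positivity
    omega

/-- the predicted truncated series has zero coefficient in degree `k` -/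
lemma trunc_series_eq_zero {n k r : ℕ}
    (h : (n = 2 * k + 1 ∧ 3 ≤ k) ∨ (n = 2 * k + 2 ∧ 6 ≤ k)) (d : Fin r → ℕ) (j0 j1 : Fin r)
    (h01 : j0 ≠ j1) (hd0 : d j0 = 1) (hd1 : d j1 = 1)
    (hbig : ∀ j, j ≠ j0 → j ≠ j1 → k < d j) :
    trunc (fun i => (series n d).coeff i) k = 0 := by
  classical
  have hcoef : (series n d).coeff k ≤ 0 := by
    unfold series
    have hprod : ∏ j : Fin r, (1 - Polynomial.X ^ (d j) : Polynomial ℤ) =
        ((1 - Polynomial.X) * (1 - Polynomial.X)) * ∏ j ∈ (Finset.univ.erase j0).erase j1, (1 - Polynomial.X ^ (d j)) := by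
      rw [← Finset.mul_prod_erase Finset.univ _ (Finset.mem_univ j0),
        ← Finset.mul_prod_erase (Finset.univ.erase j0) _
          (Finset.mem_erase.2 ⟨h01.symm, Finset.mem_univ j1⟩), hd0, hd1]
      ring
    rw [hprod, ← mul_assoc, coeff_mul_prod_one_sub]
    · obtain ⟨l, rfl⟩ : ∃ l, k = l + 2 := ⟨k - 2, by omega⟩
      rw [coeff_one_sub_sq]
      exact binom_le n (l + 2) h
    · intro j hj
      rw [Finset.mem_erase, Finset.mem_erase] at hj
      exact hbig j hj.2.1 hj.1
  unfold trunc
  split_ifs with hc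
  · exact absurd (hc k le_rfl) (not_lt.2 hcoef)
  · rfl

end predicted

/-! ### Positive characteristic -/

section poschar

variable {K : Type*} [Field K] {n : ℕ}

/-- the degree `i` component of the square-free algebra -/
def A (K : Type*) [Field K] (n i : ℕ) : Submodule K (SqAlg K n) :=
  (homogeneousSubmodule (Fin n) K i).map (Ideal.Quotient.mkₐ K (sqIdeal K n)).toLinearMap

instance A_finite (i : ℕ) : Module.Finite K (A K n i) := by
  unfold A
  rw [Module.Finite.iff_fg]
  exact (homogeneousSubmodule_fg (Fin n) K i).map _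

lemma coeff_ind_sqIdeal (s : Finset (Fin n)) (G : MvPolynomial (Fin n) K)
    (hG : G ∈ sqIdeal K n) : coeff (ind s) G = 0 := by
  classical
  unfold sqIdeal at hG
  rw [Ideal.span, Submodule.mem_span_range_iff_exists_fun] at hG
  obtain ⟨g, rfl⟩ := hG
  rw [coeff_sum]
  apply Finset.sum_eq_zero
  intro i _
  rw [smul_eq_mul, MvPolynomial.X_pow_eq_monomial, MvPolynomial.coeff_mul_monomial', if_neg]
  intro hle
  have := hle i
  rw [Finsupp.single_eq_same, ind_apply] at this
  split_ifs at this <;> omega

/-- a monomial which is not square-free is in the ideal -/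
lemma monomial_mem_sqIdeal (m : Fin n →₀ ℕ) (i : Fin n) (hi : 2 ≤ m i) (c : K) :
    (monomial m c : MvPolynomial (Fin n) K) ∈ sqIdeal K n := by
  have h1 : m = (m - Finsupp.single i 2) + Finsupp.single i 2 := by
    ext j
    simp only [Finsupp.add_apply, Finsupp.tsub_apply, Finsupp.single_apply]
    by_cases hij : i = j
    · subst hij; simp; omega
    · simp [hij]
  rw [h1, MvPolynomial.monomial_add_single]
  exact Ideal.mul_mem_left _ _ (Ideal.subset_span ⟨i, rfl⟩)

lemma eq_ind_of_le_one (m : Fin n →₀ ℕ) (h : ∀ i, m i ≤ 1) : m = ind m.support := by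
  ext i
  rw [ind_apply]
  by_cases hi : i ∈ m.support
  · rw [if_pos hi]
    have := h i
    have h2 := Finsupp.mem_support_iff.1 hi
    omega
  · rw [if_neg hi]
    by_contra h0
    exact hi (Finsupp.mem_support_iff.2 h0)

lemma degree_ind (s : Finset (Fin n)) : (ind s).degree = s.card := by
  unfold ind
  rw [map_sum]
  simp

/-- coefficient vector to form, as a linear map -/
def E (K : Type*) [Field K] (n i : ℕ) : (Mon n i → K) →ₗ[K] SqAlg K n where
  toFun c := form i c
  map_add' c c' := by
    unfold form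
    rw [← map_add, ← Finset.sum_add_distrib]
    congr 1
    apply Finset.sum_congr rfl
    intro s _
    rw [Pi.add_apply, C_add, add_mul]
  map_smul' a c := by
    unfold form
    have : (∑ s : Mon n i, C ((a • c) s) * ∏ i ∈ s.1, X i : MvPolynomial (Fin n) K) =
        a • ∑ s : Mon n i, C (c s) * ∏ i ∈ s.1, X i := by
      rw [Finset.smul_sum]
      apply Finset.sum_congr rfl
      intro s _
      rw [Pi.smul_apply, smul_eq_mul, C_mul, MvPolynomial.smul_eq_C_mul, mul_assoc]
    rw [this]
    exact map_smul (Ideal.Quotient.mkₐ K (sqIdeal K n)) a _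

lemma coeff_form_poly (i : ℕ) (c : Mon n i → K) (m : Fin n →₀ ℕ) :
    coeff m (∑ s : Mon n i, C (c s) * ∏ l ∈ s.1, X l : MvPolynomial (Fin n) K) =
      ∑ s : Mon n i, if ind s.1 = m then c s else 0 := by
  classical
  rw [coeff_sum]
  apply Finset.sum_congr rfl
  intro s _
  rw [prod_X_eq, coeff_C_mul, coeff_monomial]
  split_ifs <;> simp

lemma ind_injective : Function.Injective (ind (n := n)) := by
  intro s t h
  ext i
  have := DFunLike.congr_fun h i
  rw [ind_apply, ind_apply] at this
  by_cases h1 : i ∈ s <;> by_cases h2 : i ∈ t <;> simp_all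

lemma E_injective (i : ℕ) : Function.Injective (E K n i) := by
  classical
  rw [← LinearMap.ker_eq_bot, LinearMap.ker_eq_bot']
  intro c hc
  have h1 : (∑ s : Mon n i, C (c s) * ∏ l ∈ s.1, X l : MvPolynomial (Fin n) K) ∈
      sqIdeal K n := Ideal.Quotient.eq_zero_iff_mem.1 hc
  funext s
  have h2 := coeff_ind_sqIdeal s.1 _ h1
  rw [coeff_form_poly] at h2
  rw [Finset.sum_eq_single s] at h2
  · simpa using h2
  · intro t _ hts
    rw [if_neg]
    intro h
    exact hts (Subtype.ext (ind_injective h))
  · intro h; exact absurd (Finset.mem_univ s) h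

lemma form_mem_A (i : ℕ) (c : Mon n i → K) : form i c ∈ A K n i := by
  unfold A form
  refine Submodule.mem_map.2 ⟨_, ?_, rfl⟩
  apply Submodule.sum_mem
  intro s _
  rw [prod_X_eq, MvPolynomial.C_mul_monomial, mul_one, mem_homogeneousSubmodule]
  apply MvPolynomial.isHomogeneous_monomial
  rw [degree_ind, s.2]

lemma range_E (i : ℕ) : LinearMap.range (E K n i) = A K n i := by
  classical
  apply le_antisymm
  · rintro _ ⟨c, rfl⟩
    exact form_mem_A i c
  · unfold A
    rw [Submodule.map_le_iff_le_comap]
    intro f hf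
    rw [mem_homogeneousSubmodule] at hf
    rw [Submodule.mem_comap]
    rw [f.as_sum, map_sum]
    apply Submodule.sum_mem
    intro m hm
    have hdeg : m.degree = i := by
      have := hf (mem_support_iff.1 hm)
      rwa [Finsupp.degree_eq_weight_one]
    by_cases h1 : ∀ l, m l ≤ 1
    · have h2 := eq_ind_of_le_one m h1
      have hcard : m.support.card = i := by
        rw [← degree_ind, ← h2, hdeg]
      refine ⟨fun s => if s.1 = m.support then coeff m f else 0, ?_⟩
      change Ideal.Quotient.mk (sqIdeal K n) _ = Ideal.Quotient.mk (sqIdeal K n) _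
      congr 1
      rw [Finset.sum_eq_single ⟨m.support, hcard⟩]
      · simp only [if_true]
        rw [prod_X_eq, ← h2, MvPolynomial.C_mul_monomial, mul_one]
      · intro t _ ht
        have h3 : ¬ t.1 = m.support := fun h => ht (Subtype.ext h)
        simp only [if_neg h3]
        rw [C_0, zero_mul]
      · intro h; exact absurd (Finset.mem_univ _) h
    · push Not at h1
      obtain ⟨l, hl⟩ := h1
      have : (Ideal.Quotient.mkₐ K (sqIdeal K n)).toLinearMap (monomial m (coeff m f)) = 0 :=
        Ideal.Quotient.eq_zero_iff_mem.2 (monomial_mem_sqIdeal m l hl _)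
      rw [this]
      exact Submodule.zero_mem _

lemma finrank_A (i : ℕ) : Module.finrank K (A K n i) = n.choose i := by
  rw [← range_E, LinearMap.finrank_range_of_inj (E_injective i), Module.finrank_fintype_fun_eq_card,
    Fintype.card_finset_len, Fintype.card_fin]

/-- elements of degree `i` are determined by their coefficients at the square-free monomials of
degree `i` -/
lemma A_eq_of_coeff (i : ℕ) (G G' : MvPolynomial (Fin n) K)
    (hG : Ideal.Quotient.mk (sqIdeal K n) G ∈ A K n i)
    (hG' : Ideal.Quotient.mk (sqIdeal K n) G' ∈ A K n i)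
    (h : ∀ s : Finset (Fin n), s.card = i → coeff (ind s) G = coeff (ind s) G') :
    Ideal.Quotient.mk (sqIdeal K n) G = Ideal.Quotient.mk (sqIdeal K n) G' := by
  classical
  have hsub : Ideal.Quotient.mk (sqIdeal K n) (G - G') ∈ A K n i := by
    rw [map_sub]; exact Submodule.sub_mem _ hG hG'
  rw [← range_E] at hsub
  obtain ⟨c, hc⟩ := hsub
  have h1 : (∑ s : Mon n i, C (c s) * ∏ l ∈ s.1, X l : MvPolynomial (Fin n) K) - (G - G') ∈
      sqIdeal K n := Ideal.Quotient.eq.1 hc
  have hc0 : c = 0 := by
    funext s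
    have h2 := coeff_ind_sqIdeal s.1 _ h1
    rw [coeff_sub, coeff_sub, h s.1 s.2, sub_self, sub_zero, coeff_form_poly,
      Finset.sum_eq_single s] at h2
    · simpa using h2
    · intro t _ hts
      rw [if_neg]
      intro h
      exact hts (Subtype.ext (ind_injective h))
    · intro h; exact absurd (Finset.mem_univ s) h
  rw [hc0, map_zero] at hc
  rw [map_sub] at hc
  exact sub_eq_zero.1 hc.symm

lemma mul_mem_A {i j : ℕ} {x y : SqAlg K n} (hx : x ∈ A K n i) (hy : y ∈ A K n j) :
    x * y ∈ A K n (i + j) := by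
  obtain ⟨G, hG, rfl⟩ := Submodule.mem_map.1 hx
  obtain ⟨F, hF, rfl⟩ := Submodule.mem_map.1 hy
  refine Submodule.mem_map.2 ⟨G * F, ?_, rfl⟩
  rw [mem_homogeneousSubmodule] at hG hF ⊢
  exact hG.mul hF

/-- the degree `i + d` part of the ideal generated by forms, one of degree `d` and the others
of degree larger than `i + d`, is `f * A_i` -/
lemma ideal_inf {r i : ℕ} (d : Fin r → ℕ) (j0 : Fin r)
    (hbig : ∀ j, j ≠ j0 → i + d j0 < d j)
    (c : (Σ j : Fin r, Mon n (d j)) → K) (x : SqAlg K n) (hx : x ∈ A K n (i + d j0))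
    (hxI : x ∈ genIdeal d c) :
    ∃ y ∈ A K n i, x = y * form (d j0) (fun s => c ⟨j0, s⟩) := by
  classical
  unfold genIdeal at hxI
  rw [Ideal.span, Submodule.mem_span_range_iff_exists_fun] at hxI
  obtain ⟨g, hg⟩ := hxI
  choose G hG using fun j => Ideal.Quotient.mk_surjective (g j)
  set F : Fin r → MvPolynomial (Fin n) K :=
    fun j => ∑ s : Mon n (d j), C (c ⟨j, s⟩) * ∏ l ∈ s.1, X l with hF
  have hx2 : x = Ideal.Quotient.mk (sqIdeal K n) (∑ j, G j * F j) := by
    rw [← hg, map_sum]
    apply Finset.sum_congr rfl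
    intro j _
    rw [map_mul, hG j]
    rfl
  have hFhom : ∀ j, (F j).IsHomogeneous (d j) := by
    intro j
    rw [← mem_homogeneousSubmodule]
    apply Submodule.sum_mem
    intro s _
    rw [prod_X_eq, MvPolynomial.C_mul_monomial, mul_one, mem_homogeneousSubmodule]
    apply MvPolynomial.isHomogeneous_monomial
    rw [degree_ind, s.2]
  refine ⟨Ideal.Quotient.mk (sqIdeal K n) (homogeneousComponent i (G j0)), ?_, ?_⟩
  · refine Submodule.mem_map.2 ⟨_, ?_, rfl⟩
    rw [mem_homogeneousSubmodule]
    exact homogeneousComponent_isHomogeneous _ _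
  · have hmul : Ideal.Quotient.mk (sqIdeal K n) (homogeneousComponent i (G j0)) *
        form (d j0) (fun s => c ⟨j0, s⟩) =
        Ideal.Quotient.mk (sqIdeal K n) (homogeneousComponent i (G j0) * F j0) := by
      rw [map_mul]; rfl
    rw [hmul]
    have hmem : Ideal.Quotient.mk (sqIdeal K n) (homogeneousComponent i (G j0) * F j0) ∈
        A K n (i + d j0) := by
      refine Submodule.mem_map.2 ⟨_, ?_, rfl⟩
      rw [mem_homogeneousSubmodule]
      exact (homogeneousComponent_isHomogeneous _ _).mul (hFhom j0)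
    rw [hx2]
    apply A_eq_of_coeff (i + d j0) _ _ (by rw [← hx2]; exact hx) hmem
    intro s hs
    rw [coeff_sum]
    have hzero : ∀ j, j ≠ j0 → coeff (ind s) (G j * F j) = 0 := by
      intro j hj
      rw [coeff_mul]
      apply Finset.sum_eq_zero
      rintro ⟨u, v⟩ huv
      rw [Finset.HasAntidiagonal.mem_antidiagonal] at huv
      have hdv : coeff v (F j) = 0 := by
        by_contra hne
        have h1 : v.degree = d j := by
          rw [Finsupp.degree_eq_weight_one]; exact hFhom j hne
        have h2 : (u + v).degree = u.degree + v.degree := map_add _ _ _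
        simp only at huv
        rw [huv, degree_ind, hs] at h2
        have := hbig j hj
        omega
      simp only
      rw [hdv, mul_zero]
    rw [Finset.sum_eq_single j0 (fun j _ hj => hzero j hj)
      (fun h => absurd (Finset.mem_univ j0) h)]
    rw [coeff_mul, coeff_mul]
    apply Finset.sum_congr rfl
    rintro ⟨u, v⟩ huv
    rw [Finset.HasAntidiagonal.mem_antidiagonal] at huv
    simp only at huv ⊢
    by_cases hv : coeff v (F j0) = 0
    · rw [hv, mul_zero, mul_zero]
    · have h1 : v.degree = d j0 := by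
        rw [Finsupp.degree_eq_weight_one]; exact hFhom j0 hv
      have h2 : (u + v).degree = u.degree + v.degree := map_add _ _ _
      rw [huv, degree_ind, hs] at h2
      rw [coeff_homogeneousComponent, if_pos (by omega)]

/-- dimension count -/
lemma hilb_gt {r i : ℕ} (d : Fin r → ℕ) (j0 : Fin r)
    (hbig : ∀ j, j ≠ j0 → i + d j0 < d j)
    (c : (Σ j : Fin r, Mon n (d j)) → K) (x : SqAlg K n) (hx : x ∈ A K n i) (hx0 : x ≠ 0)
    (hfx : x * form (d j0) (fun s => c ⟨j0, s⟩) = 0) :
    n.choose (i + d j0) < hilb (genIdeal d c) (i + d j0) + n.choose i := by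
  set f : SqAlg K n := form (d j0) (fun s => c ⟨j0, s⟩) with hf
  -- multiplication by f on A_i
  set μ : SqAlg K n →ₗ[K] SqAlg K n := LinearMap.mulRight K f with hμ
  have h1 := (μ.domRestrict (A K n i)).finrank_range_add_finrank_ker
  have hker : 0 < Module.finrank K (LinearMap.ker (μ.domRestrict (A K n i))) := by
    refine Nat.pos_of_ne_zero ?_
    refine finrank_ne_zero_aux _ (⟨x, hx⟩ : A K n i) ?_ ?_
    · rw [LinearMap.mem_ker]
      exact hfx
    · intro h
      exact hx0 (congrArg Subtype.val h)
  rw [finrank_A] at h1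
  -- the projection
  set π : SqAlg K n →ₗ[K] SqAlg K n ⧸ genIdeal d c :=
    (Ideal.Quotient.mkₐ K (genIdeal d c)).toLinearMap with hπ
  have h2 := (π.domRestrict (A K n (i + d j0))).finrank_range_add_finrank_ker
  rw [finrank_A] at h2
  have hrange : LinearMap.range (π.domRestrict (A K n (i + d j0))) =
      gradedPart (genIdeal d c) (i + d j0) := by
    rw [LinearMap.range_domRestrict]
    rfl
  rw [hrange] at h2
  have hle : Module.finrank K (LinearMap.ker (π.domRestrict (A K n (i + d j0)))) ≤
      Module.finrank K (LinearMap.range (μ.domRestrict (A K n i))) := by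
    rw [← Submodule.finrank_map_subtype_eq]
    apply Submodule.finrank_mono
    rintro _ ⟨⟨z, hz⟩, hzk, rfl⟩
    have hzI : z ∈ genIdeal d c := by
      have : π z = 0 := hzk
      exact Ideal.Quotient.eq_zero_iff_mem.1 this
    obtain ⟨y, hy, hyz⟩ := ideal_inf d j0 hbig c z hz hzI
    exact ⟨⟨y, hy⟩, hyz.symm⟩
  unfold hilb
  omega

lemma form_pow_char (p : ℕ) [Fact p.Prime] [CharP K p] {d : ℕ} (hd : 0 < d)
    (c : Mon n d → K) : (form d c) ^ p = 0 := by
  unfold form
  rw [← map_pow, sum_pow_char, Ideal.Quotient.eq_zero_iff_mem]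
  apply Ideal.sum_mem
  intro s _
  rw [mul_pow]
  apply Ideal.mul_mem_left
  obtain ⟨i, hi⟩ := Finset.card_pos.1 (by rw [s.2]; exact hd)
  rw [← Finset.mul_prod_erase s.1 _ hi, mul_pow]
  apply Ideal.mul_mem_right
  have hp : 2 ≤ p := (Fact.out : p.Prime).two_le
  obtain ⟨q, rfl⟩ : ∃ q, p = q + 2 := ⟨p - 2, by omega⟩
  rw [pow_add]
  exact Ideal.mul_mem_left _ _ (Ideal.subset_span ⟨i, rfl⟩)

end poschar

/-! ### The main theorem -/

section main

variable {K : Type*} [Field K] [Infinite K] {n : ℕ}

/-- the polynomial in the coefficients whose nonvanishing gives the two conditions -/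
lemma exists_open {r : ℕ} (d : Fin r → ℕ) (j0 j1 : Fin r) (h01 : j0 ≠ j1)
    (hd0 : d j0 = 1) (hd1 : d j1 = 1) :
    ∃ P : MvPolynomial (Σ j : Fin r, Mon n (d j)) K, P ≠ 0 ∧
      ∀ c : (Σ j : Fin r, Mon n (d j)) → K, eval c P ≠ 0 →
        (∀ i, c ⟨j0, sing hd0 i⟩ ≠ 0) ∧
          Function.Injective fun i => c ⟨j1, sing hd1 i⟩ / c ⟨j0, sing hd0 i⟩ := by
  classical
  set P : MvPolynomial (Σ j : Fin r, Mon n (d j)) K :=
    (∏ i : Fin n, X (⟨j0, sing hd0 i⟩ : Σ j : Fin r, Mon n (d j))) *
      ∏ p ∈ (Finset.univ : Finset (Fin n × Fin n)).filter (fun p => p.1 ≠ p.2),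
        (X (⟨j1, sing hd1 p.1⟩ : Σ j : Fin r, Mon n (d j)) *
            X (⟨j0, sing hd0 p.2⟩ : Σ j : Fin r, Mon n (d j)) -
          X (⟨j1, sing hd1 p.2⟩ : Σ j : Fin r, Mon n (d j)) *
            X (⟨j0, sing hd0 p.1⟩ : Σ j : Fin r, Mon n (d j))) with hP
  have heval : ∀ c : (Σ j : Fin r, Mon n (d j)) → K, eval c P ≠ 0 ↔
      (∀ i, c ⟨j0, sing hd0 i⟩ ≠ 0) ∧ ∀ p : Fin n × Fin n, p.1 ≠ p.2 →
        c ⟨j1, sing hd1 p.1⟩ * c ⟨j0, sing hd0 p.2⟩ -
          c ⟨j1, sing hd1 p.2⟩ * c ⟨j0, sing hd0 p.1⟩ ≠ 0 := by
    intro c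
    rw [hP, map_mul, map_prod, map_prod, mul_ne_zero_iff, Finset.prod_ne_zero_iff,
      Finset.prod_ne_zero_iff]
    simp only [Finset.mem_univ, forall_true_left, Finset.mem_filter, true_and, eval_X, map_sub,
      map_mul]
  refine ⟨P, ?_, ?_⟩
  · intro h0
    have hex : ∃ c : (Σ j : Fin r, Mon n (d j)) → K, eval c P ≠ 0 := by
      have τ : Fin n ↪ K := (Fin.valEmbedding).trans (Infinite.natEmbedding K)
      refine ⟨fun x => if x.1 = j0 then 1 else ∑ i ∈ x.2.1, τ i, ?_⟩
      rw [heval]
      refine ⟨?_, ?_⟩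
      · intro i
        simp
      · intro p hp
        simp only [if_neg h01.symm, sing, Finset.sum_singleton, if_true, mul_one]
        intro h
        exact hp (τ.injective (sub_eq_zero.1 h))
    obtain ⟨c, hc⟩ := hex
    rw [h0, map_zero] at hc
    exact hc rfl
  · intro c hc
    rw [heval] at hc
    refine ⟨hc.1, ?_⟩
    intro i j hij
    by_contra hne
    apply hc.2 (i, j) hne
    simp only at hij
    rw [div_eq_div_iff (hc.1 i) (hc.1 j)] at hij
    simp only
    rw [hij, sub_self]

lemma exists_eval_ne {σ : Type*} {P : MvPolynomial σ K} (h : P ≠ 0) : ∃ c, eval c P ≠ 0 := by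
  by_contra hall
  push Not at hall
  apply h
  apply MvPolynomial.funext
  intro c
  rw [hall c, map_zero]

theorem not_generic {r k : ℕ} (h : (n = 2 * k + 1 ∧ 3 ≤ k) ∨ (n = 2 * k + 2 ∧ 6 ≤ k))
    (d : Fin r → ℕ) (j0 j1 : Fin r) (h01 : j0 ≠ j1) (hd0 : d j0 = 1) (hd1 : d j1 = 1)
    (hbig : ∀ j, j ≠ j0 → j ≠ j1 → k < d j) :
    ¬ GenericHilbert K n d (trunc fun i => (series n d).coeff i) := by
  rintro ⟨Q, hQ, hQc⟩
  obtain ⟨P, hP, hPc⟩ := exists_open (K := K) (n := n) d j0 j1 h01 hd0 hd1
  have hne : P * Q ≠ 0 := mul_ne_zero hP hQ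
  obtain ⟨c, hc⟩ : ∃ c, eval c (P * Q) ≠ 0 := by
    exact exists_eval_ne hne
  rw [map_mul, mul_ne_zero_iff] at hc
  have h1 := hPc c hc.1
  have h2 := hQc c hc.2 k
  rw [trunc_series_eq_zero h d j0 j1 h01 hd0 hd1 hbig] at h2
  exact hilb_ne_zero (by omega) d j0 j1 hd0 hd1 hbig c h1.1 h1.2 (by exact_mod_cast h2)

lemma coeff_one_sub (n k d : ℕ) (hd : d ≤ k) :
    (((1 + Polynomial.X) ^ n * (1 - Polynomial.X ^ d) : Polynomial ℤ)).coeff k =
      (n.choose k : ℤ) - n.choose (k - d) := by
  have h1 : ((1 + Polynomial.X) ^ n * (1 - Polynomial.X ^ d) : Polynomial ℤ) =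
      (1 + Polynomial.X) ^ n - (1 + Polynomial.X) ^ n * Polynomial.X ^ d := by ring
  rw [h1, Polynomial.coeff_sub, Polynomial.coeff_mul_X_pow', if_pos hd]
  simp only [Polynomial.coeff_one_add_X_pow]

lemma coeff_one_sub_lt (n k d : ℕ) (hd : k < d) :
    (((1 + Polynomial.X) ^ n * (1 - Polynomial.X ^ d) : Polynomial ℤ)).coeff k =
      (n.choose k : ℤ) := by
  have h1 : ((1 + Polynomial.X) ^ n * (1 - Polynomial.X ^ d) : Polynomial ℤ) =
      (1 + Polynomial.X) ^ n - (1 + Polynomial.X) ^ n * Polynomial.X ^ d := by ring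
  rw [h1, Polynomial.coeff_sub, Polynomial.coeff_mul_X_pow', if_neg (by omega), sub_zero]
  simp only [Polynomial.coeff_one_add_X_pow]

lemma choose_lt (n : ℕ) {a b : ℕ} (hab : a < b) (h : a + b < n) : n.choose a < n.choose b := by
  rcases Nat.lt_or_ge b (n - b) with hb | hb
  · have hmono : ∀ b, a < b → 2 * b < n → n.choose a < n.choose b := by
      intro b hab
      induction b, hab using Nat.le_induction with
      | base =>
        intro h2
        have := Nat.choose_succ_right_eq n a
        have hpos : 0 < n.choose a := Nat.choose_pos (by omega)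
        have h3 : n.choose a * (n - a) > n.choose a * (a + 1) :=
          Nat.mul_lt_mul_of_pos_left (by omega) hpos
        exact Nat.lt_of_mul_lt_mul_right (by rw [← this] at h3; exact h3)
      | succ b hb ih =>
        intro h2
        refine lt_trans (ih (by omega)) ?_
        have := Nat.choose_succ_right_eq n b
        have hpos : 0 < n.choose b := Nat.choose_pos (by omega)
        have h3 : n.choose b * (n - b) > n.choose b * (b + 1) :=
          Nat.mul_lt_mul_of_pos_left (by omega) hpos
        exact Nat.lt_of_mul_lt_mul_right (by rw [← this] at h3; exact h3)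
    exact hmono b hab (by omega)
  · rw [← Nat.choose_symm (show b ≤ n by omega)]
    have hmono : ∀ b, a < b → 2 * b ≤ n → n.choose a < n.choose b := by
      intro b hab
      induction b, hab using Nat.le_induction with
      | base =>
        intro h2
        have := Nat.choose_succ_right_eq n a
        have hpos : 0 < n.choose a := Nat.choose_pos (by omega)
        have h3 : n.choose a * (n - a) > n.choose a * (a + 1) :=
          Nat.mul_lt_mul_of_pos_left (by omega) hpos
        exact Nat.lt_of_mul_lt_mul_right (by rw [← this] at h3; exact h3)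
      | succ b hb ih =>
        intro h2
        refine lt_trans (ih (by omega)) ?_
        have := Nat.choose_succ_right_eq n b
        have hpos : 0 < n.choose b := Nat.choose_pos (by omega)
        have h3 : n.choose b * (n - b) > n.choose b * (b + 1) :=
          Nat.mul_lt_mul_of_pos_left (by omega) hpos
        exact Nat.lt_of_mul_lt_mul_right (by rw [← this] at h3; exact h3)
    exact hmono (n - b) (by omega) (by omega)

/-- In characteristic `p` the formula fails already for one form of an arbitrary degree. -/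
theorem not_generic_char (p : ℕ) [Fact p.Prime] [CharP K p] {r : ℕ} (d : Fin r → ℕ) (j0 : Fin r)
    (hd0 : 0 < d j0) (hbig : ∀ j, j ≠ j0 → p * d j0 < d j) (hn : n = (2 * p - 1) * d j0) :
    ¬ GenericHilbert K n d (trunc fun i => (series n d).coeff i) := by
  classical
  rintro ⟨Q, hQ, hQc⟩
  obtain ⟨c, hc⟩ := exists_eval_ne hQ
  have hH := hQc c hc
  set e := d j0 with he
  have hp2 : 2 ≤ p := (Fact.out : p.Prime).two_le
  have hn2 : p * e + (p - 1) * e = n := by
    rw [hn, ← Nat.add_mul]; congr 1; omega
  set f : SqAlg K n := form (d j0) (fun s => c ⟨j0, s⟩) with hf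
  -- the predicted coefficients up to degree `p * e`
  have hser : ∀ k, k ≤ p * e → (series n d).coeff k =
      ((1 + Polynomial.X) ^ n * (1 - Polynomial.X ^ e) : Polynomial ℤ).coeff k := by
    intro k hk
    unfold series
    have hprod : ∏ j : Fin r, (1 - Polynomial.X ^ (d j) : Polynomial ℤ) =
        (1 - Polynomial.X ^ e) * ∏ j ∈ Finset.univ.erase j0, (1 - Polynomial.X ^ (d j)) := by
      rw [← Finset.mul_prod_erase Finset.univ _ (Finset.mem_univ j0)]
    rw [hprod, ← mul_assoc, coeff_mul_prod_one_sub]
    intro j hj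
    have := hbig j (Finset.mem_erase.1 hj).1
    omega
  have hpos : ∀ k, k < p * e → 0 < (series n d).coeff k := by
    intro k hk
    rw [hser k hk.le]
    by_cases hke : k < e
    · rw [coeff_one_sub_lt n k e hke]
      have : k ≤ n := by omega
      exact_mod_cast Nat.choose_pos this
    · rw [coeff_one_sub n k e (by omega)]
      have h1 : n.choose (k - e) < n.choose k := by
        apply choose_lt n (by omega)
        have : (p - 1) * e = p * e - e := by rw [Nat.sub_mul, one_mul]
        omega
      have : (n.choose (k - e) : ℤ) < n.choose k := by exact_mod_cast h1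
      omega
  have htr : ∀ k, e ≤ k → k ≤ p * e → trunc (fun i => (series n d).coeff i) k =
      (n.choose k : ℤ) - n.choose (k - e) := by
    intro k hek hk
    rcases Nat.lt_or_ge k (p * e) with hlt | hge
    · unfold trunc
      rw [if_pos (fun j hj => hpos j (by omega))]
      change (series n d).coeff k = _
      rw [hser k hk, coeff_one_sub n k e hek]
    · have hk' : k = p * e := le_antisymm hk hge
      have hz : (n.choose k : ℤ) - n.choose (k - e) = 0 := by
        have h1 : n.choose k = n.choose (k - e) := by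
          rw [← Nat.choose_symm (show k ≤ n by omega)]
          congr 1
          have : (p - 1) * e = p * e - e := by rw [Nat.sub_mul, one_mul]
          omega
        rw [h1, sub_self]
      rw [hz]
      unfold trunc
      rw [if_neg]
      intro hall
      have h2 := hall k le_rfl
      simp only at h2
      rw [hser k hk, coeff_one_sub n k e hek, hz] at h2
      exact lt_irrefl _ h2
  -- powers of f do not vanish
  have hpow : ∀ q, q ≤ p → f ^ q ∈ A K n (q * e) ∧ f ^ q ≠ 0 := by
    intro q
    induction q with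
    | zero =>
      intro _
      have hone : (1 : SqAlg K n) ∈ A K n (0 * e) := by
        rw [zero_mul]
        refine Submodule.mem_map.2 ⟨1, ?_, rfl⟩
        rw [mem_homogeneousSubmodule]
        exact isHomogeneous_one _ _
      rw [pow_zero]
      refine ⟨hone, ?_⟩
      intro h0
      have h1 : (1 : MvPolynomial (Fin n) K) ∈ sqIdeal K n := by
        rw [← Ideal.Quotient.eq_zero_iff_mem, map_one]; exact h0
      have h2 := coeff_ind_sqIdeal (∅ : Finset (Fin n)) _ h1
      simp [ind] at h2
    | succ q ih =>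
      intro hq
      obtain ⟨h1, h2⟩ := ih (by omega)
      have hmem : f ^ (q + 1) ∈ A K n ((q + 1) * e) := by
        rw [pow_succ, Nat.add_mul, one_mul]
        exact mul_mem_A h1 (form_mem_A _ _)
      refine ⟨hmem, ?_⟩
      intro h0
      rw [pow_succ] at h0
      have hqe : q * e + e ≤ p * e := by
        have : (q + 1) * e ≤ p * e := Nat.mul_le_mul_right e hq
        rw [Nat.add_mul, one_mul] at this
        exact this
      have h3 := hilb_gt (i := q * e) d j0 (by
        intro j hj
        have := hbig j hj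
        omega) c (f ^ q) h1 h2 h0
      have h4 := hH (q * e + e)
      rw [htr (q * e + e) (by omega) hqe, Nat.add_sub_cancel] at h4
      rw [← he] at h3
      have h5 : (n.choose (q * e + e) : ℤ) < hilb (genIdeal d c) (q * e + e) +
        n.choose (q * e) := by exact_mod_cast h3
      omega
  exact (hpow p le_rfl).2 (form_pow_char p hd0 _)

end main

end

end Q35.SqFree
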