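import Pool.Agent.Q35.VGFamily

/-!
# Counting: `a ^ m ≤ NGP (a + 2 m) * 3 ^ (a + 2 m)`
-/

namespace Q35.VG

open Set Vis124 Pool.Agent.TH695.BC

section

variable (a m : ℕ)

/-- extension of `T` by `0` -/
def ext0 (T : Fin m → Fin a) (J : ℕ) : ℕ := if h : J < m then (T ⟨J, h⟩ : ℕ) else 0

/-- the graphs of the family -/
noncomputable def GT (T : Fin m → Fin a) : SimpleGraph (Fin (a + 2 * m - 1 + 1)) :=
  visGraph (tv (a + 2 * m - 1) (fX a m) (fY a m (ext0 a m T)))
    (treg (a + 2 * m - 1) (a + m - 1) (fX a m) (fY a m (ext0 a m T)))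

/-- the three colours -/
def col (i : Fin (a + 2 * m - 1 + 1)) : Fin 3 :=
  if (i : ℕ) < a then 0 else if ((i : ℕ) - a) % 2 = 0 then 1 else 2

variable {a m}

lemma col_zero (i : Fin (a + 2 * m - 1 + 1)) : col a m i = 0 ↔ (i : ℕ) < a := by
  unfold col
  split_ifs with h1 h2
  · simp [h1]
  · simp [h1]
  · simp [h1]

lemma col_one (i : Fin (a + 2 * m - 1 + 1)) :
    col a m i = 1 ↔ ¬ (i : ℕ) < a ∧ ((i : ℕ) - a) % 2 = 0 := by
  unfold col
  split_ifs with h1 h2
  · simp [h1]
  · simp [h1, h2]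
  · simp [h2]

lemma col_two (i : Fin (a + 2 * m - 1 + 1)) :
    col a m i = 2 ↔ ¬ (i : ℕ) < a ∧ ¬ ((i : ℕ) - a) % 2 = 0 := by
  unfold col
  split_ifs with h1 h2
  · simp [h1]
  · simp [h2]
  · simp [h1, h2]

lemma NV.lt {T : ℕ → ℕ} {i j : ℕ} (h : NV a T i j) : i < j := by
  obtain ⟨J, h1, h2, -⟩ := h
  omega

variable (ha : 1 ≤ a) (hm : 1 ≤ m)
include ha hm

omit hm in
lemma ext0_lt (T : Fin m → Fin a) (J : ℕ) : ext0 a m T J < a := by
  unfold ext0
  split_ifs with h
  · exact (T ⟨J, h⟩).isLt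
  · omega

lemma GT_adj (T : Fin m → Fin a) (i j : Fin (a + 2 * m - 1 + 1)) :
    (GT a m T).Adj i j ↔ i ≠ j ∧ ¬ NV a (ext0 a m T) i j ∧ ¬ NV a (ext0 a m T) j i := by
  have hTt := terrain (T := ext0 a m T) ha hm
  have hext := ext0_lt (m := m) ha T
  have key : ∀ i j : Fin (a + 2 * m - 1 + 1), i < j →
      (segment ℝ (tv (a + 2 * m - 1) (fX a m) (fY a m (ext0 a m T)) i)
        (tv (a + 2 * m - 1) (fX a m) (fY a m (ext0 a m T)) j) ⊆
        treg (a + 2 * m - 1) (a + m - 1) (fX a m) (fY a m (ext0 a m T)) ↔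
        ¬ NV a (ext0 a m T) i j) := by
    intro i j hij
    rw [(hTt).visible i j hij]
    exact crit ha hm hext i j (by have := j.isLt; omega)
  have hdef : (GT a m T).Adj i j ↔ i ≠ j ∧
      segment ℝ (tv (a + 2 * m - 1) (fX a m) (fY a m (ext0 a m T)) i)
        (tv (a + 2 * m - 1) (fX a m) (fY a m (ext0 a m T)) j) ⊆
        treg (a + 2 * m - 1) (a + m - 1) (fX a m) (fY a m (ext0 a m T)) := Iff.rfl
  rw [hdef]
  constructor
  · rintro ⟨h1, h2⟩
    refine ⟨h1, ?_⟩
    rcases lt_or_gt_of_ne h1 with h | h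
    · exact ⟨(key i j h).mp h2, fun h3 => absurd h3.lt (by have : (i : ℕ) < j := h; omega)⟩
    · rw [segment_symm] at h2
      exact ⟨fun h3 => absurd h3.lt (by have : (j : ℕ) < i := h; omega), (key j i h).mp h2⟩
  · rintro ⟨h1, h2, h3⟩
    refine ⟨h1, ?_⟩
    rcases lt_or_gt_of_ne h1 with h | h
    · exact (key i j h).mpr h2
    · rw [segment_symm]
      exact (key j i h).mpr h3

omit ha hm in
/-- the vertex `w J` -/
lemma w_lt {J : ℕ} (hJ : J < m) : a + 2 * J + 1 < a + 2 * m - 1 + 1 := by omega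

/-- neighbours of colour `1` of `w J` -/
lemma card_B (T : Fin m → Fin a) (J : ℕ) (hJ : J < m) [DecidableRel (GT a m T).Adj] :
    (Finset.univ.filter (fun y : Fin (a + 2 * m - 1 + 1) =>
      (GT a m T).Adj ⟨a + 2 * J + 1, w_lt hJ⟩ y ∧ col a m y = 1)).card = m - J := by
  rw [← Finset.card_map Fin.valEmbedding]
  have : (Finset.univ.filter (fun y : Fin (a + 2 * m - 1 + 1) =>
      (GT a m T).Adj ⟨a + 2 * J + 1, w_lt hJ⟩ y ∧ col a m y = 1)).map Fin.valEmbedding =
      (Finset.Ico J m).image (fun L => a + 2 * L) := by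
    ext t
    simp only [Finset.mem_map, Finset.mem_filter, Finset.mem_univ, true_and,
      Fin.valEmbedding_apply, Finset.mem_image, Finset.mem_Ico]
    constructor
    · rintro ⟨y, ⟨h1, h2⟩, rfl⟩
      rw [GT_adj ha hm] at h1
      obtain ⟨-, h3, h4⟩ := h1
      have hy := y.isLt
      rw [col_one] at h2
      obtain ⟨h5, h6⟩ := h2
      refine ⟨((y : ℕ) - a) / 2, ⟨?_, by omega⟩, by omega⟩
      by_contra hc
      exact h4 ⟨J, rfl, by omega, Or.inl (by omega)⟩
    · rintro ⟨L, ⟨h1, h2⟩, rfl⟩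
      refine ⟨⟨a + 2 * L, by omega⟩, ⟨?_, ?_⟩, rfl⟩
      · rw [GT_adj ha hm]
        refine ⟨?_, ?_, ?_⟩
        · intro h
          have := congrArg Fin.val h
          simp only at this
          omega
        · rintro ⟨K, h3, h4, -⟩
          simp only at h3
          omega
        · rintro ⟨K, h3, h4, -⟩
          simp only at h3 h4
          omega
      · rw [col_one]
        refine ⟨?_, ?_⟩
        · show ¬ (a + 2 * L < a)
          omega
        · show (a + 2 * L - a) % 2 = 0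
          omega
  have hinj : Function.Injective (fun L : ℕ => a + 2 * L) := by
    intro x y h
    have h' : a + 2 * x = a + 2 * y := h
    omega
  rw [this, Finset.card_image_of_injective _ hinj, Nat.card_Ico]

/-- neighbours of colour `0` of `w J` -/
lemma card_U (T : Fin m → Fin a) (J : ℕ) (hJ : J < m) [DecidableRel (GT a m T).Adj] :
    (Finset.univ.filter (fun y : Fin (a + 2 * m - 1 + 1) =>
      (GT a m T).Adj ⟨a + 2 * J + 1, w_lt hJ⟩ y ∧ col a m y = 0)).card = T ⟨J, hJ⟩ + 1 := by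
  rw [← Finset.card_map Fin.valEmbedding]
  have hTJ : ext0 a m T J = T ⟨J, hJ⟩ := by unfold ext0; rw [dif_pos hJ]
  have hTa := (T ⟨J, hJ⟩).isLt
  have : (Finset.univ.filter (fun y : Fin (a + 2 * m - 1 + 1) =>
      (GT a m T).Adj ⟨a + 2 * J + 1, w_lt hJ⟩ y ∧ col a m y = 0)).map Fin.valEmbedding =
      Finset.range (T ⟨J, hJ⟩ + 1) := by
    ext t
    simp only [Finset.mem_map, Finset.mem_filter, Finset.mem_univ, true_and,
      Fin.valEmbedding_apply, Finset.mem_range]
    constructor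
    · rintro ⟨y, ⟨h1, h2⟩, rfl⟩
      rw [GT_adj ha hm] at h1
      obtain ⟨-, h3, h4⟩ := h1
      rw [col_zero] at h2
      by_contra hc
      exact h4 ⟨J, rfl, by omega, Or.inr (by omega)⟩
    · intro ht
      refine ⟨⟨t, by omega⟩, ⟨?_, ?_⟩, rfl⟩
      · rw [GT_adj ha hm]
        refine ⟨?_, ?_, ?_⟩
        · intro h
          have := congrArg Fin.val h
          simp only at this
          omega
        · rintro ⟨K, h3, h4, -⟩
          simp only at h3 h4
          omega
        · rintro ⟨K, h3, h4, h5⟩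
          simp only at h3 h4 h5
          have hKJ : K = J := by omega
          subst hKJ
          rw [hTJ] at h5
          omega
      · rw [col_zero]
        show t < a
        omega
  rw [this, Finset.card_range]

open Classical in
lemma rigid (T T' : Fin m → Fin a) (ψ : Fin (a + 2 * m - 1 + 1) ≃ Fin (a + 2 * m - 1 + 1))
    (h1 : ∀ x y, (GT a m T).Adj x y ↔ (GT a m T').Adj (ψ x) (ψ y))
    (h2 : ∀ x, col a m (ψ x) = col a m x) : T = T' := by
  have hdeg : ∀ (k : Fin 3) (x : Fin (a + 2 * m - 1 + 1)),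
      (Finset.univ.filter (fun y => (GT a m T).Adj x y ∧ col a m y = k)).card =
      (Finset.univ.filter (fun y => (GT a m T').Adj (ψ x) y ∧ col a m y = k)).card := by
    intro k x
    rw [← Finset.card_map ψ.toEmbedding]
    congr 1
    ext y
    simp only [Finset.mem_map, Finset.mem_filter, Finset.mem_univ, true_and,
      Equiv.coe_toEmbedding]
    constructor
    · rintro ⟨z, ⟨h3, h4⟩, rfl⟩
      exact ⟨(h1 _ _).mp h3, by rw [h2]; exact h4⟩
    · rintro ⟨h3, h4⟩
      refine ⟨ψ.symm y, ⟨?_, ?_⟩, by simp⟩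
      · rw [h1]; simpa using h3
      · rw [← h2]; simpa using h4
  have hfix : ∀ (J : ℕ) (hJ : J < m), ψ ⟨a + 2 * J + 1, w_lt hJ⟩ = ⟨a + 2 * J + 1, w_lt hJ⟩ := by
    intro J hJ
    set x : Fin (a + 2 * m - 1 + 1) := ⟨a + 2 * J + 1, w_lt hJ⟩ with hx
    have hc : col a m (ψ x) = 2 := by
      rw [h2, hx, col_two]
      refine ⟨?_, ?_⟩
      · show ¬ (a + 2 * J + 1 < a)
        omega
      · show ¬ (a + 2 * J + 1 - a) % 2 = 0
        omega
    obtain ⟨J', hJ'⟩ : ∃ J', ((ψ x : Fin _) : ℕ) = a + 2 * J' + 1 := by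
      rw [col_two] at hc
      exact ⟨(((ψ x : Fin _) : ℕ) - a) / 2, by omega⟩
    have hJ'm : J' < m := by have := (ψ x).isLt; omega
    have hψ : ψ x = ⟨a + 2 * J' + 1, w_lt hJ'm⟩ := Fin.ext hJ'
    have h3 := hdeg 1 x
    rw [hψ, hx, card_B ha hm T J hJ, card_B ha hm T' J' hJ'm] at h3
    rw [hψ]
    apply Fin.ext
    show a + 2 * J' + 1 = a + 2 * J + 1
    omega
  funext J
  have h3 := hdeg 0 ⟨a + 2 * J + 1, w_lt J.isLt⟩
  rw [hfix J J.isLt, card_U ha hm T J J.isLt, card_U ha hm T' J J.isLt] at h3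
  apply Fin.ext
  simpa using h3

omit ha hm in
lemma not_collinear {X Y : ℕ → ℝ} (hX : StrictMono X) {i k j : ℕ} (hik : i < k) (hkj : k < j)
    (hne : Y k ≠ lin X Y i j (X k)) :
    ¬ Collinear ℝ {((X i, Y i) : ℝ × ℝ), (X k, Y k), (X j, Y j)} := by
  intro hc
  rw [collinear_iff_of_mem (p₀ := ((X i, Y i) : ℝ × ℝ)) (by simp)] at hc
  obtain ⟨d, hd⟩ := hc
  obtain ⟨r, hr⟩ := hd (X k, Y k) (by simp)
  obtain ⟨s, hs⟩ := hd (X j, Y j) (by simp)
  apply hne
  have h1 : X k = r * d.1 + X i := congrArg Prod.fst hr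
  have h2 : Y k = r * d.2 + Y i := congrArg Prod.snd hr
  have h3 : X j = s * d.1 + X i := congrArg Prod.fst hs
  have h4 : Y j = s * d.2 + Y i := congrArg Prod.snd hs
  have h5 : X i < X j := hX (hik.trans hkj)
  have h6 : s * d.1 ≠ 0 := by intro h; rw [h] at h3; linarith
  have h7 : s ≠ 0 := left_ne_zero_of_mul h6
  have h8 : d.1 ≠ 0 := right_ne_zero_of_mul h6
  unfold lin
  rw [h1, h2, h3, h4]
  field_simp
  ring

lemma general (T : Fin m → Fin a) :
    GeneralPosition (tv (a + 2 * m - 1) (fX a m) (fY a m (ext0 a m T))) := by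
  have hext := ext0_lt (m := m) ha T
  have key : ∀ i k j : Fin (a + 2 * m - 1 + 1), i < k → k < j →
      ¬ Collinear ℝ {tv (a + 2 * m - 1) (fX a m) (fY a m (ext0 a m T)) i,
        tv (a + 2 * m - 1) (fX a m) (fY a m (ext0 a m T)) k,
        tv (a + 2 * m - 1) (fX a m) (fY a m (ext0 a m T)) j} := by
    intro i k j h1 h2
    exact not_collinear (fX_mono ha hm) h1 h2
      (crit_ne ha hm hext i j k h1 h2 (by have := j.isLt; omega))
  intro i j k hij hjk hik hc
  rcases lt_or_gt_of_ne hij with h1 | h1 <;> rcases lt_or_gt_of_ne hjk with h2 | h2 <;>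
    rcases lt_or_gt_of_ne hik with h3 | h3
  · exact key i j k h1 h2 hc
  · exact absurd (h1.trans h2) (not_lt.mpr h3.le)
  · apply key i k j h3 h2
    convert hc using 1
    ext x; simp only [mem_insert_iff, mem_singleton_iff]; tauto
  · apply key k i j h3 h1
    convert hc using 1
    ext x; simp only [mem_insert_iff, mem_singleton_iff]; tauto
  · apply key j i k h1 h3
    convert hc using 1
    ext x; simp only [mem_insert_iff, mem_singleton_iff]; tauto
  · apply key j k i h2 h3
    convert hc using 1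
    ext x; simp only [mem_insert_iff, mem_singleton_iff]; tauto
  · exact absurd (h2.trans h1) (not_lt.mpr h3.le)
  · apply key k j i h2 h1
    convert hc using 1
    ext x; simp only [mem_insert_iff, mem_singleton_iff]; tauto

/-- **The main counting inequality.** -/
theorem count : a ^ m ≤ NGP (a + 2 * m - 1 + 1) * 3 ^ (a + 2 * m - 1 + 1) := by
  set n := a + 2 * m - 1 + 1 with hn
  have hmem : ∀ T : Fin m → Fin a, Quotient.mk (isoSetoid n) (GT a m T) ∈ visClassesGP n := by
    intro T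
    exact ⟨_, _, (terrain (T := ext0 a m T) ha hm).isSimplePolygon, general ha hm T, rfl⟩
  have hφ : ∀ T : Fin m → Fin a, ∃ e : Fin n ≃ Fin n, ∀ x y,
      ((Quotient.mk (isoSetoid n) (GT a m T)).out).Adj x y ↔ (GT a m T).Adj (e x) (e y) := by
    intro T
    have h : (isoSetoid n).r (Quotient.mk (isoSetoid n) (GT a m T)).out (GT a m T) :=
      Quotient.mk_out (s := isoSetoid n) (GT a m T)
    obtain ⟨φ⟩ := h
    exact ⟨φ.toEquiv, fun x y => φ.map_rel_iff.symm⟩
  choose e he using hφ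
  let F : (Fin m → Fin a) → (visClassesGP n) × (Fin n → Fin 3) :=
    fun T => (⟨_, hmem T⟩, fun x => col a m (e T x))
  have hF : Function.Injective F := by
    intro T T' h
    have h1 : Quotient.mk (isoSetoid n) (GT a m T) = Quotient.mk (isoSetoid n) (GT a m T') :=
      congrArg Subtype.val (congrArg Prod.fst h)
    have h2 : ∀ x, col a m (e T x) = col a m (e T' x) := fun x => congrFun (congrArg Prod.snd h) x
    apply rigid ha hm T T' ((e T).symm.trans (e T'))
    · intro x y
      have a1 := he T ((e T).symm x) ((e T).symm y)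
      have a2 := he T' ((e T).symm x) ((e T).symm y)
      rw [h1] at a1
      rw [a1] at a2
      simpa using a2
    · intro x
      have := h2 ((e T).symm x)
      simp only [Equiv.apply_symm_apply] at this
      simp only [Equiv.trans_apply]
      exact this.symm
  have hcard := Nat.card_le_card_of_injective F hF
  rw [Nat.card_prod] at hcard
  simp only [Nat.card_eq_fintype_card, Fintype.card_pi, Fintype.card_fin, Finset.prod_const,
    Finset.card_univ] at hcard
  have h3 : Nat.card (visClassesGP n) = NGP n := Nat.card_coe_set_eq _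
  rw [h3] at hcard
  exact hcard

omit ha hm in
lemma NGP_le_N (n : ℕ) : NGP n ≤ N n := by
  apply Set.ncard_le_ncard _ (Set.toFinite _)
  rintro q ⟨v, P, h1, -, h2⟩
  exact ⟨v, P, h1, h2⟩

end

end Q35.VG
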