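import Pool.Agent.Q35.VGTerrain

/-!
# A family of terrains with `a + 2 m` vertices
-/

namespace Q35.VG

open Set Vis124 Pool.Agent.TH695.BC

section

variable (a m : ℕ) (T : ℕ → ℕ)

/-- the small shift -/
noncomputable def dl : ℝ := 1 / (4 * ((a : ℝ) + m))

/-- abscissas -/
noncomputable def fX (t : ℕ) : ℝ :=
  if t < a then (t : ℝ) else (a : ℝ) + (((t - a) / 2 : ℕ) : ℝ) - (if (t - a) % 2 = 0 then dl a m else 0)

/-- heights above the parabola -/
noncomputable def fE (t : ℕ) : ℝ :=
  if t < a then 0 else if (t - a) % 2 = 0 then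
    dl a m * ((a : ℝ) + (((t - a) / 2 : ℕ) : ℝ) - T ((t - a) / 2) - 1 / 2 - dl a m) else 0

/-- ordinates -/
noncomputable def fY (t : ℕ) : ℝ := fX a m t ^ 2 + fE a m T t

variable {a m T}

lemma fX_lt {t : ℕ} (h : t < a) : fX a m t = t := by unfold fX; rw [if_pos h]

lemma fX_b (J : ℕ) : fX a m (a + 2 * J) = (a : ℝ) + J - dl a m := by
  unfold fX
  rw [if_neg (by omega), if_pos (by omega)]
  have : (a + 2 * J - a) / 2 = J := by omega
  rw [this]

lemma fX_w (J : ℕ) : fX a m (a + 2 * J + 1) = (a : ℝ) + J := by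
  unfold fX
  rw [if_neg (by omega), if_neg (by omega)]
  have : (a + 2 * J + 1 - a) / 2 = J := by omega
  rw [this]; ring

lemma fE_lt {t : ℕ} (h : t < a) : fE a m T t = 0 := by unfold fE; rw [if_pos h]

lemma fE_b (J : ℕ) :
    fE a m T (a + 2 * J) = dl a m * ((a : ℝ) + J - T J - 1 / 2 - dl a m) := by
  unfold fE
  rw [if_neg (by omega), if_pos (by omega)]
  have : (a + 2 * J - a) / 2 = J := by omega
  rw [this]

lemma fE_w (J : ℕ) : fE a m T (a + 2 * J + 1) = 0 := by
  unfold fE
  rw [if_neg (by omega), if_neg (by omega)]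

lemma idx (a t : ℕ) : t < a ∨ (∃ J, t = a + 2 * J) ∨ (∃ J, t = a + 2 * J + 1) := by
  rcases Nat.lt_or_ge t a with h | h
  · exact Or.inl h
  · right
    rcases Nat.even_or_odd' (t - a) with ⟨J, hJ | hJ⟩
    · exact Or.inl ⟨J, by omega⟩
    · exact Or.inr ⟨J, by omega⟩

variable (ha : 1 ≤ a) (hm : 1 ≤ m)
include ha hm

lemma dl_pos : 0 < dl a m := by
  unfold dl
  have : (1 : ℝ) ≤ a := by exact_mod_cast ha
  positivity

lemma dl_le : dl a m ≤ 1 / 8 := by
  unfold dl
  have h1 : (1 : ℝ) ≤ a := by exact_mod_cast ha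
  have h2 : (1 : ℝ) ≤ m := by exact_mod_cast hm
  rw [div_le_div_iff₀ (by positivity) (by norm_num)]
  linarith

lemma dl_mul : dl a m * ((a : ℝ) + m) = 1 / 4 := by
  unfold dl
  have h1 : (1 : ℝ) ≤ a := by exact_mod_cast ha
  field_simp

lemma fX_mono : StrictMono (fX a m) := by
  have hd := dl_pos ha hm
  have hd2 := dl_le ha hm
  apply strictMono_nat_of_lt_succ
  intro t
  rcases idx a t with h | ⟨J, h⟩ | ⟨J, h⟩
  · rw [fX_lt h]
    rcases Nat.lt_or_ge (t + 1) a with h2 | h2
    · rw [fX_lt h2]; push_cast; linarith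
    · have : t + 1 = a + 2 * 0 := by omega
      rw [this, fX_b]
      have : (t : ℝ) + 1 = a := by exact_mod_cast this
      push_cast
      linarith
  · subst h
    rw [fX_b, fX_w]; linarith
  · subst h
    have : a + 2 * J + 1 + 1 = a + 2 * (J + 1) := by ring
    rw [this, fX_b, fX_w]; push_cast; linarith

variable (hT : ∀ J, T J < a)
include hT

lemma fE_nonneg (t : ℕ) : 0 ≤ fE a m T t := by
  have hd := dl_pos ha hm
  have hd2 := dl_le ha hm
  rcases idx a t with h | ⟨J, h⟩ | ⟨J, h⟩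
  · rw [fE_lt h]
  · subst h
    rw [fE_b]
    apply mul_nonneg hd.le
    have h1 : (T J : ℝ) + 1 ≤ a := by exact_mod_cast hT J
    have h2 : (0 : ℝ) ≤ J := Nat.cast_nonneg J
    linarith
  · subst h
    rw [fE_w]

omit hT in
lemma fE_le (t : ℕ) (ht : t < a + 2 * m) : fE a m T t ≤ 1 / 4 := by
  have hd := dl_pos ha hm
  have hd2 := dl_le ha hm
  rcases idx a t with h | ⟨J, h⟩ | ⟨J, h⟩
  · rw [fE_lt h]; norm_num
  · subst h
    rw [fE_b, ← dl_mul ha hm]
    apply mul_le_mul_of_nonneg_left _ hd.le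
    have h1 : (J : ℝ) ≤ m := by exact_mod_cast (by omega : J ≤ m)
    have h2 : (0 : ℝ) ≤ T J := Nat.cast_nonneg _
    linarith
  · subst h
    rw [fE_w]; norm_num

omit hT hm ha in
/-- height of the chord -/
lemma lin_val (i j k : ℕ) (h : fX a m i < fX a m j) :
    lin (fX a m) (fY a m T) i j (fX a m k) = fX a m k ^ 2 +
      (fX a m k - fX a m i) * (fX a m j - fX a m k) +
      (fE a m T i * (fX a m j - fX a m k) + fE a m T j * (fX a m k - fX a m i)) /
        (fX a m j - fX a m i) := by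
  have hne : fX a m j - fX a m i ≠ 0 := by linarith
  unfold lin fY
  field_simp
  ring

omit hT hm ha in
lemma crit_iff (i j k : ℕ) (h : fX a m i < fX a m j) :
    fY a m T k ≤ lin (fX a m) (fY a m T) i j (fX a m k) ↔
    fE a m T k ≤ (fX a m k - fX a m i) * (fX a m j - fX a m k) +
      (fE a m T i * (fX a m j - fX a m k) + fE a m T j * (fX a m k - fX a m i)) /
        (fX a m j - fX a m i) := by
  rw [lin_val i j k h]
  unfold fY
  constructor <;> intro h <;> linarith

omit hT in
lemma terrain : Terrain (a + 2 * m - 1) (a + m - 1) (fX a m) (fY a m T) where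
  hM := by omega
  mono := fX_mono ha hm
  zero := by rw [fX_lt (by omega)]; simp
  last := by
    have : a + 2 * m - 1 = a + 2 * (m - 1) + 1 := by omega
    rw [this, fX_w]
    have h2 : a + m - 1 = a + (m - 1) := by omega
    rw [h2]; push_cast; rfl
  below := by
    intro k hk0 hkM
    have hd := dl_pos ha hm
    have hd2 := dl_le ha hm
    have hX := fX_mono ha hm
    have hMe : a + 2 * m - 1 = a + 2 * (m - 1) + 1 := by omega
    have hx0 : fX a m 0 = 0 := by rw [fX_lt (by omega)]; simp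
    have hxM : fX a m (a + 2 * m - 1) = (a : ℝ) + (m - 1 : ℕ) := by rw [hMe, fX_w]
    rw [lin_val _ _ _ (hX (by omega))]
    rw [fE_lt (show 0 < a by omega), hMe, fE_w, ← hMe]
    simp only [zero_mul, zero_div, add_zero]
    unfold fY
    have h1 : 0 < fX a m k := by rw [← hx0]; exact hX hk0
    have h2 : fX a m k < fX a m (a + 2 * m - 1) := hX hkM
    rw [hx0]
    suffices hs : fE a m T k < (fX a m k - 0) * (fX a m (a + 2 * m - 1) - fX a m k) by linarith
    rcases idx a k with h | ⟨J, h⟩ | ⟨J, h⟩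
    · rw [fE_lt h]
      apply mul_pos <;> linarith
    · subst h
      rw [fE_b, hxM]
      rw [fX_b] at h1 ⊢
      have h3 : (J : ℝ) ≤ (m - 1 : ℕ) := by exact_mod_cast (by omega : J ≤ m - 1)
      have h4 : (0 : ℝ) ≤ T J := Nat.cast_nonneg _
      have h5 : ((a : ℝ) + J - dl a m) * dl a m ≤ ((a : ℝ) + J - dl a m - 0) *
          ((a : ℝ) + (m - 1 : ℕ) - ((a : ℝ) + J - dl a m)) := by
        rw [sub_zero]
        apply mul_le_mul_of_nonneg_left _ h1.le
        linarith
      refine lt_of_lt_of_le ?_ h5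
      rw [mul_comm]
      apply mul_lt_mul_of_pos_right _ hd
      linarith
    · subst h
      rw [fE_w]
      apply mul_pos <;> linarith

omit ha hm hT in
/-- the non-visible pairs -/
def NV (a : ℕ) (T : ℕ → ℕ) (i j : ℕ) : Prop :=
  ∃ J, j = a + 2 * J + 1 ∧ i < a + 2 * J ∧ (a ≤ i ∨ T J < i)

omit hT in
lemma one_le_gap (i J : ℕ) (hi : i < a + 2 * J) : (1 : ℝ) ≤ (a : ℝ) + J - fX a m i := by
  have hd := dl_pos ha hm
  rcases idx a i with h2 | ⟨K, h2⟩ | ⟨K, h2⟩
  · rw [fX_lt h2]
    have h3 : (i : ℝ) + 1 ≤ a := by exact_mod_cast h2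
    have h4 : (0 : ℝ) ≤ J := Nat.cast_nonneg _
    linarith
  · subst h2
    rw [fX_b]
    have h3 : (K : ℝ) + 1 ≤ J := by exact_mod_cast (by omega : K + 1 ≤ J)
    linarith
  · subst h2
    rw [fX_w]
    have h3 : (K : ℝ) + 1 ≤ J := by exact_mod_cast (by omega : K + 1 ≤ J)
    linarith

lemma key_w (i J : ℕ) (hi : i < a + 2 * J) (hJ : J < m) (hor : a ≤ i ∨ T J < i) :
    ¬ (fY a m T (a + 2 * J) ≤ lin (fX a m) (fY a m T) i (a + 2 * J + 1) (fX a m (a + 2 * J))) := by
  have hd := dl_pos ha hm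
  have hd2 := dl_le ha hm
  have hX := fX_mono ha hm
  have hXij : fX a m i < fX a m (a + 2 * J + 1) := hX (by omega)
  intro h
  have h1 := (crit_iff i _ _ hXij).mp h
  rw [fE_b, fE_w, fX_b, fX_w] at h1
  have hD := one_le_gap (m := m) ha hm i J hi
  -- divide by the shift
  have e1 : (fE a m T i * ((a : ℝ) + J - ((a : ℝ) + J - dl a m)) +
      0 * ((a : ℝ) + J - dl a m - fX a m i)) / ((a : ℝ) + J - fX a m i) ≤
        dl a m * fE a m T i := by
    rw [div_le_iff₀ (by linarith)]
    have h5 := fE_nonneg ha hm hT i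
    have h6 : 0 ≤ dl a m * fE a m T i := mul_nonneg hd.le h5
    nlinarith
  have e2 : dl a m * ((a : ℝ) + J - T J - 1 / 2 - dl a m) ≤
      dl a m * ((a : ℝ) + J - dl a m - fX a m i + fE a m T i) := by
    nlinarith
  have e3 := le_of_mul_le_mul_left e2 hd
  have hbig : a ≤ i → False := by
    intro h7
    have h8 := fE_le (T := T) ha hm i (by omega)
    have h9 : (T J : ℝ) + 1 ≤ a := by exact_mod_cast hT J
    have h10 : (a : ℝ) - dl a m ≤ fX a m i := by
      have := hX.monotone h7
      have h11 : fX a m a = (a : ℝ) - dl a m := by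
        have := fX_b (a := a) (m := m) 0
        simpa using this
      linarith
    linarith
  rcases hor with h7 | h7
  · exact hbig h7
  · rcases Nat.lt_or_ge i a with h8 | h8
    · rw [fE_lt h8, fX_lt h8] at e3
      have h9 : (T J : ℝ) + 1 ≤ i := by exact_mod_cast h7
      linarith
    · exact hbig h8

/-- strict visibility -/
lemma key_s (i j k : ℕ) (hik : i < k) (hkj : k < j) (hj : j < a + 2 * m)
    (hn : ∀ J, k = a + 2 * J → j = a + 2 * J + 1 → i < a ∧ i ≤ T J) :
    fY a m T k < lin (fX a m) (fY a m T) i j (fX a m k) := by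
  have hd := dl_pos ha hm
  have hd2 := dl_le ha hm
  have hX := fX_mono ha hm
  have hXij := hX (hik.trans hkj)
  rw [lin_val i j k hXij]
  unfold fY
  have g1 : 0 < fX a m k - fX a m i := sub_pos.mpr (hX hik)
  have g2 : 0 < fX a m j - fX a m k := sub_pos.mpr (hX hkj)
  have g3 : 0 < fX a m j - fX a m i := by linarith
  have g4 : 0 ≤ (fE a m T i * (fX a m j - fX a m k) + fE a m T j * (fX a m k - fX a m i)) /
      (fX a m j - fX a m i) := by
    apply div_nonneg _ g3.le
    exact add_nonneg (mul_nonneg (fE_nonneg ha hm hT i) g2.le)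
      (mul_nonneg (fE_nonneg ha hm hT j) g1.le)
  have g5 : 0 < (fX a m k - fX a m i) * (fX a m j - fX a m k) := mul_pos g1 g2
  suffices hs : fE a m T k < (fX a m k - fX a m i) * (fX a m j - fX a m k) by linarith
  rcases idx a k with h | ⟨J, h⟩ | ⟨J, h⟩
  · rw [fE_lt h]; exact g5
  · rcases Nat.lt_or_ge j (a + 2 * J + 2) with h2 | h2
    · have h3 : j = a + 2 * J + 1 := by omega
      obtain ⟨hia, hiT⟩ := hn J h h3
      have h4 : (i : ℝ) ≤ T J := by exact_mod_cast hiT
      rw [h3, h, fE_b, fX_b, fX_w, fX_lt hia]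
      have : (a : ℝ) + J - ((a : ℝ) + J - dl a m) = dl a m := by ring
      rw [this, mul_comm]
      apply mul_lt_mul_of_pos_right _ hd
      linarith
    · have h5 := fE_le (T := T) ha hm k (by omega)
      have hD := one_le_gap (m := m) ha hm i J (by omega)
      have hD1 : (1 : ℝ) - dl a m ≤ fX a m k - fX a m i := by
        rw [h, fX_b]; linarith
      have hD2 : (1 : ℝ) ≤ fX a m j - fX a m k := by
        have h6 : fX a m (a + 2 * (J + 1)) ≤ fX a m j := hX.monotone (by omega)
        rw [fX_b] at h6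
        rw [h, fX_b]
        push_cast at h6
        linarith
      nlinarith
  · subst h
    rw [fE_w]; exact g5

lemma crit (i j : ℕ) (hj : j < a + 2 * m) :
    (∀ k : ℕ, i < k → k < j → fY a m T k ≤ lin (fX a m) (fY a m T) i j (fX a m k)) ↔
      ¬ NV a T i j := by
  constructor
  · rintro h ⟨J, rfl, hi, hor⟩
    exact key_w ha hm hT i J hi (by omega) hor (h (a + 2 * J) hi (Nat.lt_succ_self _))
  · intro hn k hk1 hk2
    apply (key_s ha hm hT i j k hk1 hk2 hj ?_).le
    intro J h h3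
    constructor
    · by_contra hc
      exact hn ⟨J, h3, by omega, Or.inl (by omega)⟩
    · by_contra hc
      exact hn ⟨J, h3, by omega, Or.inr (by omega)⟩

/-- no three vertices are collinear -/
lemma crit_ne (i j k : ℕ) (hik : i < k) (hkj : k < j) (hj : j < a + 2 * m) :
    fY a m T k ≠ lin (fX a m) (fY a m T) i j (fX a m k) := by
  by_cases hn : ∀ J, k = a + 2 * J → j = a + 2 * J + 1 → i < a ∧ i ≤ T J
  · exact (key_s ha hm hT i j k hik hkj hj hn).ne
  · push Not at hn
    obtain ⟨J, h1, h2, h3⟩ := hn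
    intro he
    subst h1 h2
    refine key_w ha hm hT i J hik (by omega) ?_ he.le
    rcases Nat.lt_or_ge i a with h4 | h4
    · exact Or.inr (h3 h4)
    · exact Or.inl h4

end

end Q35.VG
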