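import Pool.Agent.H124R2.Vis.Exit
import Pool.Agent.H247R2.Warren

/-!
# Upper bound: `N n ≤ 2 (16 n³ + 1) ^ (2 n)`
-/

namespace Q35.VG

open Set Vis124 MvPolynomial

section

variable {n : ℕ}

/-- index set of the polynomials -/
abbrev JJ (n : ℕ) : Type := (Fin n × Fin n × Fin n) × Bool

/-- index set of the variables -/
abbrev VV (n : ℕ) : Type := Fin n × Bool

/-- difference of two variables -/
noncomputable def df (n : ℕ) (i j : Fin n) (b : Bool) : MvPolynomial (VV n) ℝ :=
  X (j, b) - X (i, b)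

/-- the polynomials -/
noncomputable def pol (n : ℕ) (q : JJ n) : MvPolynomial (VV n) ℝ :=
  if q.2 then df n q.1.1 q.1.2.1 false * df n q.1.1 q.1.2.2 true -
      df n q.1.1 q.1.2.1 true * df n q.1.1 q.1.2.2 false
  else df n q.1.1 q.1.2.1 false * df n q.1.1 q.1.2.2 false +
      df n q.1.1 q.1.2.1 true * df n q.1.1 q.1.2.2 true

/-- the point of coordinates -/
def cd (v : Fin n → ℝ × ℝ) (q : VV n) : ℝ := if q.2 then (v q.1).2 else (v q.1).1

lemma df_deg (i j : Fin n) (b : Bool) : (df n i j b).totalDegree ≤ 1 := by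
  unfold df
  refine (totalDegree_sub _ _).trans ?_
  simp [totalDegree_X]

lemma pol_deg (q : JJ n) : (pol n q).totalDegree ≤ 2 := by
  have h : ∀ a b c d e f : _, (df n a b c * df n d e f).totalDegree ≤ 2 := by
    intro a b c d e f
    refine (totalDegree_mul _ _).trans ?_
    have := df_deg a b c
    have := df_deg d e f
    omega
  unfold pol
  split_ifs
  · exact (totalDegree_sub _ _).trans (max_le (h _ _ _ _ _ _) (h _ _ _ _ _ _))
  · exact (totalDegree_add _ _).trans (max_le (h _ _ _ _ _ _) (h _ _ _ _ _ _))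

lemma eval_true (v : Fin n → ℝ × ℝ) (i j k : Fin n) :
    eval (cd v) (pol n ((i, j, k), true)) = ori (v i) (v j) (v k) := by
  simp [pol, df, cd, ori, cr]

lemma eval_false (v : Fin n → ℝ × ℝ) (i j k : Fin n) :
    eval (cd v) (pol n ((i, j, k), false)) = dotp (v i) (v j) (v k) := by
  simp [pol, df, cd, dotp]

/-- sign pattern -/
noncomputable def pat (v : Fin n → ℝ × ℝ) (q : JJ n) : SignType :=
  SignType.sign (eval (cd v) (pol n q))

lemma sg_pos {x y : ℝ} (h : SignType.sign x = SignType.sign y) : 0 < x ↔ 0 < y := by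
  rw [← sign_eq_one_iff, ← sign_eq_one_iff, h]

lemma sg_neg {x y : ℝ} (h : SignType.sign x = SignType.sign y) : x < 0 ↔ y < 0 := by
  rw [← sign_eq_neg_one_iff, ← sign_eq_neg_one_iff, h]

lemma sg_zero {x y : ℝ} (h : SignType.sign x = SignType.sign y) : x = 0 ↔ y = 0 := by
  rw [← sign_eq_zero_iff, h, sign_eq_zero_iff]

lemma sg_le {x y : ℝ} (h : SignType.sign x = SignType.sign y) : x ≤ 0 ↔ y ≤ 0 := by
  rw [← not_lt, ← not_lt, sg_pos h]

lemma sg_mul {x y x' y' : ℝ} (h : SignType.sign x = SignType.sign y)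
    (h' : SignType.sign x' = SignType.sign y') :
    SignType.sign (x * x') = SignType.sign (y * y') := by
  rw [sign_mul, sign_mul, h, h']

lemma sg_smul {x y : ℝ} (h : SignType.sign x = SignType.sign y) (σ : ℝ) :
    SignType.sign (σ * x) = SignType.sign (σ * y) := sg_mul rfl h

lemma vexit_iff {v v' : Fin n → ℝ × ℝ} (h : pat v = pat v') (σ : ℝ) (i j k : Fin n) :
    VExit σ v i j k ↔ VExit σ v' i j k := by
  have ho : ∀ a b c, SignType.sign (ori (v a) (v b) (v c)) =
      SignType.sign (ori (v' a) (v' b) (v' c)) := by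
    intro a b c
    have := congrFun h ((a, b, c), true)
    unfold pat at this
    rwa [eval_true, eval_true] at this
  have hd : ∀ a b c, SignType.sign (dotp (v a) (v b) (v c)) =
      SignType.sign (dotp (v' a) (v' b) (v' c)) := by
    intro a b c
    have := congrFun h ((a, b, c), false)
    unfold pat at this
    rwa [eval_false, eval_false] at this
  have hsec : ∀ w : Fin n → ℝ × ℝ, w j - w k ∈ Sec (-σ) (wd w k) (ud w k) ↔
      ((0 < -σ * ori (w k) (w (sc k)) (w (pd k)) ∧ 0 < -σ * ori (w k) (w (sc k)) (w j) ∧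
        0 < -σ * ori (w k) (w j) (w (pd k))) ∨
       (-σ * ori (w k) (w (sc k)) (w (pd k)) ≤ 0 ∧ (0 < -σ * ori (w k) (w (sc k)) (w j) ∨
        0 < -σ * ori (w k) (w j) (w (pd k))))) := fun w => Iff.rfl
  unfold VExit
  rw [hsec, hsec, sg_zero (ho _ _ _), sg_le (hd _ _ _),
    sg_pos (sg_smul (ho k (sc k) (pd k)) (-σ)), sg_pos (sg_smul (ho k (sc k) j) (-σ)),
    sg_pos (sg_smul (ho k j (pd k)) (-σ)), sg_le (sg_smul (ho k (sc k) (pd k)) (-σ))]

lemma eexit_iff {v v' : Fin n → ℝ × ℝ} (h : pat v = pat v') (σ : ℝ) (i j l : Fin n) :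
    EExit σ v i j l ↔ EExit σ v' i j l := by
  have ho : ∀ a b c, SignType.sign (ori (v a) (v b) (v c)) =
      SignType.sign (ori (v' a) (v' b) (v' c)) := by
    intro a b c
    have := congrFun h ((a, b, c), true)
    unfold pat at this
    rwa [eval_true, eval_true] at this
  unfold EExit
  rw [sg_pos (sg_smul (ho l (sc l) i) σ), sg_neg (sg_smul (ho l (sc l) j) σ),
    sg_neg (sg_mul (ho i j l) (ho i j (sc l)))]

lemma graph_eq {v v' : Fin n → ℝ × ℝ} {P P' : Set (ℝ × ℝ)} (hP : IsSimplePolygon v P)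
    (hP' : IsSimplePolygon v' P') {σ : ℝ} (hσ : σ = 1 ∨ σ = -1)
    (h1 : ∀ k, Ev v (interior P) σ k) (h2 : ∀ k, Ev v Pᶜ (-σ) k)
    (h1' : ∀ k, Ev v' (interior P') σ k) (h2' : ∀ k, Ev v' P'ᶜ (-σ) k)
    (h : pat v = pat v') : visGraph v P = visGraph v' P' := by
  ext i j
  show (i ≠ j ∧ segment ℝ (v i) (v j) ⊆ P) ↔ (i ≠ j ∧ segment ℝ (v' i) (v' j) ⊆ P')
  apply and_congr_right
  intro hij
  have e : ∀ {w : Fin n → ℝ × ℝ} {Q : Set (ℝ × ℝ)} (_ : IsSimplePolygon w Q)
      (_ : ∀ k, Ev w (interior Q) σ k) (_ : ∀ k, Ev w Qᶜ (-σ) k),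
      (segment ℝ (w i) (w j) ⊆ Q ↔ ¬ ((∃ k, VExit σ w i j k) ∨ (∃ l, EExit σ w i j l))) := by
    intro w Q hQ g1 g2
    constructor
    · intro hs hex
      exact not_visible_of_exit hQ hσ g2 hij hex hs
    · intro hn
      by_contra hc
      exact hn (exit_of_not_visible hQ hσ g1 g2 hij hc)
  rw [e hP h1 h2, e hP' h1' h2']
  simp only [vexit_iff h, eexit_iff h]

open Classical in
/-- the realizable sign patterns -/
noncomputable def pats (n : ℕ) : Finset (JJ n → SignType) :=
  Finset.univ.filter (fun τ => ∃ x : VV n → ℝ, ∀ q, SignType.sign (eval x (pol n q)) = τ q)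

lemma mem_pats {τ : JJ n → SignType} :
    τ ∈ pats n ↔ ∃ x : VV n → ℝ, ∀ q, SignType.sign (eval x (pol n q)) = τ q := by
  unfold pats
  simp

lemma pats_card (n : ℕ) : (pats n).card ≤ (16 * n ^ 3 + 1) ^ (2 * n) := by
  have h := Pool.Agent.H247R2.Warren.sign_count (pol n) 2 pol_deg (pats n) (by
    intro τ hτ
    exact mem_pats.mp hτ)
  refine h.trans (le_of_eq ?_)
  simp only [Fintype.card_prod, Fintype.card_fin, Fintype.card_bool]
  have e1 : 4 * (n * (n * n) * 2 * 2) + 1 = 16 * n ^ 3 + 1 := by ring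
  have e2 : n * 2 = 2 * n := by ring
  rw [e1, e2]

/-- **Upper bound.** -/
theorem upper (n : ℕ) : N n ≤ 2 * (16 * n ^ 3 + 1) ^ (2 * n) := by
  have hch : ∀ q : visClasses n, ∃ (v : Fin n → ℝ × ℝ) (P : Set (ℝ × ℝ)) (b : Bool),
      IsSimplePolygon v P ∧ (q : Quotient (isoSetoid n)) = Quotient.mk (isoSetoid n) (visGraph v P) ∧
      (∀ k, Ev v (interior P) (if b then 1 else -1) k) ∧
      (∀ k, Ev v Pᶜ (-(if b then 1 else -1)) k) := by
    rintro ⟨q, v, P, hP, hq⟩
    obtain ⟨σ, hσ, h1, h2⟩ := oriented hP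
    rcases hσ with rfl | rfl
    · exact ⟨v, P, true, hP, hq, by simpa using h1, by simpa using h2⟩
    · exact ⟨v, P, false, hP, hq, by simpa using h1, by simpa using h2⟩
  choose v P b hP hq h1 h2 using hch
  have hmem : ∀ q, pat (v q) ∈ pats n := by
    intro q
    rw [mem_pats]
    exact ⟨cd (v q), fun _ => rfl⟩
  let F : visClasses n → Bool × (pats n) := fun q => (b q, ⟨pat (v q), hmem q⟩)
  have hF : Function.Injective F := by
    intro q q' h
    have hb : b q = b q' := congrArg Prod.fst h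
    have hp : pat (v q) = pat (v q') := congrArg Subtype.val (congrArg Prod.snd h)
    apply Subtype.ext
    rw [hq q, hq q']
    congr 1
    have g1 := h1 q'
    have g2 := h2 q'
    rw [← hb] at g1 g2
    refine graph_eq (hP q) (hP q') ?_ (h1 q) (h2 q) g1 g2 hp
    cases b q
    · right; simp
    · left; simp
  have hcard := Nat.card_le_card_of_injective F hF
  rw [Nat.card_prod] at hcard
  have h3 : Nat.card (visClasses n) = N n := Nat.card_coe_set_eq _
  rw [h3] at hcard
  simp only [Nat.card_eq_fintype_card, Fintype.card_bool, Fintype.card_coe] at hcard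
  exact hcard.trans (Nat.mul_le_mul_left _ (pats_card n))

end

end Q35.VG
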