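import Pool.Agent.Q35.VGCount
import Pool.Agent.Q35.VGUpper

/-!
# The number of visibility graphs of simple polygons is `2 ^ Θ(n log n)`
-/

namespace Q35.VG

open Set Vis124 Filter Asymptotics

theorem count' (a m : ℕ) (ha : 1 ≤ a) (hm : 1 ≤ m) :
    a ^ m ≤ NGP (a + 2 * m) * 3 ^ (a + 2 * m) := by
  have h := count ha hm
  have e : a + 2 * m - 1 + 1 = a + 2 * m := by omega
  rwa [e] at h

theorem lower (n : ℕ) (hn : 3 ^ 10 ≤ n) : (n : ℝ) * Real.log n / 8 ≤ Real.log (NGP n) := by
  set m := n / 3 with hm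
  set a := n - 2 * m with ha
  have hm1 : 1 ≤ m := by omega
  have ha1 : 1 ≤ a := by omega
  have h := count' a m ha1 hm1
  have e : a + 2 * m = n := by omega
  rw [e] at h
  have hNpos : 0 < NGP n := by
    rcases Nat.eq_zero_or_pos (NGP n) with h0 | h0
    · rw [h0, zero_mul] at h
      have : 0 < a ^ m := Nat.pow_pos ha1
      omega
    · exact h0
  have hr : ((a : ℝ)) ^ m ≤ NGP n * 3 ^ n := by exact_mod_cast h
  have hlog := Real.log_le_log (by positivity) hr
  rw [Real.log_pow, Real.log_mul (by exact_mod_cast hNpos.ne') (by positivity),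
    Real.log_pow] at hlog
  have hn0 : (0 : ℝ) < n := by exact_mod_cast (by omega : 0 < n)
  have hn8 : (59049 : ℝ) ≤ n := by exact_mod_cast (by omega : 59049 ≤ n)
  have hl3 : 0 < Real.log 3 := Real.log_pos (by norm_num)
  have hln : 10 * Real.log 3 ≤ Real.log n := by
    have : Real.log ((3 : ℝ) ^ 10) ≤ Real.log n :=
      Real.log_le_log (by positivity) (by exact_mod_cast hn)
    rw [Real.log_pow] at this
    exact_mod_cast this
  have ha3 : (n : ℝ) / 3 ≤ a := by
    have : n ≤ 3 * a := by omega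
    have h2 : (n : ℝ) ≤ 3 * a := by exact_mod_cast this
    linarith
  have hm4 : (n : ℝ) / 4 ≤ m := by
    have : n ≤ 4 * m := by omega
    have h2 : (n : ℝ) ≤ 4 * m := by exact_mod_cast this
    linarith
  have hla : Real.log n - Real.log 3 ≤ Real.log a := by
    rw [← Real.log_div hn0.ne' (by norm_num)]
    exact Real.log_le_log (by positivity) ha3
  have h5 : (n : ℝ) / 4 * (Real.log n - Real.log 3) ≤ m * Real.log a :=
    mul_le_mul hm4 hla (by linarith) (Nat.cast_nonneg _)
  nlinarith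

theorem upper' (n : ℕ) (hn : 3 ≤ n) : Real.log (N n) ≤ 13 * ((n : ℝ) * Real.log n) := by
  have hn3 : (3 : ℝ) ≤ n := by exact_mod_cast hn
  have hl1 : 1 ≤ Real.log n := by
    rw [← Real.log_exp 1]
    apply Real.log_le_log (Real.exp_pos 1)
    have := Real.exp_one_lt_d9
    linarith
  rcases Nat.eq_zero_or_pos (N n) with h0 | h0
  · rw [h0]
    simp only [Nat.cast_zero, Real.log_zero]
    positivity
  have h : (N n : ℝ) ≤ 2 * (16 * n ^ 3 + 1) ^ (2 * n) := by exact_mod_cast upper n
  have h1 : (16 * (n : ℝ) ^ 3 + 1) ≤ (n : ℝ) ^ 6 := by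
    have h2 : (27 : ℝ) ≤ (n : ℝ) ^ 3 := by
      have : (3 : ℝ) ^ 3 ≤ (n : ℝ) ^ 3 := pow_le_pow_left₀ (by norm_num) hn3 3
      linarith
    nlinarith
  have h2 : (N n : ℝ) ≤ n * ((n : ℝ) ^ 6) ^ (2 * n) := by
    refine h.trans ?_
    apply mul_le_mul (by linarith) _ (by positivity) (by positivity)
    exact pow_le_pow_left₀ (by positivity) h1 _
  have h3 := Real.log_le_log (by exact_mod_cast h0) h2
  rw [Real.log_mul (by positivity) (by positivity), Real.log_pow, Real.log_pow] at h3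
  push_cast at h3
  nlinarith

theorem theta (g : ℕ → ℕ) (h1 : ∀ n, NGP n ≤ g n) (h2 : ∀ n, g n ≤ N n) :
    (fun n : ℕ => Real.logb 2 (g n)) =Θ[atTop] (fun n : ℕ => (n : ℝ) * Real.log n) := by
  have hl2 : 0 < Real.log 2 := Real.log_pos (by norm_num)
  have hpos : ∀ n : ℕ, 3 ^ 10 ≤ n → 0 < NGP n := by
    intro n hn
    rcases Nat.eq_zero_or_pos (NGP n) with h0 | h0
    · have h := lower n hn
      rw [h0] at h
      simp only [Nat.cast_zero, Real.log_zero] at h
      have hn0 : (1 : ℝ) < n := by exact_mod_cast (by omega : 1 < n)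
      have := Real.log_pos hn0
      have : 0 < (n : ℝ) * Real.log n / 8 := by positivity
      linarith
    · exact h0
  have hnn : ∀ n : ℕ, 0 ≤ (n : ℝ) * Real.log n := fun n =>
    mul_nonneg (Nat.cast_nonneg _) (Real.log_natCast_nonneg n)
  have hgl : ∀ n : ℕ, 0 ≤ Real.log (g n) := fun n => Real.log_natCast_nonneg _
  constructor
  · apply IsBigO.of_bound (13 / Real.log 2)
    filter_upwards [eventually_ge_atTop (3 ^ 10)] with n hn
    rw [Real.logb, Real.norm_of_nonneg (hnn n), Real.norm_of_nonneg (div_nonneg (hgl n) hl2.le),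
      div_mul_eq_mul_div]
    apply div_le_div_of_nonneg_right _ hl2.le
    have hgp : 0 < g n := (hpos n hn).trans_le (h1 n)
    have h3 : Real.log (g n) ≤ Real.log (N n) :=
      Real.log_le_log (by exact_mod_cast hgp) (by exact_mod_cast h2 n)
    exact h3.trans (upper' n (by omega))
  · apply IsBigO.of_bound (8 * Real.log 2)
    filter_upwards [eventually_ge_atTop (3 ^ 10)] with n hn
    rw [Real.logb, Real.norm_of_nonneg (hnn n), Real.norm_of_nonneg (div_nonneg (hgl n) hl2.le)]
    have h3 : Real.log (NGP n) ≤ Real.log (g n) :=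
      Real.log_le_log (by exact_mod_cast hpos n hn) (by exact_mod_cast h1 n)
    have h4 := lower n hn
    have h5 : 8 * Real.log 2 * (Real.log (g n) / Real.log 2) = 8 * Real.log (g n) := by
      field_simp
    rw [h5]
    linarith

/-- **Main theorem.** -/
theorem main :
    (∀ n : ℕ, 3 ^ 10 ≤ n → (n : ℝ) * Real.log n / 8 ≤ Real.log (NGP n) ∧ NGP n ≤ N n ∧
      Real.log (N n) ≤ 13 * ((n : ℝ) * Real.log n)) ∧
    (fun n : ℕ => Real.logb 2 (N n)) =Θ[atTop] (fun n : ℕ => (n : ℝ) * Real.log n) ∧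
    (fun n : ℕ => Real.logb 2 (NGP n)) =Θ[atTop] (fun n : ℕ => (n : ℝ) * Real.log n) :=
  ⟨fun n hn => ⟨lower n hn, NGP_le_N n, upper' n (by omega)⟩,
    theta N NGP_le_N fun _ => le_rfl, theta NGP (fun _ => le_rfl) NGP_le_N⟩

end Q35.VG
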