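import Pool.Agent.TH695.BC.MonoPoly

/-!
# Terrain polygons: an `x`-monotone chain closed by one edge above it
-/

namespace Q35.VG

open Set Vis124 Pool.Agent.TH695.BC

/-- piecewise linear interpolation of the values `Y 0, …, Y M` at `X 0 < … < X M` -/
noncomputable def plx (X Y : ℕ → ℝ) (M : ℕ) (x : ℝ) : ℝ :=
  Y 0 + ∑ j ∈ Finset.range M, (Y (j + 1) - Y j) * max 0 (min 1 ((x - X j) / (X (j + 1) - X j)))

lemma plx_continuous (X Y : ℕ → ℝ) (M : ℕ) : Continuous (plx X Y M) := by
  unfold plx
  apply Continuous.add continuous_const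
  apply continuous_finsetSum
  intro j _
  apply Continuous.mul continuous_const
  apply Continuous.max continuous_const
  apply Continuous.min continuous_const
  exact (continuous_id.sub continuous_const).div_const _

section

variable {X Y : ℕ → ℝ} (hX : StrictMono X)
include hX

lemma gap (k : ℕ) : 0 < X (k + 1) - X k := sub_pos.mpr (hX (Nat.lt_succ_self k))

lemma plx_ge (M : ℕ) (x : ℝ) (hx : X M ≤ x) : plx X Y M x = Y M := by
  induction M with
  | zero => simp [plx]
  | succ k ih =>
    have h1 : X k ≤ x := (hX (Nat.lt_succ_self k)).le.trans hx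
    have h2 := ih h1
    unfold plx at h2 ⊢
    rw [Finset.sum_range_succ, ← add_assoc, h2]
    have h3 : min 1 ((x - X k) / (X (k + 1) - X k)) = 1 :=
      min_eq_left ((one_le_div (gap hX k)).mpr (by linarith))
    rw [h3, max_eq_right (by norm_num)]
    ring

lemma plx_eq (M k : ℕ) (hk : k < M) (x : ℝ) (h1 : X k ≤ x) (h2 : x ≤ X (k + 1)) :
    plx X Y M x = Y k + (x - X k) / (X (k + 1) - X k) * (Y (k + 1) - Y k) := by
  induction M with
  | zero => omega
  | succ M ih =>
    rcases Nat.lt_or_ge k M with h | h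
    · have h3 := ih h
      unfold plx at h3 ⊢
      rw [Finset.sum_range_succ, ← add_assoc, h3]
      have h4 : X (k + 1) ≤ X M := hX.monotone h
      have h5 : max 0 (min 1 ((x - X M) / (X (M + 1) - X M))) = 0 := by
        apply max_eq_left
        exact (min_le_right _ _).trans (div_nonpos_of_nonpos_of_nonneg (by linarith) (gap hX M).le)
      rw [h5]
      ring
    · have hkM : k = M := by omega
      subst hkM
      have h3 := plx_ge hX (Y := Y) k x h1
      unfold plx at h3 ⊢
      have h6 : (x - X k) / (X (k + 1) - X k) ≤ 1 := (div_le_one (gap hX k)).mpr (by linarith)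
      rw [Finset.sum_range_succ, ← add_assoc, h3, min_eq_right h6,
        max_eq_right (div_nonneg (by linarith) (gap hX k).le)]
      ring

lemma plx_node (M k : ℕ) (hk : k ≤ M) : plx X Y M (X k) = Y k := by
  rcases Nat.lt_or_ge k M with h | h
  · rw [plx_eq hX M k h (X k) (le_refl _) (hX (Nat.lt_succ_self k)).le]; simp
  · have : k = M := by omega
    subst this
    exact plx_ge hX k (X k) (le_refl _)

omit hX in
lemma exists_gap (i j : ℕ) (hij : i < j) (x : ℝ) (h1 : X i ≤ x) (h2 : x ≤ X j) :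
    ∃ k : ℕ, i ≤ k ∧ k < j ∧ X k ≤ x ∧ x ≤ X (k + 1) := by
  induction j with
  | zero => omega
  | succ j ih =>
    rcases le_total x (X j) with h | h
    · rcases Nat.lt_or_ge i j with h3 | h3
      · obtain ⟨k, a1, a2, a3, a4⟩ := ih h3 h
        exact ⟨k, a1, by omega, a3, a4⟩
      · have : i = j := by omega
        subst this
        exact ⟨i, le_rfl, Nat.lt_succ_self _, h1, h2⟩
    · exact ⟨j, by omega, Nat.lt_succ_self _, h, h2⟩

end

/-- the height over `x` of the line through the points number `i` and `j` -/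
noncomputable def lin (X Y : ℕ → ℝ) (i j : ℕ) (x : ℝ) : ℝ :=
  Y i + (x - X i) / (X j - X i) * (Y j - Y i)

/-- a terrain: vertices `(X k, Y k)` for `k = 0, …, M` with increasing abscissas, the inner ones
below the line through the two outer ones -/
structure Terrain (M L : ℕ) (X Y : ℕ → ℝ) : Prop where
  hM : 2 ≤ M
  mono : StrictMono X
  zero : X 0 = 0
  last : X M = L
  below : ∀ k, 0 < k → k < M → Y k < lin X Y 0 M (X k)

/-- the vertices -/
def tv (M : ℕ) (X Y : ℕ → ℝ) (i : Fin (M + 1)) : ℝ × ℝ := (X i, Y i)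

section

variable {M L : ℕ} {X Y : ℕ → ℝ}

/-- the region -/
noncomputable def treg (M L : ℕ) (X Y : ℕ → ℝ) : Set (ℝ × ℝ) :=
  region L (plx X Y M) (lin X Y 0 M)

lemma lin_continuous (i j : ℕ) : Continuous (lin X Y i j) := by
  unfold lin
  apply Continuous.add continuous_const
  apply Continuous.mul _ continuous_const
  exact (continuous_id.sub continuous_const).div_const _

/-- interpolation of `lin` -/
lemma lin_combo (i j : ℕ) (a b x : ℝ) (hab : a < b) :
    lin X Y i j x = lin X Y i j a + (x - a) / (b - a) * (lin X Y i j b - lin X Y i j a) := by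
  have h : b - a ≠ 0 := by linarith
  unfold lin
  generalize (Y j - Y i) = c
  have e : ∀ t : ℝ, (t - X i) / (X j - X i) = (t - X i) * (X j - X i)⁻¹ := fun t => div_eq_mul_inv _ _
  rw [e, e, e]
  generalize (X j - X i)⁻¹ = d
  field_simp
  ring

lemma lin_left (i j : ℕ) : lin X Y i j (X i) = Y i := by simp [lin]

lemma lin_right (i j : ℕ) (h : X i ≠ X j) : lin X Y i j (X j) = Y j := by
  unfold lin
  rw [div_self (sub_ne_zero.mpr h.symm)]
  ring

variable (hT : Terrain M L X Y)
include hT

lemma Terrain.Lpos : (0 : ℝ) < L := by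
  rw [← hT.last, ← hT.zero]
  exact hT.mono (by have := hT.hM; omega)

lemma Terrain.le (k : ℕ) (hk : k ≤ M) : Y k ≤ lin X Y 0 M (X k) := by
  rcases Nat.eq_zero_or_pos k with h | h
  · subst h; rw [lin_left]
  · rcases Nat.lt_or_ge k M with h2 | h2
    · exact (hT.below k h h2).le
    · have : k = M := by omega
      subst this
      rw [lin_right 0 k (hT.mono h).ne]

lemma Terrain.pl_lt (x : ℝ) (h0 : 0 < x) (h1 : x < L) : plx X Y M x < lin X Y 0 M x := by
  have hM := hT.hM
  obtain ⟨k, -, hk, h2, h3⟩ := exists_gap (X := X) 0 M (by omega) x (by rw [hT.zero]; exact h0.le)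
    (by rw [hT.last]; exact h1.le)
  rw [plx_eq hT.mono M k hk x h2 h3, lin_combo 0 M (X k) (X (k + 1)) x
    (hT.mono (Nat.lt_succ_self k))]
  have hg := gap hT.mono k
  set t := (x - X k) / (X (k + 1) - X k) with ht
  have ht0 : 0 ≤ t := div_nonneg (by linarith) hg.le
  have ht1 : t ≤ 1 := (div_le_one hg).mpr (by linarith)
  have a1 := hT.le k hk.le
  have a2 := hT.le (k + 1) hk
  set A := lin X Y 0 M (X k)
  set B := lin X Y 0 M (X (k + 1))
  have goal' : 0 < (1 - t) * (A - Y k) + t * (B - Y (k + 1)) := by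
    rcases eq_or_lt_of_le ht0 with h4 | h4
    · have hxk : x = X k := by
        have := ht
        rw [← h4, eq_comm, div_eq_zero_iff] at this
        rcases this with h | h
        · linarith
        · linarith
      have hk0 : 0 < k := by
        rcases Nat.eq_zero_or_pos k with h | h
        · subst h; rw [hT.zero] at hxk; linarith
        · exact h
      have := hT.below k hk0 hk
      rw [← h4]
      simp only [sub_zero, one_mul, zero_mul, add_zero]
      linarith
    · rcases eq_or_lt_of_le ht1 with h5 | h5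
      · have hxk : x = X (k + 1) := by
          have := ht
          rw [h5, eq_comm, div_eq_one_iff_eq hg.ne'] at this
          linarith
        have hk1 : k + 1 < M := by
          rcases Nat.lt_or_ge (k + 1) M with h | h
          · exact h
          · have : k + 1 = M := by omega
            rw [this, hT.last] at hxk
            linarith
        have := hT.below (k + 1) (Nat.succ_pos k) hk1
        rw [h5]
        simp only [sub_self, zero_mul, one_mul, zero_add]
        linarith
      · rcases Nat.eq_zero_or_pos k with h | h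
        · have h6 := hT.below (k + 1) (Nat.succ_pos k) (by omega)
          have : 0 < t * (B - Y (k + 1)) := mul_pos h4 (by linarith)
          have : 0 ≤ (1 - t) * (A - Y k) := mul_nonneg (by linarith) (by linarith)
          linarith
        · have h6 := hT.below k h hk
          have : 0 < (1 - t) * (A - Y k) := mul_pos (by linarith) (by linarith)
          have : 0 ≤ t * (B - Y (k + 1)) := mul_nonneg ht0 (by linarith)
          linarith
  linarith

lemma Terrain.pl_le (x : ℝ) (h0 : 0 ≤ x) (h1 : x ≤ L) : plx X Y M x ≤ lin X Y 0 M x := by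
  rcases eq_or_lt_of_le h0 with h | h
  · rw [← h, ← hT.zero, plx_node hT.mono M 0 (Nat.zero_le _), lin_left]
  · rcases eq_or_lt_of_le h1 with h2 | h2
    · rw [h2, ← hT.last, plx_node hT.mono M M le_rfl]
      exact hT.le M le_rfl
    · exact (hT.pl_lt x h h2).le

/-- the two kinds of edges -/
lemma Terrain.edge_cases (i : Fin (M + 1)) :
    ((i : ℕ) < M ∧ ((finRotate (M + 1) i : Fin (M + 1)) : ℕ) = (i : ℕ) + 1 ∧
      edge (tv M X Y) i = {p : ℝ × ℝ | X i ≤ p.1 ∧ p.1 ≤ X ((i : ℕ) + 1) ∧
        p.2 = plx X Y M p.1}) ∨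
    ((i : ℕ) = M ∧ ((finRotate (M + 1) i : Fin (M + 1)) : ℕ) = 0 ∧
      edge (tv M X Y) i = {p : ℝ × ℝ | 0 ≤ p.1 ∧ p.1 ≤ L ∧ p.2 = lin X Y 0 M p.1}) := by
  have hrot := rot_val (Nat.succ_pos M) i
  have hi := i.isLt
  by_cases h : (i : ℕ) = M
  · right
    have hr : ((finRotate (M + 1) i : Fin (M + 1)) : ℕ) = 0 := by
      rw [hrot, if_pos (by omega)]
    refine ⟨h, hr, ?_⟩
    unfold edge tv
    rw [hr, h, segment_symm, hT.zero, hT.last]
    ext p
    rw [mem_seg hT.Lpos]
    unfold lin
    simp only [mem_setOf_eq, hT.zero, hT.last]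
  · left
    have hr : ((finRotate (M + 1) i : Fin (M + 1)) : ℕ) = (i : ℕ) + 1 := by
      rw [hrot, if_neg (by omega)]
    refine ⟨by omega, hr, ?_⟩
    unfold edge tv
    rw [hr]
    ext p
    rw [mem_seg (hT.mono (Nat.lt_succ_self _))]
    constructor
    · rintro ⟨h1, h2, h3⟩
      refine ⟨h1, h2, ?_⟩
      rw [plx_eq hT.mono M i (by omega) p.1 h1 h2]
      exact h3
    · rintro ⟨h1, h2, h3⟩
      refine ⟨h1, h2, ?_⟩
      rw [h3, plx_eq hT.mono M i (by omega) p.1 h1 h2]

lemma Terrain.at_node {p : ℝ × ℝ} (l : ℕ) (hl : l ≤ M) (h1 : p.1 = X l)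
    (h2 : p.2 = plx X Y M p.1) : p = (X l, Y l) := by
  ext
  · exact h1
  · rw [h2, h1, plx_node hT.mono M l hl]

lemma Terrain.one_sided (i j : Fin (M + 1)) (hij : i ≠ j) (p : ℝ × ℝ)
    (hp1 : p ∈ edge (tv M X Y) i) (hp2 : p ∈ edge (tv M X Y) j) :
    p = tv M X Y i ∨ p = tv M X Y (finRotate (M + 1) i) := by
  have hM := hT.hM
  have hval : (i : ℕ) ≠ (j : ℕ) := fun h => hij (Fin.ext h)
  have key : 0 ≤ p.1 → p.1 ≤ L → p.2 = plx X Y M p.1 → p.2 = lin X Y 0 M p.1 →
      p.1 = X 0 ∨ p.1 = X M := by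
    intro h1 h2 h3 h4
    rcases eq_or_lt_of_le h1 with h5 | h5
    · left; rw [hT.zero]; exact h5.symm
    · rcases eq_or_lt_of_le h2 with h6 | h6
      · right; rw [hT.last]; exact h6
      · have := hT.pl_lt p.1 h5 h6
        linarith
  rcases hT.edge_cases i with ⟨hi, ri, ei⟩ | ⟨hi, ri, ei⟩ <;>
    rcases hT.edge_cases j with ⟨hj, rj, ej⟩ | ⟨hj, rj, ej⟩ <;>
    rw [ei] at hp1 <;> rw [ej] at hp2 <;> unfold tv <;> rw [ri]
  · obtain ⟨a1, a2, a3⟩ := hp1
    obtain ⟨b1, b2, b3⟩ := hp2
    rcases lt_or_gt_of_ne hval with h | h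
    · right
      have h' : X ((i : ℕ) + 1) ≤ X j := hT.mono.monotone h
      exact hT.at_node _ (by omega) (le_antisymm a2 (h'.trans b1)) a3
    · left
      have h' : X ((j : ℕ) + 1) ≤ X i := hT.mono.monotone h
      exact hT.at_node _ (by omega) (le_antisymm (b2.trans h') a1) a3
  · obtain ⟨a1, a2, a3⟩ := hp1
    obtain ⟨b1, b2, b3⟩ := hp2
    rcases key b1 b2 a3 b3 with h | h
    · left
      have : (i : ℕ) ≤ 0 := hT.mono.le_iff_le.mp (by rw [← h]; exact a1)
      exact hT.at_node _ (by omega) (by rw [h]; congr 1; omega) a3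
    · right
      have : M ≤ (i : ℕ) + 1 := hT.mono.le_iff_le.mp (by rw [← h]; exact a2)
      exact hT.at_node _ (by omega) (by rw [h]; congr 1; omega) a3
  · obtain ⟨a1, a2, a3⟩ := hp1
    obtain ⟨b1, b2, b3⟩ := hp2
    rcases key a1 a2 b3 a3 with h | h
    · right
      exact hT.at_node _ (by omega) h b3
    · left
      rw [hi]
      exact hT.at_node _ le_rfl h b3
  · omega

lemma Terrain.curve_eq :
    curve (tv M X Y) = {p : ℝ × ℝ | p ∈ treg M L X Y ∧
      (p.1 = 0 ∨ p.1 = (L : ℝ) ∨ p.2 = plx X Y M p.1 ∨ p.2 = lin X Y 0 M p.1)} := by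
  have hM := hT.hM
  apply subset_antisymm
  · intro p hp
    rw [curve, mem_iUnion] at hp
    obtain ⟨i, hi⟩ := hp
    rcases hT.edge_cases i with ⟨hiM, ri, ei⟩ | ⟨hiM, ri, ei⟩ <;> rw [ei] at hi
    · obtain ⟨a1, a2, a3⟩ := hi
      have h0 : 0 ≤ p.1 := by
        rw [← hT.zero]; exact (hT.mono.monotone (Nat.zero_le _)).trans a1
      have h6 : p.1 ≤ L := by
        rw [← hT.last]; exact a2.trans (hT.mono.monotone hiM)
      exact ⟨⟨h0, h6, a3.ge, a3.le.trans (hT.pl_le p.1 h0 h6)⟩, by tauto⟩
    · obtain ⟨a1, a2, a3⟩ := hi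
      exact ⟨⟨a1, a2, (hT.pl_le p.1 a1 a2).trans a3.ge, a3.le⟩, by tauto⟩
  · rintro p ⟨⟨h1, h2, h3, h4⟩, h5⟩
    rw [curve, mem_iUnion]
    have up : p.2 = lin X Y 0 M p.1 → ∃ i, p ∈ edge (tv M X Y) i := by
      intro h6
      refine ⟨Fin.last M, ?_⟩
      rcases hT.edge_cases (Fin.last M) with ⟨hiM, ri, ei⟩ | ⟨hiM, ri, ei⟩
      · simp at hiM
      · rw [ei]
        exact ⟨h1, h2, h6⟩
    have low : p.2 = plx X Y M p.1 → ∃ i, p ∈ edge (tv M X Y) i := by
      intro h6
      obtain ⟨k, -, hk, c1, c2⟩ := exists_gap (X := X) 0 M (by omega) p.1 (by rw [hT.zero]; exact h1)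
        (by rw [hT.last]; exact h2)
      refine ⟨⟨k, by omega⟩, ?_⟩
      rcases hT.edge_cases ⟨k, by omega⟩ with ⟨hiM, ri, ei⟩ | ⟨hiM, ri, ei⟩
      · rw [ei]
        exact ⟨c1, c2, h6⟩
      · simp only at hiM; omega
    rcases h5 with h6 | h6 | h6 | h6
    · apply low
      apply le_antisymm _ h3
      apply h4.trans
      rw [h6, ← hT.zero, plx_node hT.mono M 0 (Nat.zero_le _), lin_left]
    · apply low
      apply le_antisymm _ h3
      apply h4.trans
      rw [h6, ← hT.last, plx_node hT.mono M M le_rfl,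
        lin_right 0 M (hT.mono (show 0 < M by omega)).ne]
    · exact low h6
    · exact up h6

/-- **Terrains are simple polygons.** -/
theorem Terrain.isSimplePolygon : IsSimplePolygon (tv M X Y) (treg M L X Y) where
  three_le := by have := hT.hM; omega
  injective := by
    intro i j h
    have : X i = X j := congrArg Prod.fst h
    exact Fin.ext (hT.mono.injective this)
  simple := by
    intro i j hij p hp
    refine ⟨?_, ?_⟩
    · rcases hT.one_sided i j hij p hp.1 hp.2 with h | h
      · exact Or.inl h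
      · exact Or.inr h
    · rcases hT.one_sided j i hij.symm p hp.2 hp.1 with h | h
      · exact Or.inl h
      · exact Or.inr h
  compact := region_compact (plx_continuous _ _ _) (lin_continuous _ _)
    (by exact_mod_cast hT.Lpos) (fun x h0 h1 => hT.pl_lt x h0 h1)
  regular := region_regular (plx_continuous _ _ _) (lin_continuous _ _)
    (by exact_mod_cast hT.Lpos) (fun x h0 h1 => hT.pl_lt x h0 h1)
  boundary := by
    unfold treg
    rw [frontier_region (plx_continuous _ _ _) (lin_continuous _ _)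
      (fun x h0 h1 => hT.pl_lt x h0 h1), hT.curve_eq]
    rfl

/-- **Visibility in terrains.** -/
theorem Terrain.visible (i j : Fin (M + 1)) (hij : i < j) :
    segment ℝ (tv M X Y i) (tv M X Y j) ⊆ treg M L X Y ↔
      ∀ k : ℕ, (i : ℕ) < k → k < (j : ℕ) → Y k ≤ lin X Y i j (X k) := by
  have hi := i.isLt
  have hj := j.isLt
  have hij' : (i : ℕ) < (j : ℕ) := hij
  have hXij : X i < X j := hT.mono hij'
  constructor
  · intro h k hk1 hk2
    have hmem : ((X k, lin X Y i j (X k)) : ℝ × ℝ) ∈ segment ℝ (tv M X Y i) (tv M X Y j) := by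
      unfold tv
      rw [mem_seg hXij]
      exact ⟨(hT.mono hk1).le, (hT.mono hk2).le, rfl⟩
    have h2 := (h hmem).2.2.1
    simp only [plx_node hT.mono M k (by omega)] at h2
    exact h2
  · intro h p hp
    unfold tv at hp
    rw [mem_seg hXij] at hp
    obtain ⟨h1, h2, h3⟩ := hp
    have h3' : p.2 = lin X Y i j p.1 := h3
    have hle : ∀ k : ℕ, (i : ℕ) ≤ k → k ≤ (j : ℕ) → Y k ≤ lin X Y i j (X k) := by
      intro k hk1 hk2
      rcases Nat.eq_or_lt_of_le hk1 with h4 | h4
      · rw [← h4, lin_left]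
      · rcases Nat.eq_or_lt_of_le hk2 with h5 | h5
        · rw [h5, lin_right _ _ hXij.ne]
        · exact h k h4 h5
    have h0 : 0 ≤ p.1 := by
      rw [← hT.zero]; exact (hT.mono.monotone (Nat.zero_le _)).trans h1
    have hL : p.1 ≤ L := by
      rw [← hT.last]; exact h2.trans (hT.mono.monotone (by omega))
    refine ⟨h0, hL, ?_, ?_⟩
    · rw [h3']
      obtain ⟨k, hk1, hk2, c1, c2⟩ := exists_gap i j hij' p.1 h1 h2
      have hg := gap hT.mono k
      rw [plx_eq hT.mono M k (by omega) p.1 c1 c2, lin_combo i j (X k) (X (k + 1)) p.1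
        (hT.mono (Nat.lt_succ_self k))]
      have a1 := hle k hk1 hk2.le
      have a2 := hle (k + 1) (by omega) hk2
      set t := (p.1 - X k) / (X (k + 1) - X k) with ht
      have ht0 : 0 ≤ t := div_nonneg (by linarith) hg.le
      have ht1 : t ≤ 1 := (div_le_one hg).mpr (by linarith)
      nlinarith [mul_nonneg ht0 (sub_nonneg.mpr a2),
        mul_nonneg (sub_nonneg.mpr ht1) (sub_nonneg.mpr a1)]
    · rw [h3', lin_combo i j (X i) (X j) p.1 hXij, lin_combo 0 M (X i) (X j) p.1 hXij, lin_left,
        lin_right _ _ hXij.ne]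
      have a1 := hT.le i (by omega)
      have a2 := hT.le j (by omega)
      set t := (p.1 - X i) / (X j - X i) with ht
      have ht0 : 0 ≤ t := div_nonneg (by linarith) (by linarith)
      have ht1 : t ≤ 1 := (div_le_one (by linarith)).mpr (by linarith)
      nlinarith [mul_nonneg ht0 (sub_nonneg.mpr a2),
        mul_nonneg (sub_nonneg.mpr ht1) (sub_nonneg.mpr a1)]

end

end Q35.VG
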